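import Pool.Agent.Helper49.TP.StW

/-! Project TP: the vortex in a regular graph. -/

set_option autoImplicit false

namespace Pool.Agent.Helper49.TP

open Finset Pool.Agent.Helper93.IA

theorem hVORX (hVCW : VCWC) : VORX := by
  intro ξ ε Λ hξ hξ1 hε hΛ
  obtain ⟨N0, hN0, h⟩ := hVCW ξ ε Λ hξ hξ1 hε hΛ
  refine ⟨N0, fun n0 hn0 => ?_⟩
  obtain ⟨M, hM⟩ := h n0 hn0
  refine ⟨M, fun n k A B C X hn hreg hX hA hB hC => ?_⟩
  have hn1 : 1 ≤ n := le_trans hN0 (le_trans hn0 hn)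
  have hnr : (0 : ℝ) < n := by exact_mod_cast hn1
  have hk : (k : ℝ) / n * n = k := by field_simp
  have hpow : (0 : ℝ) ≤ (n : ℝ) ^ ((2 : ℝ) / 3) := Real.rpow_nonneg hnr.le _
  have key : ∀ j : ℕ, j = k → (k : ℝ) / n * n - 2 * (n : ℝ) ^ ((2 : ℝ) / 3) ≤ (j : ℝ) ∧
      (j : ℝ) ≤ (k : ℝ) / n * n + 2 * (n : ℝ) ^ ((2 : ℝ) / 3) := by
    rintro j rfl
    rw [hk]
    constructor <;> linarith
  have hz : (0 : ℝ) ≤ 2 * Λ * (n : ℝ) ^ ((2 : ℝ) / 3) := by positivity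
  exact hM n n ((k : ℝ) / n) A B C X (fun _ => univ) hn (fun _ => by simp) hX
    ⟨⟨fun a _ => key _ (hreg a).1, fun b _ => key _ (hreg b).2.1⟩,
      ⟨fun a _ => key _ (hreg a).2.2.1, fun b _ => key _ (hreg b).2.2.2.1⟩,
      ⟨fun a _ => key _ (hreg a).2.2.2.2.1, fun b _ => key _ (hreg b).2.2.2.2.2⟩⟩
    ⟨fun a _ b _ hab => by rw [hA a b hab, sub_self, abs_zero]; exact hz,
      fun b _ c _ hbc => by rw [hB b c hbc, sub_self, abs_zero]; exact hz,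
      fun c _ a _ hca => by rw [hC c a hca, sub_self, abs_zero]; exact hz⟩

end Pool.Agent.Helper49.TP
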