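import Pool.Agent.Helper49.TP.Cdx
import Pool.Agent.Helper49.TP.Vox
import Pool.Agent.Helper14.TP.M_DUA
import Pool.Agent.Helper64.TP.M_P1
import Pool.Agent.Helper53.TP.M_P2a
import Pool.Agent.Helper26.TP.M_P2b
import Pool.Agent.Helper24.TP.M_P3a
import Pool.Agent.Helper19.TP.M_P3b
import Pool.Agent.Helper41.TP.M_P4
import Pool.Agent.Helper32.TP.M_COR
import Pool.Agent.Helper51.TP.M_BLY
import Pool.Agent.Helper36.TP.M_FRX
import Pool.Agent.Helper11.TP.M_APY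
import Pool.Agent.Helper33.TP.M_NSX
import Pool.Agent.Helper29.TP.M_SMX
import Pool.Agent.Helper45.TP.M_NWA
import Pool.Agent.Helper10.TP.M_CNW
import Pool.Agent.Helper78.TP.M_SUW
import Pool.Agent.Helper28.TP.M_VSW
import Pool.Agent.Helper60.TP.M_VTW
import Pool.Agent.Helper13.TP.M_VCW
import Pool.Agent.Helper57.TP.M_CFX
import Pool.Agent.Helper69.TP.M_ISX
import Pool.Agent.Helper18.TP.M_IFX
import Pool.Agent.Helper87.TP.M_FFX
import Pool.Agent.Helper30.IA38.L1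
import Pool.Agent.Helper32.IA38.L2
import Pool.Agent.Helper33.IA38.T0
import Pool.Agent.Helper2.IA.M_VAN
import Pool.Agent.Helper22.IA.M_ABF
import Pool.Agent.Helper33.IA.M_FRM
import Pool.Agent.Helper29.IA.M_FDC
import Pool.Agent.Helper84.IA.M_FLL
import Pool.Agent.Helper24.IA.All
import Pool.Agent.Helper38.IA.Lec
import Pool.Agent.Helper38.IA.Mat
import Pool.Agent.Helper57.IA.Brn
import Pool.Agent.Helper85.IA.Nib

/-! Project TP: the machine. A regular tripartite graph with `k ≤ (1/4 - 2δ) n` and a fractional triangle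
decomposition with weights between `c0/n` and `Λ/n` has a triangle decomposition (`n` large). -/

set_option autoImplicit false

namespace Pool.Agent.Helper49.TP

open Pool.Agent.Helper93.IA

theorem hPOI : POI :=
  Pool.Agent.Helper41.TP.hP4 Pool.Agent.Helper53.TP.hP2a Pool.Agent.Helper24.TP.hP3a
    Pool.Agent.Helper64.TP.hP1 Pool.Agent.Helper26.TP.hP2b Pool.Agent.Helper19.TP.hP3b

theorem hAPX : ∀ δ c0 Λ : ℝ, 0 < δ → δ ≤ 1 / 8 → 0 < c0 → 0 < Λ →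
    ∃ ε : ℝ, 0 < ε ∧ ε ≤ 1 / 1000 ∧ APXX δ c0 Λ ε :=
  Pool.Agent.Helper11.TP.hAPY Pool.Agent.Helper85.IA.hNIB
    (Pool.Agent.Helper36.TP.hFRX (Pool.Agent.Helper32.TP.hCOR Pool.Agent.Helper14.TP.hDUA hPOI)
      (Pool.Agent.Helper51.TP.hBLY Pool.Agent.Helper30.IA38.hL1 Pool.Agent.Helper32.IA38.hL2
        Pool.Agent.Helper33.IA38.hT0))

theorem hCDY : ∀ δ c0 Λ : ℝ, 0 < δ → δ ≤ 1 / 8 → 0 < c0 → 0 < Λ →
    ∃ (ξ g ε : ℝ) (n0 : ℕ), 0 < ξ ∧ ξ ≤ 1 / 1000 ∧ ξ ≤ δ ∧ 0 < g ∧ 0 < ε ∧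
      CDPX δ c0 Λ ξ g ε n0 := fun δ c0 Λ h1 h2 h3 h4 =>
  hCDX Pool.Agent.Helper57.IA.hBRN hBLXq hRSVq Pool.Agent.Helper38.IA.hLEC
    Pool.Agent.Helper38.IA.hMAT Pool.Agent.Helper33.TP.hNSX Pool.Agent.Helper29.TP.hSMX
    δ c0 Λ h1 h2 h3 h4 (hAPX δ c0 Λ h1 h2 h3 h4)

theorem hVOR : VORX :=
  hVORX (Pool.Agent.Helper13.TP.hVCW (Pool.Agent.Helper60.TP.hVTW
    (Pool.Agent.Helper28.TP.hVSW (Pool.Agent.Helper78.TP.hSUW Pool.Agent.Helper57.IA.hBRN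
      Pool.Agent.Helper10.TP.hCNW Pool.Agent.Helper45.TP.hNWA)) Pool.Agent.Helper2.IA.hVAN))

theorem hITR : ITRX :=
  Pool.Agent.Helper18.TP.hIFX Pool.Agent.Helper54.IA.hPKB Pool.Agent.Helper14.IA.hPKU
    Pool.Agent.Helper57.TP.hCFX Pool.Agent.Helper69.TP.hISX

theorem hMAI : MAIX :=
  Pool.Agent.Helper87.TP.hFFX Pool.Agent.Helper54.IA.hPKB Pool.Agent.Helper14.IA.hPKU
    Pool.Agent.Helper22.IA.hABF Pool.Agent.Helper33.IA.hFRM Pool.Agent.Helper29.IA.hFDC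
    Pool.Agent.Helper84.IA.hFLL Pool.Agent.Helper24.IA.hABS hCDY hVOR hITR

end Pool.Agent.Helper49.TP
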