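import Pool.Agent.Helper49.TP.StQ

/-!
# Project IA, part P: module P-CD3 (codegrees of the reservoir)
-/

set_option autoImplicit false

namespace Pool.Agent.Helper49.TP.QCD3

open Finset Pool.Agent.Helper93.IA Pool.Agent.Helper57.IA Pool.Agent.Helper38.IA Pool.Agent.Helper49.TP

private theorem pc_nonneg {X Y : Type} [DecidableEq X] [DecidableEq Y] (ρ : ℝ)
    (E : Finset (X × Y)) (r : X → Y → ℝ) (hρ : 0 < ρ)
    (hr : ∀ x y, 99 / 100 ≤ r x y ∧ r x y ≤ 101 / 100) (x : X) (y : Y) : 0 ≤ pc ρ E r x y := by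
  unfold pc
  split_ifs
  · exact mul_nonneg hρ.le (by have := (hr x y).1; linarith)
  · exact le_rfl

private theorem pc_le {X Y : Type} [DecidableEq X] [DecidableEq Y] (ρ : ℝ)
    (E : Finset (X × Y)) (r : X → Y → ℝ) (hρ : 0 < ρ)
    (hr : ∀ x y, 99 / 100 ≤ r x y ∧ r x y ≤ 101 / 100) (x : X) (y : Y) :
    pc ρ E r x y ≤ 101 / 100 * ρ := by
  unfold pc
  split_ifs
  · have := mul_le_mul_of_nonneg_left (hr x y).2 hρ.le
    linarith
  · positivity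

private theorem pc_zero {X Y : Type} [DecidableEq X] [DecidableEq Y] (ρ : ℝ)
    (E : Finset (X × Y)) (r : X → Y → ℝ) (x : X) (y : Y) (h : (x, y) ∉ E) :
    pc ρ E r x y = 0 := by
  unfold pc
  rw [if_neg h]

private theorem le_pc {X Y : Type} [DecidableEq X] [DecidableEq Y] (ρ : ℝ)
    (E : Finset (X × Y)) (r : X → Y → ℝ) (hρ : 0 < ρ)
    (hr : ∀ x y, 99 / 100 ≤ r x y ∧ r x y ≤ 101 / 100) (x : X) (y : Y) (h : (x, y) ∈ E) :
    99 / 100 * ρ ≤ pc ρ E r x y := by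
  unfold pc
  rw [if_pos h]
  have := mul_le_mul_of_nonneg_left (hr x y).1 hρ.le
  linarith

/-- A sum of products of two such numbers, supported on `U`. -/
private theorem sum_le {Z : Type} [Fintype Z] [DecidableEq Z] (ρ : ℝ) (hρ : 0 < ρ)
    (f g : Z → ℝ) (U : Finset Z) (m : ℕ) (hU : U.card = m) (hf0 : ∀ z, 0 ≤ f z)
    (hg0 : ∀ z, 0 ≤ g z) (hf : ∀ z, f z ≤ 101 / 100 * ρ) (hg : ∀ z, g z ≤ 101 / 100 * ρ)
    (hz : ∀ z, z ∉ U → f z = 0) : ∑ z, f z * g z ≤ 2 * ρ ^ 2 * m := by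
  have h1 : ∑ z, f z * g z = ∑ z ∈ U, f z * g z := by
    symm
    apply Finset.sum_subset (Finset.subset_univ U)
    intro z _ hzU
    rw [hz z hzU, zero_mul]
  rw [h1]
  have h2 : ∀ z ∈ U, f z * g z ≤ 2 * ρ ^ 2 := by
    intro z _
    have h3 : f z * g z ≤ (101 / 100 * ρ) * (101 / 100 * ρ) :=
      mul_le_mul (hf z) (hg z) (hg0 z) (by positivity)
    have h4 : (101 / 100 * ρ) * (101 / 100 * ρ) ≤ 2 * ρ ^ 2 := by nlinarith [sq_nonneg ρ]
    exact h3.trans h4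
  have h5 := Finset.sum_le_card_nsmul U _ _ h2
  rw [hU, nsmul_eq_mul] at h5
  linarith

private theorem m1_le {X Y : Type} [Fintype X] [Fintype Y] [DecidableEq X] [DecidableEq Y]
    (E0 E : Finset (X × Y)) (V : Finset Y) (x : X) :
    m1 E V x ≤ m1 E0 V x + d1 (E0 \ E) x := by
  rw [Pool.Agent.Helper38.IA.d1_eq]
  unfold m1
  refine le_trans (Finset.card_le_card ?_) (Finset.card_union_le _ _)
  intro y hy
  simp only [mem_filter, mem_union, mem_sdiff, mem_univ, true_and] at hy ⊢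
  by_cases h : (x, y) ∈ E0
  · exact Or.inr ⟨h, hy.2⟩
  · exact Or.inl ⟨hy.1, h⟩

private theorem m2_le {X Y : Type} [Fintype X] [Fintype Y] [DecidableEq X] [DecidableEq Y]
    (E0 E : Finset (X × Y)) (V : Finset X) (y : Y) :
    m2 E V y ≤ m2 E0 V y + d2 (E0 \ E) y := by
  rw [Pool.Agent.Helper38.IA.d2_eq]
  unfold m2
  refine le_trans (Finset.card_le_card ?_) (Finset.card_union_le _ _)
  intro x hx
  simp only [mem_filter, mem_union, mem_sdiff, mem_univ, true_and] at hx ⊢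
  by_cases h : (x, y) ∈ E0
  · exact Or.inr ⟨h, hx.2⟩
  · exact Or.inl ⟨hx.1, h⟩

/-- The number of common neighbours in `U`. -/
private theorem count {X Y Z : Type} [DecidableEq X] [DecidableEq Y] [DecidableEq Z]
    (B : Finset (Y × Z)) (C : Finset (Z × X)) (U : Finset Z) (y : Y) (x : X) :
    U.card ≤ (U.filter fun z => (y, z) ∈ B ∧ (z, x) ∈ C).card + m1 B U y + m2 C U x := by
  unfold m1 m2
  have h : U ⊆ ((U.filter fun z => (y, z) ∈ B ∧ (z, x) ∈ C) ∪ (U.filter fun z => (y, z) ∉ B)) ∪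
      (U.filter fun z => (z, x) ∉ C) := by
    intro z hz
    simp only [mem_filter, mem_union]
    by_cases h1 : (y, z) ∈ B
    · by_cases h2 : (z, x) ∈ C
      · exact Or.inl (Or.inl ⟨hz, h1, h2⟩)
      · exact Or.inr ⟨hz, h2⟩
    · exact Or.inl (Or.inr ⟨hz, h1⟩)
  refine le_trans (Finset.card_le_card h) ?_
  refine le_trans (Finset.card_union_le _ _) ?_
  have := Finset.card_union_le (U.filter fun z => (y, z) ∈ B ∧ (z, x) ∈ C)
    (U.filter fun z => (y, z) ∉ B)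
  omega

private theorem num (κ ε g ξ ρ η n m N b1 c1 b0 c0 db dc : ℝ) (hκ : κ ≤ 1 / 4)
    (hξ0 : 0 < ξ) (hg : g ≤ ξ / 5000) (hρ : 0 < ρ) (hη : η ≤ ρ ^ 2 * ξ / 100)
    (hε : ε ≤ 1 / 1000) (hn : 0 ≤ n) (hbig : 1000 ≤ ξ * n) (hm : ξ * n ≤ m + 1)
    (h1 : m ≤ N + b1 + c1) (h2 : b1 ≤ b0 + db) (h3 : c1 ≤ c0 + dc) (h4 : b0 ≤ (κ + ε) * m)
    (h5 : c0 ≤ (κ + ε) * m) (h6 : db ≤ g * n) (h7 : dc ≤ g * n) (X : ℝ)
    (h8 : (99 / 100 * ρ) ^ 2 * N ≤ X) (Y : ℝ) (h9 : |Y - X| ≤ η / 2 * n) :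
    ρ ^ 2 * m / 4 ≤ Y := by
  have hm0 : 999 ≤ m := by linarith
  have hgn : g * n ≤ (m + 1) / 5000 := by
    have := mul_le_mul_of_nonneg_right hg hn
    linarith
  have hkm : (κ + ε) * m ≤ (1 / 4 + 1 / 1000) * m :=
    mul_le_mul_of_nonneg_right (by linarith) (by linarith)
  have hN : 49 / 100 * m ≤ N := by linarith
  have hη' : η / 2 * n ≤ ρ ^ 2 * ((m + 1) / 200) := by
    have h10 := mul_le_mul_of_nonneg_right hη hn
    have h11 : ρ ^ 2 * (ξ * n) ≤ ρ ^ 2 * (m + 1) :=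
      mul_le_mul_of_nonneg_left hm (by positivity)
    linarith
  have hX : ρ ^ 2 * (12 / 25 * m) ≤ X := by
    have h12 : (99 / 100 * ρ) ^ 2 * (49 / 100 * m) ≤ (99 / 100 * ρ) ^ 2 * N :=
      mul_le_mul_of_nonneg_left hN (by positivity)
    have h13 : 0 ≤ ρ ^ 2 * m := by positivity
    linarith
  have h14 : ρ ^ 2 * ((m + 1) / 200) ≤ ρ ^ 2 * (m / 5) :=
    mul_le_mul_of_nonneg_left (by linarith) (by positivity)
  have h15 := (abs_le.1 h9).1
  have h16 : 0 ≤ ρ ^ 2 * m := by positivity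
  have h17 : ρ ^ 2 * (12 / 25 * m) = 12 / 25 * (ρ ^ 2 * m) := by ring
  have h18 : ρ ^ 2 * (m / 5) = 1 / 5 * (ρ ^ 2 * m) := by ring
  have h19 : ρ ^ 2 * m / 4 = 1 / 4 * (ρ ^ 2 * m) := by ring
  rw [h19]
  linarith

theorem hCD3 : StCD3q := by
  intro α β γ _ _ _ _ _ _ κ ε g ξ ρ η n m A0 A B0 B C0 C U1 W1 U2 W2 U3 W3 rA rB rC QA QB QC hS
  have hηn : 0 ≤ η / 2 * n := mul_nonneg (by have := hS.η0; linarith) (Nat.cast_nonneg n)
  refine ⟨?_, ?_, ?_⟩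
  · intro a a' ha _ hne
    have h1 := hS.dev.cA a a' hne
    have h2 := sum_le ρ hS.ρ0 (fun b => pc ρ (crs A U1 U2) rA a b)
      (fun b => pc ρ (crs A U1 U2) rA a' b) U2 m hS.lv.c2
      (fun b => pc_nonneg _ _ _ hS.ρ0 hS.hrA _ _) (fun b => pc_nonneg _ _ _ hS.ρ0 hS.hrA _ _)
      (fun b => pc_le _ _ _ hS.ρ0 hS.hrA _ _) (fun b => pc_le _ _ _ hS.ρ0 hS.hrA _ _)
      (fun b hb => pc_zero _ _ _ _ _ (by
        unfold crs
        rw [mem_filter]
        rintro ⟨_, h⟩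
        exact h ⟨fun h' => absurd h' ha, fun h' => absurd h' hb⟩))
    have h3 := (abs_le.1 h1).2
    linarith
  · intro a a' ha _ hne
    have h1 := hS.dev.cC a a' hne
    have h2 := sum_le ρ hS.ρ0 (fun c => pc ρ (crs C U3 U1) rC c a)
      (fun c => pc ρ (crs C U3 U1) rC c a') U3 m hS.lv.c3
      (fun c => pc_nonneg _ _ _ hS.ρ0 hS.hrC _ _) (fun c => pc_nonneg _ _ _ hS.ρ0 hS.hrC _ _)
      (fun c => pc_le _ _ _ hS.ρ0 hS.hrC _ _) (fun c => pc_le _ _ _ hS.ρ0 hS.hrC _ _)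
      (fun c hc => pc_zero _ _ _ _ _ (by
        unfold crs
        rw [mem_filter]
        rintro ⟨_, h⟩
        exact h ⟨fun h' => absurd h' hc, fun h' => absurd h' ha⟩))
    have h3 := (abs_le.1 h1).2
    linarith
  · intro a ha b hb
    have h1 := hS.dev.cm a b
    have hcard := count B C U3 b a
    rw [hS.lv.c3] at hcard
    have hB := m1_le B0 B U3 b
    have hC := m2_le C0 C U3 a
    have hB0 := (hS.lv.nearU.2.1.1 b (mem_univ _)).2
    have hC0 := (hS.lv.nearU.2.2.2 a (mem_univ _)).2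
    have hdB := hS.lv.smB.1 b
    have hdC := hS.lv.smC.2 a
    have hm : ξ * n ≤ (m : ℝ) + 1 := by
      rw [hS.lv.hm]
      exact (Nat.lt_floor_add_one _).le
    have hX : (99 / 100 * ρ) ^ 2 * ((U3.filter fun c => (b, c) ∈ B ∧ (c, a) ∈ C).card : ℝ) ≤
        ∑ c, pc ρ (crs B U2 U3) rB b c * pc ρ (crs C U3 U1) rC c a := by
      have h5 : ∑ c ∈ U3.filter (fun c => (b, c) ∈ B ∧ (c, a) ∈ C), (99 / 100 * ρ) ^ 2 ≤
          ∑ c, pc ρ (crs B U2 U3) rB b c * pc ρ (crs C U3 U1) rC c a := by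
        refine le_trans (Finset.sum_le_sum ?_) (Finset.sum_le_univ_sum_of_nonneg ?_)
        · intro c hc
          rw [mem_filter] at hc
          have hpos : 0 ≤ 99 / 100 * ρ := mul_nonneg (by norm_num) hS.ρ0.le
          rw [sq]
          refine mul_le_mul (le_pc _ _ _ hS.ρ0 hS.hrB _ _ ?_) (le_pc _ _ _ hS.ρ0 hS.hrC _ _ ?_)
            hpos (pc_nonneg _ _ _ hS.ρ0 hS.hrB _ _)
          · unfold crs
            rw [mem_filter]
            exact ⟨hc.2.1, fun h => hb (h.2 hc.1)⟩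
          · unfold crs
            rw [mem_filter]
            exact ⟨hc.2.2, fun h => ha (h.1 hc.1)⟩
        · intro c
          exact mul_nonneg (pc_nonneg _ _ _ hS.ρ0 hS.hrB _ _) (pc_nonneg _ _ _ hS.ρ0 hS.hrC _ _)
      rw [Finset.sum_const, nsmul_eq_mul] at h5
      linarith
    exact num κ ε g ξ ρ η n m _ (m1 B U3 b) (m2 C U3 a) (m1 B0 U3 b) (m2 C0 U3 a)
      (d1 (B0 \ B) b) (d2 (C0 \ C) a) hS.κ1 hS.ξ0 hS.g1 hS.ρ0 hS.η1 hS.ε1 (Nat.cast_nonneg n)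
      hS.big hm (by exact_mod_cast hcard) (by exact_mod_cast hB) (by exact_mod_cast hC) hB0 hC0
      hdB hdC _ hX _ h1

end Pool.Agent.Helper49.TP.QCD3
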