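import Pool.Agent.Helper49.TP.StQ

set_option autoImplicit false

namespace Pool.Agent.Helper49.TP.QNUM

open Pool.Agent.Helper93.IA Pool.Agent.Helper49.TP

theorem hNUM : StNUMq := by
  intro hNM2 ξ ρ η g' hξ0 hξ hρ0 hρ hη0 hη hg0 hg
  obtain ⟨n1, hn1⟩ := hNM2 ξ ρ hξ0 hξ hρ0 hρ
  have hρ1 : ρ ≤ 1 / 100000000 := by linarith
  have hc : 0 < ρ ^ 2 * ξ := by positivity
  refine ⟨max n1 (⌈1000000 / (ρ ^ 2 * ξ)⌉₊), ?_⟩
  intro n m κ hn hm hκ0 hκ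
  have hnn1 : n1 ≤ n := (le_max_left _ _).trans hn
  have hx1 : 1000000 / (ρ ^ 2 * ξ) ≤ (n : ℝ) :=
    (Nat.le_ceil _).trans (by exact_mod_cast (le_max_right _ _).trans hn)
  have hx2 : 1000000 ≤ ρ ^ 2 * ξ * n := by
    rw [div_le_iff₀ hc] at hx1
    linarith
  obtain ⟨x, hx⟩ : ∃ x : ℝ, x = (n : ℝ) := ⟨_, rfl⟩
  obtain ⟨M, hM⟩ : ∃ M : ℝ, M = (m : ℝ) := ⟨_, rfl⟩
  rw [← hx] at hx2
  have hxnn : 0 ≤ x := by
    rw [hx]
    exact Nat.cast_nonneg n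
  have hξx0 : 0 ≤ ξ * x := mul_nonneg hξ0.le hxnn
  have hM1 : M ≤ ξ * x := by
    rw [hM, hm, hx]
    exact Nat.floor_le (by rw [← hx]; exact hξx0)
  have hM2 : ξ * x < M + 1 := by
    rw [hM, hm, hx]
    exact Nat.lt_floor_add_one _
  have hρ2 : ρ ^ 2 ≤ 1 := by nlinarith
  have hρ2' : 0 < ρ ^ 2 := by positivity
  have hξx : 1000000 ≤ ξ * x := by
    have : ρ ^ 2 * (ξ * x) ≤ 1 * (ξ * x) := mul_le_mul_of_nonneg_right hρ2 hξx0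
    linarith
  have hM3 : ξ * x / 2 ≤ M := by linarith
  have hM0 : 0 < M := by linarith
  -- small terms
  have e1 : ρ ^ 2 * ξ * x ≤ 2 * (ρ ^ 2 * M) := by
    have := mul_le_mul_of_nonneg_left (show ξ * x ≤ 2 * M by linarith) hρ2'.le
    linarith
  have hηx : η * x ≤ ρ ^ 2 * M / 500 := by
    have := mul_le_mul_of_nonneg_right hη hxnn
    linarith
  have hgx : g' * x ≤ ρ ^ 2 * M / 500 := by
    have := mul_le_mul_of_nonneg_right hg hxnn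
    linarith
  have hηx0 : 0 ≤ η * x := mul_nonneg hη0.le hxnn
  have hgx0 : 0 ≤ g' * x := mul_nonneg hg0.le hxnn
  have hQ : 500000 ≤ ρ ^ 2 * M := by linarith
  obtain ⟨P, hP⟩ : ∃ P : ℝ, P = ρ * M := ⟨_, rfl⟩
  have hQP : ρ ^ 2 * M ≤ 1 / 100000000 * P := by
    have h1 : ρ ^ 2 * M = ρ * P := by rw [hP]; ring
    have h2 : 0 ≤ P := by rw [hP]; positivity
    rw [h1]
    exact mul_le_mul_of_nonneg_right hρ1 h2
  have hP0 : 0 < P := by rw [hP]; positivity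
  have hPb : 500000 ≤ P := by linarith
  have hκP : κ * P ≤ 1 / 4 * P := mul_le_mul_of_nonneg_right hκ hP0.le
  have hκP0 : 0 ≤ κ * P := mul_nonneg hκ0 hP0.le
  have hξP : ξ * P ≤ 1 / 1000 * P := mul_le_mul_of_nonneg_right hξ hP0.le
  have hξP0 : 0 ≤ ξ * P := mul_nonneg hξ0.le hP0.le
  have r1 : ρ * κ * M = κ * P := by rw [hP]; ring
  have r2 : ρ * (ξ * M) = ξ * P := by rw [hP]; ring
  have r3 : ρ * (1 - κ) * M = P - κ * P := by rw [hP]; ring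
  -- b = R
  obtain ⟨b, hb⟩ : ∃ b : ℕ, b = ⌊P / 20⌋₊ := ⟨_, rfl⟩
  have hb1 : (b : ℝ) ≤ P / 20 := by
    rw [hb]
    exact Nat.floor_le (by positivity)
  have hb2 : P / 20 - 1 < b := by
    rw [hb]
    have := Nat.lt_floor_add_one (P / 20)
    linarith
  have hb3 : P / 30 ≤ (b : ℝ) := by linarith
  have hb4 : 1 ≤ b := by
    have : (0 : ℝ) < b := by linarith
    exact_mod_cast this
  -- t
  obtain ⟨t, ht⟩ : ∃ t : ℕ, t = ⌈51 / 50 * (κ * P) + 2 * (ξ * P) + 2 * (η * x) + g' * x⌉₊ := ⟨_, rfl⟩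
  have ht1 : 51 / 50 * (κ * P) + 2 * (ξ * P) + 2 * (η * x) + g' * x ≤ t := by
    rw [ht]
    exact Nat.le_ceil _
  have ht2 : (t : ℝ) < 51 / 50 * (κ * P) + 2 * (ξ * P) + 2 * (η * x) + g' * x + 1 := by
    rw [ht]
    exact Nat.ceil_lt_add_one (by positivity)
  -- μ
  obtain ⟨μ, hμ⟩ : ∃ μ : ℕ, μ = ⌈2 * (ρ ^ 2 * M) + η * x + 2 * (g' * x)⌉₊ := ⟨_, rfl⟩
  have hμ1 : 2 * (ρ ^ 2 * M) + η * x + 2 * (g' * x) ≤ μ := by
    rw [hμ]
    exact Nat.le_ceil _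
  have hμ2 : (μ : ℝ) < 2 * (ρ ^ 2 * M) + η * x + 2 * (g' * x) + 1 := by
    rw [hμ]
    exact Nat.ceil_lt_add_one (by positivity)
  -- D
  obtain ⟨D, hD⟩ : ∃ D : ℕ, D = ⌈3 / 2 * (ρ * x) + g' * x⌉₊ := ⟨_, rfl⟩
  have hD1 : 3 / 2 * (ρ * x) + g' * x ≤ D := by
    rw [hD]
    exact Nat.le_ceil _
  have hD2 : (D : ℝ) < 3 / 2 * (ρ * x) + g' * x + 1 := by
    rw [hD]
    exact Nat.ceil_lt_add_one (by positivity)
  have hρx0 : 0 ≤ ρ * x := mul_nonneg hρ0.le hxnn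
  have hρx : ρ ^ 2 * ξ * x ≤ ρ * x := by
    have h1 : ρ ^ 2 * ξ * x = (ρ * ξ) * (ρ * x) := by ring
    have h2 : ρ * ξ ≤ 1 := by nlinarith
    rw [h1]
    exact mul_le_of_le_one_left hρx0 h2
  have hgx2 : g' * x ≤ ρ * x / 1000 := by
    have := mul_le_mul_of_nonneg_right hg hxnn
    linarith
  have c1 : ξ * (n : ℝ) / 2 ≤ m := by rw [← hx, ← hM]; exact hM3
  have c5 : (μ : ℝ) ≤ 3 * ρ ^ 2 * m := by
    rw [← hM]
    linarith
  have c6 : (D : ℝ) ≤ 2 * ρ * n := by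
    rw [← hx]
    linarith
  have c7 : ρ * (m : ℝ) / 30 ≤ b := by
    rw [← hM, ← hP]
    exact hb3
  refine ⟨c1, ?_, t, b, b, D, μ, hb4, ?_, ?_, ?_, ?_, c6, ?_⟩
  · rw [← hx, ← hM]
    linarith
  · rw [← hx, ← hM]
    have : 51 / 50 * ρ * κ * M + 2 * ρ * (ξ * M) + 2 * η * x + g' * x =
        51 / 50 * (κ * P) + 2 * (ξ * P) + 2 * (η * x) + g' * x := by
      rw [← r1, ← r2]; ring
    rw [this]
    exact ht1
  · rw [← hx, ← hM]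
    have : 49 / 50 * ρ * (1 - κ) * M = 49 / 50 * (P - κ * P) := by
      rw [← r3]; ring
    rw [this]
    linarith
  · rw [← hx, ← hM]
    linarith
  · rw [← hx]
    linarith
  · exact hn1 n m b b D μ hnn1 c1 c5 c7 c7 c6

end Pool.Agent.Helper49.TP.QNUM
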