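import Pool.Agent.Helper49.TP.StQ

/-!
# Project IA, part P: the reservoir (assembly)
-/

set_option autoImplicit false

namespace Pool.Agent.Helper49.TP.QRSV

open Pool.Agent.Helper93.IA Finset Pool.Agent.Helper49.TP Pool.Agent.Helper57.IA

variable {α β γ : Type}

private theorem bi_mono [DecidableEq α] [DecidableEq β] {A : Finset (α × β)} {V1 : Finset α}
    {V2 : Finset β} {U1 : Finset α} {U2 : Finset β} {lo lo' hi hi' : ℝ}
    (h : Bi A V1 V2 U1 U2 lo hi) (h1 : lo' ≤ lo) (h2 : hi ≤ hi') : Bi A V1 V2 U1 U2 lo' hi' :=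
  ⟨fun a ha => ⟨h1.trans (h.1 a ha).1, (h.1 a ha).2.trans h2⟩,
    fun b hb => ⟨h1.trans (h.2 b hb).1, (h.2 b hb).2.trans h2⟩⟩

private theorem near_mono [DecidableEq α] [DecidableEq β] [DecidableEq γ] {A : Finset (α × β)}
    {B : Finset (β × γ)} {C : Finset (γ × α)} {V1 U1 : Finset α} {V2 U2 : Finset β}
    {V3 U3 : Finset γ} {lo lo' hi hi' : ℝ} (h : Near A B C V1 V2 V3 U1 U2 U3 lo hi)
    (h1 : lo' ≤ lo) (h2 : hi ≤ hi') : Near A B C V1 V2 V3 U1 U2 U3 lo' hi' :=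
  ⟨bi_mono h.1 h1 h2, bi_mono h.2.1 h1 h2, bi_mono h.2.2 h1 h2⟩

variable [Fintype α] [Fintype β] [Fintype γ] [DecidableEq α] [DecidableEq β] [DecidableEq γ]

private theorem lv_mono {κ ε ε' g ξ : ℝ} {n m : ℕ} {A0 A : Finset (α × β)} {B0 B : Finset (β × γ)}
    {C0 C : Finset (γ × α)} {U1 W1 : Finset α} {U2 W2 : Finset β} {U3 W3 : Finset γ}
    (h : Lv κ ε g ξ n m A0 A B0 B C0 C U1 W1 U2 W2 U3 W3) (he : ε ≤ ε') :
    Lv κ ε' g ξ n m A0 A B0 B C0 C U1 W1 U2 W2 U3 W3 where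
  nα := h.nα
  nβ := h.nβ
  nγ := h.nγ
  hm := h.hm
  c1 := h.c1
  c2 := h.c2
  c3 := h.c3
  w1 := h.w1
  w2 := h.w2
  w3 := h.w3
  cw1 := h.cw1
  cw2 := h.cw2
  cw3 := h.cw3
  sA := h.sA
  sB := h.sB
  sC := h.sC
  near := near_mono h.near
    (mul_le_mul_of_nonneg_right (by linarith) (Nat.cast_nonneg n))
    (mul_le_mul_of_nonneg_right (by linarith) (Nat.cast_nonneg n))
  nearU := near_mono h.nearU
    (mul_le_mul_of_nonneg_right (by linarith) (Nat.cast_nonneg m))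
    (mul_le_mul_of_nonneg_right (by linarith) (Nat.cast_nonneg m))
  smA := h.smA
  smB := h.smB
  smC := h.smC
  agA := h.agA
  agB := h.agB
  agC := h.agC
  bal := h.bal

private theorem rsv1_of_sit (hSZ : StSZq) (hNB : StNBq) (hCD : StCD3q) (hIM : StIMq)
    {κ ε g ξ ρ η : ℝ} {n m : ℕ} {A0 A : Finset (α × β)} {B0 B : Finset (β × γ)}
    {C0 C : Finset (γ × α)} {U1 W1 : Finset α} {U2 W2 : Finset β} {U3 W3 : Finset γ}
    {rA : α → β → ℝ} {rB : β → γ → ℝ} {rC : γ → α → ℝ} {QA : Finset (α × β)}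
    {QB : Finset (β × γ)} {QC : Finset (γ × α)}
    (h : Sitq κ ε g ξ ρ η n m A0 A B0 B C0 C U1 W1 U2 W2 U3 W3 rA rB rC QA QB QC) :
    Rsv1 κ ρ η n m A B C QA QB QC U1 U2 W2 U3 W3 := by
  have h1 := hSZ α β γ κ ε g ξ ρ η n m A0 A B0 B C0 C U1 W1 U2 W2 U3 W3 rA rB rC QA QB QC h
  have h2 := hNB α β γ κ ε g ξ ρ η n m A0 A B0 B C0 C U1 W1 U2 W2 U3 W3 rA rB rC QA QB QC h
  have h3 := hCD α β γ κ ε g ξ ρ η n m A0 A B0 B C0 C U1 W1 U2 W2 U3 W3 rA rB rC QA QB QC h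
  have h4 := hIM α β γ κ ε g ξ ρ η n m A0 A B0 B C0 C U1 W1 U2 W2 U3 W3 rA rB rC QA QB QC h
  exact
    { sub := h.qA
      szA := h1.1
      szC := h1.2.1
      inA := h1.2.2.1
      inC := h1.2.2.2
      nbB := h2.1
      nbC := h2.2.1
      wA := h2.2.2.1
      wC := h2.2.2.2
      cdA := h3.1
      cdC := h3.2.1
      cm := h3.2.2
      imb := h4 }

omit [Fintype α] [Fintype β] in
private theorem pc_bd {ρ : ℝ} (h0 : 0 < ρ) (h1 : ρ ≤ 1 / 4) (E : Finset (α × β)) (r : α → β → ℝ)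
    (hr : ∀ a b, 99 / 100 ≤ r a b ∧ r a b ≤ 101 / 100) (a : α) (b : β) :
    0 ≤ pc ρ E r a b ∧ pc ρ E r a b ≤ 1 := by
  unfold pc
  split_ifs
  · have h2 := (hr a b).1
    have h3 := (hr a b).2
    refine ⟨mul_nonneg h0.le (by linarith), ?_⟩
    calc ρ * r a b ≤ 1 / 4 * (101 / 100) :=
          mul_le_mul h1 h3 (by linarith) (by norm_num)
      _ ≤ 1 := by norm_num
  · exact ⟨le_refl _, zero_le_one⟩

omit [Fintype α] [Fintype β] in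
private theorem sub_of_pc {ρ : ℝ} (E : Finset (α × β)) (r : α → β → ℝ) (Q : Finset (α × β))
    (h : ∀ a b, pc ρ E r a b = 0 → (a, b) ∉ Q) : Q ⊆ E := by
  rintro ⟨a, b⟩ he
  by_contra hc
  exact h a b (by unfold pc; rw [if_neg hc]) he

theorem hRSVA : StRSVAq := by
  intro hB hX hC hD hN hR hSZ hNB hCD hIM _ _ ξ g ρ η ξ0 ξ1 g0 g1 ρ0 ρ1 η0 η1
  obtain ⟨ε', n1, hε', H⟩ := hX ξ g ρ ξ0 ξ1 g0 g1 ρ0 ρ1
  have hη1 : η ≤ 1 := by
    have h2 : ρ ^ 2 ≤ 1 := by nlinarith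
    have h3 : ρ ^ 2 * ξ ≤ 1 * 1 :=
      mul_le_mul h2 (by linarith) ξ0.le zero_le_one
    linarith
  obtain ⟨n2, H2⟩ := hR hB hC hD hN η η0 hη1
  refine ⟨min ε' (min (1 / 1000) (η / 2)), max n1 (max n2 ⌈1000 / ξ⌉₊), ?_, ?_⟩
  · exact lt_min hε' (lt_min (by norm_num) (by linarith))
  intro α β γ _ _ _ _ _ _ κ n m A0 A B0 B C0 C U1 W1 U2 W2 U3 W3 κ0 κ1 hn hL
  set ε := min ε' (min (1 / 1000) (η / 2)) with hε
  have e0 : 0 < ε := lt_min hε' (lt_min (by norm_num) (by linarith))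
  have e1 : ε ≤ 1 / 1000 := (min_le_right _ _).trans (min_le_left _ _)
  have e2 : ε ≤ η / 2 := (min_le_right _ _).trans (min_le_right _ _)
  have hn1 : n1 ≤ n := (le_max_left _ _).trans hn
  have hn2 : n2 ≤ n := ((le_max_left _ _).trans (le_max_right _ _)).trans hn
  have hn3 : ⌈1000 / ξ⌉₊ ≤ n := ((le_max_right _ _).trans (le_max_right _ _)).trans hn
  have hbig : 1000 ≤ ξ * n := by
    have h2 : 1000 / ξ ≤ n := Nat.ceil_le.1 hn3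
    rw [div_le_iff₀ ξ0] at h2
    linarith
  obtain ⟨rA, rB, rC, hrA, hrB, hrC, bA, bB, bC⟩ :=
    H α β γ κ n m A0 A B0 B C0 C U1 W1 U2 W2 U3 W3 κ0 κ1 hn1 (lv_mono hL (min_le_left _ _))
  obtain ⟨QA, QB, QC, zA, zB, zC, dA, dB, dC⟩ :=
    H2 α β γ n A B C (pc ρ (crs A U1 U2) rA) (pc ρ (crs B U2 U3) rB) (pc ρ (crs C U3 U1) rC)
      U1 W1 U2 W2 U3 W3 hn2 hL.nα hL.nβ hL.nγ (pc_bd ρ0 ρ1 _ rA hrA) (pc_bd ρ0 ρ1 _ rB hrB)
      (pc_bd ρ0 ρ1 _ rC hrC)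
  have qA := sub_of_pc _ _ _ zA
  have qB := sub_of_pc _ _ _ zB
  have qC := sub_of_pc _ _ _ zC
  have L2 := Pool.Agent.Helper38.IA.Lv_rot hL
  have L3 := Pool.Agent.Helper38.IA.Lv_rot L2
  refine ⟨QA, QB, QC, ?_, ?_, ?_⟩
  · exact rsv1_of_sit hSZ hNB hCD hIM
      { lv := hL, κ0 := κ0, κ1 := κ1, ξ0 := ξ0, ξ1 := ξ1, g0 := g0, g1 := g1, ρ0 := ρ0, ρ1 := ρ1,
        η0 := η0, η1 := η1, ε0 := e0, ε1 := e1, ε2 := e2, big := hbig, hrA := hrA, hrB := hrB,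
        hrC := hrC, bal := bA, qA := qA, qB := qB, qC := qC, dev := dA }
  · exact rsv1_of_sit hSZ hNB hCD hIM
      { lv := L2, κ0 := κ0, κ1 := κ1, ξ0 := ξ0, ξ1 := ξ1, g0 := g0, g1 := g1, ρ0 := ρ0, ρ1 := ρ1,
        η0 := η0, η1 := η1, ε0 := e0, ε1 := e1, ε2 := e2, big := hbig, hrA := hrB, hrB := hrC,
        hrC := hrA, bal := bB, qA := qB, qB := qC, qC := qA, dev := dB }
  · exact rsv1_of_sit hSZ hNB hCD hIM
      { lv := L3, κ0 := κ0, κ1 := κ1, ξ0 := ξ0, ξ1 := ξ1, g0 := g0, g1 := g1, ρ0 := ρ0, ρ1 := ρ1,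
        η0 := η0, η1 := η1, ε0 := e0, ε1 := e1, ε2 := e2, big := hbig, hrA := hrC, hrB := hrA,
        hrC := hrB, bal := bC, qA := qC, qB := qA, qC := qB, dev := dC }

end Pool.Agent.Helper49.TP.QRSV
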