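import Pool.Agent.Helper49.TP.StQ

/-!
# Project IA, part P, module SZ: the sizes of the reservoir
-/

set_option autoImplicit false

namespace Pool.Agent.Helper49.TP.QSZ

open Finset Pool.Agent.Helper93.IA Pool.Agent.Helper57.IA Pool.Agent.Helper38.IA Pool.Agent.Helper49.TP

private lemma count {Y : Type} [Fintype Y] (U : Finset Y) (P0 P : Y → Prop)
    [DecidablePred P0] [DecidablePred P] (m : ℕ) (lo hi g : ℝ) (hsub : ∀ y, P y → P0 y)
    (hU : U.card = m) (h1 : lo ≤ ((U.filter fun y => ¬ P0 y).card : ℝ))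
    (h2 : ((U.filter fun y => ¬ P0 y).card : ℝ) ≤ hi)
    (h3 : ((univ.filter fun y => P0 y ∧ ¬ P y).card : ℝ) ≤ g) :
    (m : ℝ) - hi - g ≤ ((U.filter fun y => P y).card : ℝ) ∧
      ((U.filter fun y => P y).card : ℝ) ≤ m - lo := by
  classical
  have e : (U.filter fun y => P y).card + (U.filter fun y => ¬ P y).card = m := by
    rw [Finset.card_filter_add_card_filter_not, hU]
  have e' : ((U.filter fun y => P y).card : ℝ) + ((U.filter fun y => ¬ P y).card : ℝ) = m := by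
    exact_mod_cast e
  have a1 : (U.filter fun y => ¬ P0 y).card ≤ (U.filter fun y => ¬ P y).card := by
    refine Finset.card_le_card fun y hy => ?_
    rw [mem_filter] at hy ⊢
    exact ⟨hy.1, fun h => hy.2 (hsub y h)⟩
  have a2 : (U.filter fun y => ¬ P y).card ≤
      (U.filter fun y => ¬ P0 y).card + (univ.filter fun y => P0 y ∧ ¬ P y).card := by
    refine le_trans (Finset.card_le_card fun y hy => ?_) (Finset.card_union_le _ _)
    rw [mem_filter] at hy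
    rw [mem_union, mem_filter, mem_filter]
    by_cases h : P0 y
    · exact Or.inr ⟨mem_univ _, h, hy.2⟩
    · exact Or.inl ⟨hy.1, h⟩
  have a1' : ((U.filter fun y => ¬ P0 y).card : ℝ) ≤ ((U.filter fun y => ¬ P y).card : ℝ) := by
    exact_mod_cast a1
  have a2' : ((U.filter fun y => ¬ P y).card : ℝ) ≤
      ((U.filter fun y => ¬ P0 y).card : ℝ) + ((univ.filter fun y => P0 y ∧ ¬ P y).card : ℝ) := by
    exact_mod_cast a2
  constructor <;> linarith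

private lemma sums {Y : Type} [Fintype Y] (U : Finset Y) (P : Y → Prop)
    [DecidablePred P] (f : Y → ℝ) (lo hi : ℝ) (hf : ∀ y, P y → y ∈ U → lo ≤ f y ∧ f y ≤ hi)
    (hf0 : ∀ y, ¬ (P y ∧ y ∈ U) → f y = 0) :
    lo * ((U.filter fun y => P y).card : ℝ) ≤ ∑ y, f y ∧
      ∑ y, f y ≤ hi * ((U.filter fun y => P y).card : ℝ) := by
  classical
  have e : ∑ y, f y = ∑ y ∈ U.filter (fun y => P y), f y := by
    symm
    refine Finset.sum_subset (Finset.subset_univ _) fun y _ hy => hf0 y fun h => hy ?_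
    rw [mem_filter]
    exact ⟨h.2, h.1⟩
  rw [e]
  constructor
  · have := Finset.card_nsmul_le_sum (U.filter fun y => P y) f lo (fun y hy => by
      rw [mem_filter] at hy
      exact (hf y hy.2 hy.1).1)
    rw [nsmul_eq_mul] at this
    linarith
  · have := Finset.sum_le_card_nsmul (U.filter fun y => P y) f hi (fun y hy => by
      rw [mem_filter] at hy
      exact (hf y hy.2 hy.1).2)
    rw [nsmul_eq_mul] at this
    linarith

private lemma numb (κ ε g ξ ρ η N S d x y : ℝ) (κ1 : κ ≤ 1 / 4)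
    (g1 : g * x ≤ ξ * x / 5000) (ρ0 : 0 < ρ) (hηx : 0 ≤ η * x) (ε1 : ε ≤ 1 / 1000)
    (hy : ξ * x ≤ y + 1) (hy1 : 999 ≤ y)
    (hN1 : y - (κ + ε) * y - g * x ≤ N) (hN2 : N ≤ y - (κ - ε) * y)
    (hS1 : 99 / 100 * ρ * N ≤ S) (hS2 : S ≤ 101 / 100 * ρ * N) (hd : |d - S| ≤ η / 2 * x) :
    49 / 50 * ρ * (1 - κ) * y - η * x ≤ d ∧ d ≤ 51 / 50 * ρ * (1 - κ) * y + η * x := by
  obtain ⟨d1, d2⟩ := abs_le.mp hd
  have hy0 : 0 ≤ y := by linarith
  have k1 : 3 / 4 * y ≤ (1 - κ) * y := mul_le_mul_of_nonneg_right (by linarith) hy0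
  have k2 : ε * y ≤ 1 / 1000 * y := mul_le_mul_of_nonneg_right ε1 hy0
  constructor
  · have h1 : 49 / 50 * ((1 - κ) * y) ≤ 99 / 100 * N := by linarith
    have h2 : ρ * (49 / 50 * ((1 - κ) * y)) ≤ ρ * (99 / 100 * N) :=
      mul_le_mul_of_nonneg_left h1 ρ0.le
    linarith
  · have h1 : 101 / 100 * N ≤ 51 / 50 * ((1 - κ) * y) := by linarith
    have h2 : ρ * (101 / 100 * N) ≤ ρ * (51 / 50 * ((1 - κ) * y)) :=
      mul_le_mul_of_nonneg_left h1 ρ0.le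
    linarith

private lemma outer {Y : Type} [Fintype Y] (U : Finset Y) (P0 P : Y → Prop)
    [DecidablePred P0] [DecidablePred P] (r f : Y → ℝ) (κ ε g ξ ρ η : ℝ) (n m : ℕ)
    (hsub : ∀ y, P y → P0 y) (hU : U.card = m)
    (h1 : (κ - ε) * m ≤ ((U.filter fun y => ¬ P0 y).card : ℝ))
    (h2 : ((U.filter fun y => ¬ P0 y).card : ℝ) ≤ (κ + ε) * m)
    (h3 : ((univ.filter fun y => P0 y ∧ ¬ P y).card : ℝ) ≤ g * n)
    (hr : ∀ y, 99 / 100 ≤ r y ∧ r y ≤ 101 / 100)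
    (hf : ∀ y, P y → y ∈ U → f y = ρ * r y) (hf0 : ∀ y, ¬ (P y ∧ y ∈ U) → f y = 0)
    (κ1 : κ ≤ 1 / 4) (g1 : g ≤ ξ / 5000) (ρ0 : 0 < ρ) (η0 : 0 < η) (ε1 : ε ≤ 1 / 1000)
    (big : 1000 ≤ ξ * n) (hm : m = ⌊ξ * n⌋₊) (d : ℝ) (hd : |d - ∑ y, f y| ≤ η / 2 * n) :
    49 / 50 * ρ * (1 - κ) * m - η * n ≤ d ∧ d ≤ 51 / 50 * ρ * (1 - κ) * m + η * n := by
  obtain ⟨c1, c2⟩ := count U P0 P m _ _ _ hsub hU h1 h2 h3
  obtain ⟨s1, s2⟩ := sums U P f (99 / 100 * ρ) (101 / 100 * ρ) (fun y hy hyU => by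
    rw [hf y hy hyU]
    constructor
    · nlinarith [(hr y).1]
    · nlinarith [(hr y).2]) hf0
  have hn : (0 : ℝ) ≤ n := Nat.cast_nonneg n
  have hfl : ξ * n < (m : ℝ) + 1 := by
    rw [hm]
    exact Nat.lt_floor_add_one _
  refine numb κ ε g ξ ρ η _ _ d n m κ1 ?_ ρ0 (mul_nonneg η0.le hn) ε1 hfl.le (by linarith)
    c1 c2 s1 s2 hd
  have := mul_le_mul_of_nonneg_right g1 hn
  linarith

private lemma inner {Y : Type} [Fintype Y] (f : Y → ℝ) (ξ ρ η : ℝ) (n : ℕ)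
    (hn : Fintype.card Y = n) (hf : ∀ y, f y ≤ 101 / 100 * ρ) (ξ0 : 0 < ξ) (ξ1 : ξ ≤ 1 / 1000)
    (ρ0 : 0 < ρ) (ρ1 : ρ ≤ 1 / 4) (η1 : η ≤ ρ ^ 2 * ξ / 100) (d : ℝ)
    (hd : |d - ∑ y, f y| ≤ η / 2 * n) : d ≤ 3 / 2 * ρ * n := by
  have h1 : ∑ y, f y ≤ n * (101 / 100 * ρ) := by
    have := Finset.sum_le_card_nsmul univ f (101 / 100 * ρ) (fun y _ => hf y)
    rw [nsmul_eq_mul, Finset.card_univ, hn] at this
    exact this
  have h2 : η ≤ ρ / 100 := by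
    have : ρ * (ρ * ξ) ≤ ρ * 1 := mul_le_mul_of_nonneg_left (by nlinarith) ρ0.le
    have e : ρ ^ 2 * ξ = ρ * (ρ * ξ) := by ring
    rw [e] at η1
    linarith
  have hn' : (0 : ℝ) ≤ n := Nat.cast_nonneg n
  have h3 : η * n ≤ ρ / 100 * n := mul_le_mul_of_nonneg_right h2 hn'
  have h4 : 0 ≤ ρ * n := mul_nonneg ρ0.le hn'
  obtain ⟨-, d2⟩ := abs_le.mp hd
  linarith

private lemma pc_le {X Y : Type} [DecidableEq X] [DecidableEq Y] (ρ : ℝ) (E : Finset (X × Y))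
    (r : X → Y → ℝ) (x : X) (y : Y) (ρ0 : 0 < ρ) (hr : r x y ≤ 101 / 100) :
    pc ρ E r x y ≤ 101 / 100 * ρ := by
  unfold pc
  split_ifs
  · nlinarith
  · positivity

theorem hSZ : StSZq := by
  intro α β γ _ _ _ _ _ _ κ ε g ξ ρ η n m A0 A B0 B C0 C U1 W1 U2 W2 U3 W3 rA rB rC QA QB QC h
  have lv := h.lv
  obtain ⟨⟨nA1, nA2⟩, ⟨nB1, nB2⟩, nC1, nC2⟩ := lv.nearU
  refine ⟨fun a ha => ?_, fun a ha => ?_, fun a _ => ?_, fun a _ => ?_⟩
  · refine outer U2 (fun b => (a, b) ∈ A0) (fun b => (a, b) ∈ A) (fun b => rA a b)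
      (fun b => pc ρ (crs A U1 U2) rA a b) κ ε g ξ ρ η n m (fun b hb => lv.sA hb) lv.c2
      (nA1 a (mem_univ _)).1 (nA1 a (mem_univ _)).2 ?_ (fun b => h.hrA a b) ?_ ?_ h.κ1 h.g1 h.ρ0
      h.η0 h.ε1 h.big lv.hm _ (h.dev.dA a)
    · have := lv.smA.1 a
      rw [Pool.Agent.Helper38.IA.d1_eq] at this
      simpa only [mem_sdiff] using this
    · intro b hb hbU
      unfold pc crs
      rw [if_pos]
      rw [mem_filter]
      exact ⟨hb, fun h' => ha (h'.mpr hbU)⟩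
    · intro b hb
      unfold pc crs
      rw [if_neg]
      rw [mem_filter]
      rintro ⟨h1, h2⟩
      exact hb ⟨h1, by
        by_contra h3
        exact h2 ⟨fun h4 => absurd h4 ha, fun h4 => absurd h4 h3⟩⟩
  · refine outer U3 (fun c => (c, a) ∈ C0) (fun c => (c, a) ∈ C) (fun c => rC c a)
      (fun c => pc ρ (crs C U3 U1) rC c a) κ ε g ξ ρ η n m (fun c hc => lv.sC hc) lv.c3
      (nC2 a (mem_univ _)).1 (nC2 a (mem_univ _)).2 ?_ (fun c => h.hrC c a) ?_ ?_ h.κ1 h.g1 h.ρ0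
      h.η0 h.ε1 h.big lv.hm _ (h.dev.dC a)
    · have := lv.smC.2 a
      rw [Pool.Agent.Helper38.IA.d2_eq] at this
      simpa only [mem_sdiff] using this
    · intro c hc hcU
      unfold pc crs
      rw [if_pos]
      rw [mem_filter]
      exact ⟨hc, fun h' => ha (h'.mp hcU)⟩
    · intro c hc
      unfold pc crs
      rw [if_neg]
      rw [mem_filter]
      rintro ⟨h1, h2⟩
      exact hc ⟨h1, by
        by_contra h3
        exact h2 ⟨fun h4 => absurd h4 h3, fun h4 => absurd h4 ha⟩⟩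
  · exact inner (fun b => pc ρ (crs A U1 U2) rA a b) ξ ρ η n lv.nβ
      (fun b => pc_le ρ _ rA a b h.ρ0 (h.hrA a b).2) h.ξ0 h.ξ1 h.ρ0 h.ρ1 h.η1 _ (h.dev.dA a)
  · exact inner (fun c => pc ρ (crs C U3 U1) rC c a) ξ ρ η n lv.nγ
      (fun c => pc_le ρ _ rC c a h.ρ0 (h.hrC c a).2) h.ξ0 h.ξ1 h.ρ0 h.ρ1 h.η1 _ (h.dev.dC a)

end Pool.Agent.Helper49.TP.QSZ
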