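import Pool.Agent.Helper49.TP.StQ

/-!
# Project IA, module X2: crossing codegrees of inner vertices
-/

set_option autoImplicit false

namespace Pool.Agent.Helper49.TP.QX2

open Finset Pool.Agent.Helper93.IA Pool.Agent.Helper38.IA Pool.Agent.Helper49.TP

/-- The union bound: a set `S` whose complement is covered by five small sets is large. -/
private theorem cover5 {β : Type} [Fintype β] [DecidableEq β] (n m : ℕ) (κ ρ g ξ : ℝ)
    (S U N1 N2 D1 D2 : Finset β) (hn : Fintype.card β = n) (hξ0 : 0 < ξ) (hξ : ξ ≤ 1 / 1000)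
    (hg : g ≤ ξ / 5000) (hρ : ρ ≤ 1 / 4) (hκ : κ ≤ 1 / 4)
    (hm : m = ⌊ξ * n⌋₊) (hU : U.card = m)
    (h1 : (N1.card : ℝ) ≤ (κ + ρ / 10000) * n) (h2 : (N2.card : ℝ) ≤ (κ + ρ / 10000) * n)
    (h3 : (D1.card : ℝ) ≤ g * n) (h4 : (D2.card : ℝ) ≤ g * n)
    (hcov : ∀ b, b ∉ U → b ∉ N1 → b ∉ N2 → b ∉ D1 → b ∉ D2 → b ∈ S) :
    49 / 100 * (n : ℝ) ≤ S.card := by
  have hsub : (univ : Finset β) ⊆ S ∪ (U ∪ (N1 ∪ (N2 ∪ (D1 ∪ D2)))) := by
    intro b _
    simp only [mem_union]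
    by_contra hb
    push Not at hb
    obtain ⟨hS, hU', hN1, hN2, hD1, hD2⟩ := hb
    exact hS (hcov b hU' hN1 hN2 hD1 hD2)
  have hc : n ≤ S.card + (U.card + (N1.card + (N2.card + (D1.card + D2.card)))) := by
    rw [← hn, ← Finset.card_univ]
    refine (card_le_card hsub).trans ((card_union_le _ _).trans ?_)
    refine Nat.add_le_add_left ((card_union_le _ _).trans ?_) _
    refine Nat.add_le_add_left ((card_union_le _ _).trans ?_) _
    refine Nat.add_le_add_left ((card_union_le _ _).trans ?_) _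
    exact Nat.add_le_add_left (card_union_le _ _) _
  have hcr : (n : ℝ) ≤ S.card + (U.card + (N1.card + (N2.card + (D1.card + D2.card)))) := by
    exact_mod_cast hc
  have hn0 : (0 : ℝ) ≤ n := Nat.cast_nonneg n
  have hmn : (m : ℝ) ≤ ξ * n := by
    rw [hm]
    exact Nat.floor_le (mul_nonneg hξ0.le hn0)
  rw [hU] at hcr
  have e1 : ξ * n ≤ 1 / 1000 * n := mul_le_mul_of_nonneg_right hξ hn0
  have e2 : g * n ≤ 1 / 5000000 * n :=
    mul_le_mul_of_nonneg_right (by linarith) hn0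
  have e3 : (κ + ρ / 10000) * n ≤ (1 / 4 + 1 / 40000) * n :=
    mul_le_mul_of_nonneg_right (by linarith) hn0
  linarith

theorem hX2 : StX2q := by
  intro ξ g ρ hξ0 hξ _ hg _ hρ α β γ _ _ _ _ _ _ κ n m A0 A B0 B C0 C U1 W1 U2 W2 U3 W3 _ hκ _ h
  constructor
  · intro a ha a' ha'
    refine cover5 n m κ ρ g ξ _ U2 (univ.filter fun b => (a, b) ∉ A0)
      (univ.filter fun b => (a', b) ∉ A0) (univ.filter fun b => (a, b) ∈ A0 \ A)
      (univ.filter fun b => (a', b) ∈ A0 \ A) h.nβ hξ0 hξ hg hρ hκ h.hm h.c2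
      (h.near.1.1 a (mem_univ _)).2 (h.near.1.1 a' (mem_univ _)).2 ?_ ?_ ?_
    · rw [← Pool.Agent.Helper38.IA.d1_eq]
      exact h.smA.1 a
    · rw [← Pool.Agent.Helper38.IA.d1_eq]
      exact h.smA.1 a'
    · intro b hU hN1 hN2 hD1 hD2
      simp only [mem_filter, mem_univ, true_and, mem_sdiff, not_and, not_not] at hN1 hN2 hD1 hD2
      simp only [mem_filter, mem_univ, true_and, crs]
      exact ⟨⟨hD1 hN1, fun hh => hU (hh.1 ha)⟩, hD2 hN2, fun hh => hU (hh.1 ha')⟩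
  · intro a ha b hb
    refine cover5 n m κ ρ g ξ _ U3 (univ.filter fun c => (c, a) ∉ C0)
      (univ.filter fun c => (b, c) ∉ B0) (univ.filter fun c => (c, a) ∈ C0 \ C)
      (univ.filter fun c => (b, c) ∈ B0 \ B) h.nγ hξ0 hξ hg hρ hκ h.hm h.c3
      (h.near.2.2.2 a (mem_univ _)).2 (h.near.2.1.1 b (mem_univ _)).2 ?_ ?_ ?_
    · rw [← Pool.Agent.Helper38.IA.d2_eq]
      exact h.smC.2 a
    · rw [← Pool.Agent.Helper38.IA.d1_eq]
      exact h.smB.1 b
    · intro c hU hN1 hN2 hD1 hD2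
      simp only [mem_filter, mem_univ, true_and, mem_sdiff, not_and, not_not] at hN1 hN2 hD1 hD2
      simp only [mem_filter, mem_univ, true_and, crs]
      exact ⟨⟨hD1 hN1, fun hh => hU (hh.2 ha)⟩, hD2 hN2, fun hh => hU (hh.1 hb)⟩

end Pool.Agent.Helper49.TP.QX2
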