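import Pool.Agent.Helper49.TP.StQ

/-!
# Project IA, module X3 (size of the right side of the Laplace equation)
-/

set_option autoImplicit false

namespace Pool.Agent.Helper49.TP.QX3

open Finset Pool.Agent.Helper93.IA Pool.Agent.Helper38.IA Pool.Agent.Helper49.TP

section deg

variable {α β : Type} [Fintype α] [Fintype β] [DecidableEq α] [DecidableEq β]

private theorem crs1_out (A : Finset (α × β)) (U1 : Finset α) (U2 : Finset β) (a : α)
    (ha : a ∉ U1) : d1 (crs A U1 U2) a = (U2.filter fun b => (a, b) ∈ A).card := by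
  rw [Pool.Agent.Helper38.IA.d1_eq]
  congr 1
  ext b
  simp [crs, ha, and_comm]

private theorem crs2_out (A : Finset (α × β)) (U1 : Finset α) (U2 : Finset β) (b : β)
    (hb : b ∉ U2) : d2 (crs A U1 U2) b = (U1.filter fun a => (a, b) ∈ A).card := by
  rw [Pool.Agent.Helper38.IA.d2_eq]
  congr 1
  ext a
  simp [crs, hb, and_comm]

private theorem ins1_out (A : Finset (α × β)) (U1 : Finset α) (U2 : Finset β) (a : α)
    (ha : a ∉ U1) : d1 (ins A U1 U2) a = 0 := by
  rw [Pool.Agent.Helper38.IA.d1_eq, Finset.card_eq_zero]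
  ext b
  simp [ins, ha]

private theorem ins2_out (A : Finset (α × β)) (U1 : Finset α) (U2 : Finset β) (b : β)
    (hb : b ∉ U2) : d2 (ins A U1 U2) b = 0 := by
  rw [Pool.Agent.Helper38.IA.d2_eq, Finset.card_eq_zero]
  ext a
  simp [ins, hb]

private theorem ins1_in (A : Finset (α × β)) (U1 : Finset α) (U2 : Finset β) (a : α)
    (ha : a ∈ U1) : d1 (ins A U1 U2) a = (U2.filter fun b => (a, b) ∈ A).card := by
  rw [Pool.Agent.Helper38.IA.d1_eq]
  congr 1
  ext b
  simp [ins, ha, and_comm]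

private theorem ins2_in (A : Finset (α × β)) (U1 : Finset α) (U2 : Finset β) (b : β)
    (hb : b ∈ U2) : d2 (ins A U1 U2) b = (U1.filter fun a => (a, b) ∈ A).card := by
  rw [Pool.Agent.Helper38.IA.d2_eq]
  congr 1
  ext a
  simp [ins, hb, and_comm]

private theorem tot1 (A : Finset (α × β)) (U1 : Finset α) (U2 : Finset β) (a : α)
    (ha : a ∈ U1) : d1 A a = d1 (ins A U1 U2) a + d1 (crs A U1 U2) a := by
  rw [Pool.Agent.Helper38.IA.d1_eq, Pool.Agent.Helper38.IA.d1_eq, Pool.Agent.Helper38.IA.d1_eq, ← Finset.card_filter_add_card_filter_not (fun b => b ∈ U2)]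
  congr 2
  · ext b
    simp [ins, ha]
  · ext b
    simp [crs, ha]

private theorem tot2 (A : Finset (α × β)) (U1 : Finset α) (U2 : Finset β) (b : β)
    (hb : b ∈ U2) : d2 A b = d2 (ins A U1 U2) b + d2 (crs A U1 U2) b := by
  rw [Pool.Agent.Helper38.IA.d2_eq, Pool.Agent.Helper38.IA.d2_eq, Pool.Agent.Helper38.IA.d2_eq, ← Finset.card_filter_add_card_filter_not (fun a => a ∈ U1)]
  congr 2
  · ext a
    simp [ins, hb]
  · ext a
    simp [crs, hb]

private theorem nb1 (A : Finset (α × β)) (U2 : Finset β) (a : α) :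
    (U2.filter fun b => (a, b) ∈ A).card + m1 A U2 a = U2.card := by
  unfold m1
  exact Finset.card_filter_add_card_filter_not _

private theorem nb2 (A : Finset (α × β)) (U1 : Finset α) (b : β) :
    (U1.filter fun a => (a, b) ∈ A).card + m2 A U1 b = U1.card := by
  unfold m2
  exact Finset.card_filter_add_card_filter_not _

private theorem dif1 (A A0 : Finset (α × β)) (U2 : Finset β) (a : α) :
    (U2.filter fun b => (a, b) ∈ A0).card ≤
      (U2.filter fun b => (a, b) ∈ A).card + d1 (A0 \ A) a := by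
  rw [Pool.Agent.Helper38.IA.d1_eq]
  refine le_trans (Finset.card_le_card ?_) (Finset.card_union_le _ _)
  intro b hb
  rw [mem_filter] at hb
  by_cases h : (a, b) ∈ A
  · simp [hb, h]
  · simp [hb, h]

private theorem dif2 (A A0 : Finset (α × β)) (U1 : Finset α) (b : β) :
    (U1.filter fun a => (a, b) ∈ A0).card ≤
      (U1.filter fun a => (a, b) ∈ A).card + d2 (A0 \ A) b := by
  rw [Pool.Agent.Helper38.IA.d2_eq]
  refine le_trans (Finset.card_le_card ?_) (Finset.card_union_le _ _)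
  intro a ha
  rw [mem_filter] at ha
  by_cases h : (a, b) ∈ A
  · simp [ha, h]
  · simp [ha, h]

private theorem mono1 (A A0 : Finset (α × β)) (h : A ⊆ A0) (U2 : Finset β) (a : α) :
    (U2.filter fun b => (a, b) ∈ A).card ≤ (U2.filter fun b => (a, b) ∈ A0).card := by
  apply Finset.card_le_card
  intro b hb
  rw [mem_filter] at hb ⊢
  exact ⟨hb.1, h hb.2⟩

private theorem mono2 (A A0 : Finset (α × β)) (h : A ⊆ A0) (U1 : Finset α) (b : β) :
    (U1.filter fun a => (a, b) ∈ A).card ≤ (U1.filter fun a => (a, b) ∈ A0).card := by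
  apply Finset.card_le_card
  intro a ha
  rw [mem_filter] at ha ⊢
  exact ⟨ha.1, h ha.2⟩

end deg

/-- X3. -/
theorem hX3 : StX1q → StX3q := by
  intro h1 ξ g ρ hξ hξ1 hg hg1 hρ hρ1 α β γ _ _ _ _ _ _ κ n m A0 A B0 B C0 C U1 W1 U2 W2 U3 W3
    hκ hκ1 hξn hL
  obtain ⟨hm0, ho, hi⟩ := h1 ξ g ρ hξ hξ1 hg hg1 hρ hρ1 α β γ κ n m A0 A B0 B C0 C U1 W1 U2 W2
    U3 W3 hκ hκ1 hξn hL
  have hm0' : (0 : ℝ) < m := by exact_mod_cast hm0
  have hm1 : (m : ℝ) ≤ ξ * n := by
    rw [hL.hm]
    exact Nat.floor_le (by linarith)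
  have hm2 : ξ * n < m + 1 := by
    rw [hL.hm]
    exact Nat.lt_floor_add_one _
  have hn0 : (0 : ℝ) ≤ n := Nat.cast_nonneg n
  have hgn : g * n ≤ m / 4000 := by
    have h2 : g * n ≤ ξ / 5000 * n := mul_le_mul_of_nonneg_right hg1 hn0
    have h3 : (1000 : ℝ) < m + 1 := by linarith
    linarith
  have hmn : (m : ℝ) ≤ n / 1000 := by
    have h2 : ξ * n ≤ 1 / 1000 * n := mul_le_mul_of_nonneg_right hξ1 hn0
    linarith
  -- neighbours in the reference graph
  have hA : ∀ a, |((U2.filter fun b => (a, b) ∈ A0).card : ℝ) - (1 - κ) * m| ≤ ρ / 10000 * m := by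
    intro a
    have h2 := hL.nearU.1.1 a (mem_univ a)
    have h3 := nb1 A0 U2 a
    rw [hL.c2] at h3
    have h4 : ((U2.filter fun b => (a, b) ∈ A0).card : ℝ) + m1 A0 U2 a = m := by
      exact_mod_cast h3
    rw [abs_le]
    constructor <;> nlinarith [h2.1, h2.2]
  have hC : ∀ a, |((U3.filter fun c => (c, a) ∈ C0).card : ℝ) - (1 - κ) * m| ≤ ρ / 10000 * m := by
    intro a
    have h2 := hL.nearU.2.2.2 a (mem_univ a)
    have h3 := nb2 C0 U3 a
    rw [hL.c3] at h3
    have h4 : ((U3.filter fun c => (c, a) ∈ C0).card : ℝ) + m2 C0 U3 a = m := by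
      exact_mod_cast h3
    rw [abs_le]
    constructor <;> nlinarith [h2.1, h2.2]
  have hρm : ρ / 10000 * m ≤ m / 40000 := by nlinarith
  constructor
  · intro a ha
    have h2 := ho a ha
    have hAa := abs_le.1 (hA a)
    have hCa := abs_le.1 (hC a)
    unfold bv
    rw [ins1_out A U1 U2 a ha, ins2_out C U3 U1 a ha]
    rw [crs1_out A U1 U2 a ha, crs2_out C U3 U1 a ha] at h2 ⊢
    have h3 : ((U2.filter fun b => (a, b) ∈ A0).card : ℝ) ≤
        (U2.filter fun b => (a, b) ∈ A).card + d1 (A0 \ A) a := by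
      exact_mod_cast dif1 A A0 U2 a
    have h4 : ((U3.filter fun c => (c, a) ∈ C0).card : ℝ) ≤
        (U3.filter fun c => (c, a) ∈ C).card + d2 (C0 \ C) a := by
      exact_mod_cast dif2 C C0 U3 a
    have h5 : ((U2.filter fun b => (a, b) ∈ A).card : ℝ) ≤
        (U2.filter fun b => (a, b) ∈ A0).card := by
      exact_mod_cast mono1 A A0 hL.sA U2 a
    have h6 : ((U3.filter fun c => (c, a) ∈ C).card : ℝ) ≤
        (U3.filter fun c => (c, a) ∈ C0).card := by
      exact_mod_cast mono2 C C0 hL.sC U3 a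
    have h7 := hL.smA.1 a
    have h8 := hL.smC.2 a
    rw [Nat.cast_zero, sub_zero, zero_div, neg_zero, zero_sub, abs_neg, abs_le]
    constructor <;> linarith [h2.1, hAa.1, hAa.2, hCa.1, hCa.2]
  · intro a ha
    have h2 := hi a ha
    have hAa := abs_le.1 (hA a)
    have hCa := abs_le.1 (hC a)
    have h3 : (d1 (ins A U1 U2) a : ℝ) + d1 (crs A U1 U2) a =
        d2 (ins C U3 U1) a + d2 (crs C U3 U1) a := by
      have h4 := hL.bal.1 a
      rw [tot1 A U1 U2 a ha, tot2 C U3 U1 a ha] at h4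
      exact_mod_cast h4
    have h4 : (d1 (ins A U1 U2) a : ℝ) = (U2.filter fun b => (a, b) ∈ A0).card := by
      rw [hL.agA, ins1_in A0 U1 U2 a ha]
    have h5 : (d2 (ins C U3 U1) a : ℝ) = (U3.filter fun c => (c, a) ∈ C0).card := by
      rw [hL.agC, ins2_in C0 U3 U1 a ha]
    obtain ⟨I, hI⟩ : ∃ I : ℝ, I = (d1 (ins A U1 U2) a : ℝ) - d2 (ins C U3 U1) a := ⟨_, rfl⟩
    have h6 : |I| ≤ 2 * (ρ / 10000 * m) := by
      rw [hI, h4, h5, abs_le]
      constructor <;> linarith [hAa.1, hAa.2, hCa.1, hCa.2]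
    have h7 : bv ρ A C U1 U2 U3 a = I - I / ρ := by
      unfold bv
      rw [← hI]
      have h8 : (d1 (crs A U1 U2) a : ℝ) - d2 (crs C U3 U1) a = -I := by
        rw [hI]
        linarith
      rw [h8]
      ring
    rw [h7]
    have h8 : |I / ρ| ≤ 2 * (m / 10000) := by
      rw [abs_div, abs_of_pos hρ, div_le_iff₀ hρ]
      linarith
    have h9 : |I - I / ρ| ≤ |I| + |I / ρ| := abs_sub _ _
    linarith [h2.1]

end Pool.Agent.Helper49.TP.QX3
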