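import Pool.Agent.Helper49.TP.Q_L3
import Pool.Agent.Helper49.TP.Q_X1
import Pool.Agent.Helper49.TP.Q_X2
import Pool.Agent.Helper49.TP.Q_X3
import Pool.Agent.Helper49.TP.Q_X4
import Pool.Agent.Helper49.TP.Q_X5
import Pool.Agent.Helper49.TP.Q_SZ
import Pool.Agent.Helper49.TP.Q_NB
import Pool.Agent.Helper49.TP.Q_CD3
import Pool.Agent.Helper49.TP.Q_IM
import Pool.Agent.Helper49.TP.Q_RSV
import Pool.Agent.Helper49.TP.Q_NUM
import Pool.Agent.Helper49.TP.Q_STP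
import Pool.Agent.Helper49.TP.Q_MT3
import Pool.Agent.Helper30.IA38.L1
import Pool.Agent.Helper33.IA38.T0
import Pool.Agent.Helper34.IA38.T2
import Pool.Agent.Helper39.IA57.CNT
import Pool.Agent.Helper94.IA57.RN
import Pool.Agent.Helper2.IA57.DEV
import Pool.Agent.Helper33.IA57.RS2

/-! Project TP, part Q: assembly of the statements of project IA for `κ ≤ 1/4`. -/

set_option autoImplicit false

namespace Pool.Agent.Helper49.TP

open Pool.Agent.Helper93.IA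

theorem hBLXq : StBLXq :=
  QX5.hX5 Pool.Agent.Helper30.IA38.hL1 QL3.hL3 Pool.Agent.Helper33.IA38.hT0 QX1.hX1
    (QX3.hX3 QX1.hX1)
    (QX4.hX4 Pool.Agent.Helper33.IA38.hT0 Pool.Agent.Helper34.IA38.hT2 QX1.hX1 QX2.hX2)

theorem hRSVq : StRSVq := fun hB hX =>
  QRSV.hRSVA hB hX Pool.Agent.Helper39.IA57.hCNT Pool.Agent.Helper2.IA57.hDEV
    Pool.Agent.Helper94.IA57.hRN Pool.Agent.Helper33.IA57.hRS2 QSZ.hSZ QNB.hNB QCD3.hCD3
    QIM.hIM hB hX

end Pool.Agent.Helper49.TP
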