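import Pool.Agent.Helper49.TP.StM
import Pool.Agent.Helper93.IA.Cd
import Pool.Agent.Helper93.IA.Bla
import Pool.Agent.Helper9.IAC.M_ROT
import Pool.Agent.Helper29.IAC.M_UN3
import Pool.Agent.Helper22.IAC.M_NST
import Pool.Agent.Helper6.IAC.M_SMQ
import Pool.Agent.Helper97.IAC.M_OUT
import Pool.Agent.Helper78.IAC.M_MTA
import Pool.Agent.Helper30.IAC.M_CN1
import Pool.Agent.Helper94.IAC.M_CN2
import Pool.Agent.Helper51.IAC.M_NM2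
import Pool.Agent.Helper67.IAC.M_PHL
import Pool.Agent.Helper34.IAC.M_PH2
import Pool.Agent.Helper89.IAC.M_FN1
import Pool.Agent.Helper54.IA.M_PKB
import Pool.Agent.Helper14.IA.M_PKU
import Pool.Agent.Helper49.TP.QAll

/-! Project TP: the cover down step with a reference weight. -/

set_option autoImplicit false

namespace Pool.Agent.Helper49.TP

open Finset Pool.Agent.Helper93.IA
open Pool.Agent.Helper17.IA (StPKU StPKB)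

theorem cdx (hROT : StROT) (hUN3 : StUN3) (hNST : StNST) (hSMQ : StSMQ) (hOUT : StOUT)
    (hMTA : StMTA) (hCN1 : StCN1) (hCN2 : StCN2) (hNM2 : StNM2) (hNUM : StNUMq) (hSTP : StSTPq)
    (hPHL : StPHL) (hPH2 : StPH2) (hBLA : StBLA) (hFN1 : StFN1) (hMT3 : StMT3q) (hPKB : StPKB)
    (hPKU : StPKU) : StCDX := by
  intro hBRN hBLX hRSV hLEC hMAT hNSX hSMX δ c0 Λ hδ hδ1 hc0 hΛ hAPX
  obtain ⟨εF, hF0, hF1, hP⟩ := hAPX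
  -- constants
  have hL1 : 0 < 1 + 2 * Λ := by linarith
  obtain ⟨ξ, hξ0, hξ1, hξF, hξδ⟩ : ∃ ξ : ℝ, 0 < ξ ∧ ξ ≤ 1 / 1000 ∧ ξ ≤ εF / (20 * (1 + 2 * Λ)) ∧
      ξ ≤ δ :=
    ⟨min (min (1 / 1000) δ) (εF / (20 * (1 + 2 * Λ))),
      lt_min (lt_min (by norm_num) hδ) (by positivity),
      (min_le_left _ _).trans (min_le_left _ _), min_le_right _ _,
      (min_le_left _ _).trans (min_le_right _ _)⟩
  have hξL : 20 * ((1 + 2 * Λ) * ξ) ≤ εF := by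
    rw [le_div_iff₀ (by positivity)] at hξF
    linarith
  have hΛξ : 0 ≤ Λ * ξ := mul_nonneg hΛ.le hξ0.le
  obtain ⟨g, hg⟩ : ∃ g : ℝ, g = ξ / 5000 := ⟨_, rfl⟩
  have hg0 : 0 < g := by rw [hg]; linarith
  obtain ⟨ρ, hρ⟩ : ∃ ρ : ℝ, ρ = g * ξ / 8 := ⟨_, rfl⟩
  have hgξ : 0 < g * ξ := mul_pos hg0 hξ0
  have hρ0 : 0 < ρ := by rw [hρ]; linarith
  have hρ1 : ρ ≤ ξ / 100000 := by
    rw [hρ, hg]; nlinarith
  have hρ2 : ρ ≤ 1 / 4 := by linarith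
  obtain ⟨g', hg'⟩ : ∃ g' : ℝ, g' = ρ ^ 2 * ξ / 1000 := ⟨_, rfl⟩
  have hρξ : 0 < ρ ^ 2 * ξ := mul_pos (pow_pos hρ0 2) hξ0
  have hg'0 : 0 < g' := by rw [hg']; linarith
  obtain ⟨b0, n1, hb0, h1⟩ := hP g' hg'0
  obtain ⟨η, hη0, hη1, hη2⟩ : ∃ η : ℝ, 0 < η ∧ η ≤ b0 ∧ η ≤ ρ ^ 2 * ξ / 1000 :=
    ⟨min b0 (ρ ^ 2 * ξ / 1000), lt_min hb0 (by linarith), min_le_left _ _, min_le_right _ _⟩
  obtain ⟨ε1, n2, hε1, h2⟩ := hRSV hBRN hBLX ξ g ρ η hξ0 hξ1 hg0 (le_of_eq hg) hρ0 hρ2 hη0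
    (hη2.trans (by linarith))
  obtain ⟨n3, h3⟩ := hNUM hNM2 ξ ρ η g' hξ0 hξ1 hρ0 hρ1 hη0 hη2 hg'0 (le_of_eq hg')
  obtain ⟨n4, h4⟩ := hMT3 hPKB hROT hUN3 hBLA hMAT hMTA hCN1 hCN2 hNM2 hNUM hSTP ξ ρ η g' hξ0 hξ1
    hρ0 hρ1 hη0 hη2 hg'0 (le_of_eq hg')
  obtain ⟨ε, hε0, hεa, hεb⟩ : ∃ ε : ℝ, 0 < ε ∧ ε ≤ ε1 ∧ ε ≤ εF / 10 :=
    ⟨min ε1 (εF / 10), lt_min hε1 (by linarith), min_le_left _ _, min_le_right _ _⟩
  refine ⟨ξ, g, ε, max (max (max n1 n2) (max n3 n4)) 1, hξ0, hξ1, hξδ, hg0, hε0, ?_⟩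
  intro α β γ _ _ _ _ _ _ κ n m A0 A B0 B C0 C U1 W1 U2 W2 U3 W3 x0 hκ0 hκδ hn' hL hWx
  have hκ1 : κ ≤ 1 / 4 := by linarith
  have hn : max (max n1 n2) (max n3 n4) ≤ n := (le_max_left _ _).trans hn'
  have hnpos : 0 < n := lt_of_lt_of_le Nat.one_pos ((le_max_right _ _).trans hn')
  have hn1 : n1 ≤ n := le_trans (le_trans (le_max_left _ _) (le_max_left _ _)) hn
  have hn2 : n2 ≤ n := le_trans (le_trans (le_max_right _ _) (le_max_left _ _)) hn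
  have hn3 : n3 ≤ n := le_trans (le_trans (le_max_left _ _) (le_max_right _ _)) hn
  have hn4 : n4 ≤ n := le_trans (le_trans (le_max_right _ _) (le_max_right _ _)) hn
  have hnR : (0 : ℝ) ≤ n := Nat.cast_nonneg n
  have hmR : (0 : ℝ) ≤ m := Nat.cast_nonneg m
  have hmξ : (m : ℝ) ≤ ξ * n := by
    rw [hL.hm]; exact Nat.floor_le (mul_nonneg hξ0.le hnR)
  have hmn : m ≤ n := by
    have : (m : ℝ) ≤ n := hmξ.trans (by nlinarith)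
    exact_mod_cast this
  obtain ⟨QA, QB, QC, r1, r2, r3⟩ := h2 α β γ κ n m A0 A B0 B C0 C U1 W1 U2 W2 U3 W3 hκ0 hκ1 hn2
    (hL.mono hεa)
  obtain ⟨hm2, htm, -⟩ := h3 n m κ hn3 hL.hm hκ0 hκ1
  have hκ1' : κ ≤ 1 := by linarith
  have hηρ : η ≤ ρ / 4 := by
    have h5 : ρ ^ 2 * ξ ≤ ρ := by nlinarith
    linarith
  have sQA : Sm QA (2 * ρ * n) :=
    hSMQ α β γ κ ρ η n m A QA B QB C QC U1 W1 U2 W2 U3 W3 r1 r2 hκ0 hκ1' hρ0.le hηρ hmn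
  have sQB : Sm QB (2 * ρ * n) :=
    hSMQ β γ α κ ρ η n m B QB C QC A QA U2 W2 U3 W3 U1 W1 r2 r3 hκ0 hκ1' hρ0.le hηρ hmn
  have sQC : Sm QC (2 * ρ * n) :=
    hSMQ γ α β κ ρ η n m C QC A QA B QB U3 W3 U1 W1 U2 W2 r3 r1 hκ0 hκ1' hρ0.le hηρ hmn
  have hgs : g + ξ + 2 * ρ ≤ 2 * ξ := by linarith
  have hsum : ε + g + ξ + 2 * ρ ≤ εF := by linarith
  have nA := hNST α β κ ε g ξ ρ εF n m A0 A QA U1 U2 hL.sA hL.near.1 hL.smA hL.c1 hL.c2 hmξ sQA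
    hg0.le hξ0.le hρ0.le hsum
  have nB := hNST β γ κ ε g ξ ρ εF n m B0 B QB U2 U3 hL.sB hL.near.2.1 hL.smB hL.c2 hL.c3 hmξ sQB
    hg0.le hξ0.le hρ0.le hsum
  have nC := hNST γ α κ ε g ξ ρ εF n m C0 C QC U3 U1 hL.sC hL.near.2.2 hL.smC hL.c3 hL.c1 hmξ sQC
    hg0.le hξ0.le hρ0.le hsum
  have hηb : η * n ≤ b0 * n := mul_le_mul_of_nonneg_right hη1 hnR
  have hImb : Imb ((A \ ins A U1 U2) \ QA) ((B \ ins B U2 U3) \ QB) ((C \ ins C U3 U1) \ QC)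
      (b0 * n) :=
    ⟨fun a => (r1.imb a).trans hηb, fun b => (r2.imb b).trans hηb, fun c => (r3.imb c).trans hηb⟩
  obtain ⟨x', hx'⟩ := hNSX α β γ c0 Λ ε (2 * ξ) n A0 ((A \ ins A U1 U2) \ QA) B0
    ((B \ ins B U2 U3) \ QB) C0 ((C \ ins C U3 U1) \ QC) x0 hnpos hΛ.le hWx
    ((sdiff_subset.trans sdiff_subset).trans hL.sA) ((sdiff_subset.trans sdiff_subset).trans hL.sB)
    ((sdiff_subset.trans sdiff_subset).trans hL.sC)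
    (hSMX α β g ξ ρ (2 * ξ) n m A0 A QA U1 U2 hL.sA hL.smA hL.c1 hL.c2 hmξ sQA hgs)
    (hSMX β γ g ξ ρ (2 * ξ) n m B0 B QB U2 U3 hL.sB hL.smB hL.c2 hL.c3 hmξ sQB hgs)
    (hSMX γ α g ξ ρ (2 * ξ) n m C0 C QC U3 U1 hL.sC hL.smC hL.c3 hL.c1 hmξ sQC hgs)
  have hxF : ε + 2 * Λ * (2 * ξ) ≤ εF := by nlinarith
  have hWx' : Wx c0 Λ εF n ((A \ ins A U1 U2) \ QA) ((B \ ins B U2 U3) \ QB)
      ((C \ ins C U3 U1) \ QC) x' :=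
    ⟨hx'.nn, hx'.up, hx'.tr, hx'.lo, fun a b h => (hx'.eA a b h).trans hxF,
      fun b c h => (hx'.eB b c h).trans hxF, fun c a h => (hx'.eC c a h).trans hxF⟩
  obtain ⟨P1, p1, lA, lB, lC⟩ := h1 α β γ n hn1 hL.nα hL.nβ hL.nγ _ _ _ κ x' hκ0 hκδ ⟨nA, nB, nC⟩
    hImb hWx' 
  obtain ⟨P, pP, phA, phB, phC⟩ := hPH2 hLEC hOUT hROT hUN3 hPKU hPHL α β γ (g' * n) A QA B QB C QC
    U1 U2 U3 P1 r1.sub r2.sub r3.sub (fun a ha b hb => htm.trans (r1.cm a ha b hb))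
    (fun b hb c hc => htm.trans (r2.cm b hb c hc)) (fun c hc a ha => htm.trans (r3.cm c hc a ha))
    p1 lA lB lC
  obtain ⟨P', JA, JB, JC, pP', jA, jB, jC, kA, kB, kC, iA, iB, iC⟩ := h4 α β γ κ n m A QA _ B QB _ C
    QC _ U1 W1 U2 W2 U3 W3 P hκ0 hκ1 hn4 hL.hm hL.nα hL.nβ hL.nγ hL.cw1 hL.cw2 hL.cw3 hL.bal r1 r2
    r3 pP lA lB lC phA phB phC
  have hgm : 2 * ρ * n ≤ g * m := by
    have h6 : 2 * ρ * n = g * (ξ * n / 2) / 2 := by rw [hρ]; ring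
    have h7 : g * (ξ * n / 2) ≤ g * m := mul_le_mul_of_nonneg_left hm2 hg0.le
    have h8 : 0 ≤ g * m := mul_nonneg hg0.le hmR
    linarith
  have smA' : ∀ {X : Finset (α × β)}, Sm X (2 * ρ * n) → Sm X (g * m) := fun h =>
    ⟨fun a => (h.1 a).trans hgm, fun b => (h.2 b).trans hgm⟩
  have smB' : ∀ {X : Finset (β × γ)}, Sm X (2 * ρ * n) → Sm X (g * m) := fun h =>
    ⟨fun a => (h.1 a).trans hgm, fun b => (h.2 b).trans hgm⟩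
  have smC' : ∀ {X : Finset (γ × α)}, Sm X (2 * ρ * n) → Sm X (g * m) := fun h =>
    ⟨fun a => (h.1 a).trans hgm, fun b => (h.2 b).trans hgm⟩
  obtain ⟨fA1, fA2, fA3⟩ := hFN1 α β (g' * n) (2 * ρ * n) A QA _ (P.image eA) JA U1 W1 U2 W2 hL.w1
    hL.w2 phA jA kA
  obtain ⟨fB1, fB2, fB3⟩ := hFN1 β γ (g' * n) (2 * ρ * n) B QB _ (P.image eB) JB U2 W2 U3 W3 hL.w2
    hL.w3 phB jB kB
  obtain ⟨fC1, fC2, fC3⟩ := hFN1 γ α (g' * n) (2 * ρ * n) C QC _ (P.image eC) JC U3 W3 U1 W1 hL.w3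
    hL.w1 phC jC kC
  rw [← iA] at fA1 fA2 fA3
  rw [← iB] at fB1 fB2 fB3
  rw [← iC] at fC1 fC2 fC3
  rw [← Finset.image_union] at fA1 fA2 fA3 fB1 fB2 fB3 fC1 fC2 fC3
  exact ⟨P ∪ P', (hPKU α β γ).1 A B C P P' pP pP', fA1, fB1, fC1, fA2, fB2, fC2, smA' fA3,
    smB' fB3, smC' fC3⟩

theorem hCDX : StCDX :=
  cdx Pool.Agent.Helper9.IAC.hROT Pool.Agent.Helper29.IAC.hUN3 Pool.Agent.Helper22.IAC.hNST
    Pool.Agent.Helper6.IAC.hSMQ Pool.Agent.Helper97.IAC.hOUT Pool.Agent.Helper78.IAC.hMTA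
    Pool.Agent.Helper30.IAC.hCN1 Pool.Agent.Helper94.IAC.hCN2 Pool.Agent.Helper51.IAC.hNM2
    QNUM.hNUM QSTP.hSTP Pool.Agent.Helper67.IAC.hPHL
    Pool.Agent.Helper34.IAC.hPH2 hBLA' Pool.Agent.Helper89.IAC.hFN1 QMT3.hMT3
    Pool.Agent.Helper54.IA.hPKB Pool.Agent.Helper14.IA.hPKU

end Pool.Agent.Helper49.TP
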