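import Pool.Agent.Helper49.TP.StG

/-! Project TP: the fractional theorem for functions transitive on two classes, rotations, and the final
assembly. -/

set_option autoImplicit false

namespace Pool.Agent.Helper49.TP

open Finset Pool.Agent.Helper93.IA
open Pool.Agent.Helper92.Proto (IsProtoplex Completable)

theorem frac2 (hFMA : StFMA) (hFMD : StFMD) (hFFK : StFFK) (hFAV : StFAV) (hFUN : StFUN)
    (hFSD : StFSD) (hFLO : StFLO) (hFHI : StFHI) (hFC2 : StFC2) : FRAC2 := by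
  intro n F Λ ν K FA FB FC hn hΛ hν hν1 hK hF h1 h2 h3 l1 l2 l3 hT
  obtain ⟨t, x, t0, t1, hx, hmax⟩ := hFMA n Λ FA FB FC hΛ
  rcases t1.lt_or_eq with ht | ht
  · exfalso
    obtain ⟨x', hx', hinv⟩ := (hFAV n Λ t FA FB FC).1 x hx
    obtain ⟨α, β, γ, hs, hd⟩ := hFFK n Λ FA FB FC x' (by linarith) hx'.1
      (fun y y1 y2 y3 y4 y5 => hFMD n Λ t FA FB FC x' y (by linarith) t0 ht hx' hmax y1 y2 y3 y4 y5)
    obtain ⟨α', β', γ', hs', hd', hinv'⟩ := (hFAV n Λ t FA FB FC).2 x' α β γ hinv hs hd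
    exact hFC2 hFUN hFSD hFLO hFHI n F Λ t ν K FA FB FC x' α' β' γ' hn hΛ hν hν1 hK hF h1 h2 h3
      l1 l2 l3 hT t0 ht hx' hinv hs' hd' hinv'
  · exact ⟨x, ht ▸ hx⟩

/-- Transitive on at least two of the three classes. -/
def Tw {n : ℕ} (G : P3 n → Prop) : Prop :=
  ((∀ r r', ∃ h, G h ∧ h.1 r = r') ∧ ∀ c c', ∃ h, G h ∧ h.2.1 c = c') ∨
  ((∀ c c', ∃ h, G h ∧ h.2.1 c = c') ∧ ∀ s s', ∃ h, G h ∧ h.2.2 s = s') ∨
  ((∀ s s', ∃ h, G h ∧ h.2.2 s = s') ∧ ∀ r r', ∃ h, G h ∧ h.1 r = r')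

/-- The conclusion of FG2 for groups which are transitive on two classes. -/
theorem fg3 (hFG : StFG2) (hFR : FRAC2) (hFT : StFT2) (δ : ℝ) (n k : ℕ)
    (A B C : Finset (Fin n × Fin n)) (hδ : 0 < δ) (hδ1 : δ ≤ 1 / 8) (hn : 0 < n)
    (hk : (k : ℝ) ≤ (1 / 4 - 2 * δ) * n)
    (hreg : ∀ i, m1 A univ i = k ∧ m2 A univ i = k ∧ m1 B univ i = k ∧ m2 B univ i = k ∧
      m1 C univ i = k ∧ m2 C univ i = k) (hT : Tw (AuG A B C)) :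
    ∃ X : Fin n → Fin n → Fin n → ℝ, Wf (δ / 4) (10 / δ ^ 3 + 1) A B C X ∧
      (∀ a b, (a, b) ∈ A → ∑ c, X a b c = n) ∧ (∀ b c, (b, c) ∈ B → ∑ a, X a b c = n) ∧
      ∀ c a, (c, a) ∈ C → ∑ b, X a b c = n := by
  rcases hT with hT | hT | hT
  · exact hFG hFR hFT δ n k A B C hδ hδ1 hn hk hreg hT
  · obtain ⟨X, ⟨w1, w2, w3⟩, e1, e2, e3⟩ := hFG hFR hFT δ n k B C A hδ hδ1 hn hk
      (fun i => ⟨(hreg i).2.2.1, (hreg i).2.2.2.1, (hreg i).2.2.2.2.1, (hreg i).2.2.2.2.2,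
        (hreg i).1, (hreg i).2.1⟩)
      ⟨fun c c' => by
        obtain ⟨h, h1, h2⟩ := hT.1 c c'
        exact ⟨(h.2.1, h.2.2, h.1), ⟨h1.2.1, h1.2.2, h1.1⟩, h2⟩, fun s s' => by
        obtain ⟨h, h1, h2⟩ := hT.2 s s'
        exact ⟨(h.2.1, h.2.2, h.1), ⟨h1.2.1, h1.2.2, h1.1⟩, h2⟩⟩
    refine ⟨fun a b c => X b c a, ⟨fun a b c => w1 b c a, ?_, ?_⟩, ?_, ?_, ?_⟩
    · intro a b c h
      obtain ⟨h1, h2, h3⟩ := w2 b c a h
      exact ⟨h3, h1, h2⟩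
    · intro a b c h
      exact w3 b c a ⟨h.2.1, h.2.2, h.1⟩
    · intro a b h
      exact e3 a b h
    · intro b c h
      exact e1 b c h
    · intro c a h
      exact e2 c a h
  · obtain ⟨X, ⟨w1, w2, w3⟩, e1, e2, e3⟩ := hFG hFR hFT δ n k C A B hδ hδ1 hn hk
      (fun i => ⟨(hreg i).2.2.2.2.1, (hreg i).2.2.2.2.2, (hreg i).1, (hreg i).2.1,
        (hreg i).2.2.1, (hreg i).2.2.2.1⟩)
      ⟨fun s s' => by
        obtain ⟨h, h1, h2⟩ := hT.1 s s'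
        exact ⟨(h.2.2, h.1, h.2.1), ⟨h1.2.2, h1.1, h1.2.1⟩, h2⟩, fun r r' => by
        obtain ⟨h, h1, h2⟩ := hT.2 r r'
        exact ⟨(h.2.2, h.1, h.2.1), ⟨h1.2.2, h1.1, h1.2.1⟩, h2⟩⟩
    refine ⟨fun a b c => X c a b, ⟨fun a b c => w1 c a b, ?_, ?_⟩, ?_, ?_, ?_⟩
    · intro a b c h
      obtain ⟨h1, h2, h3⟩ := w2 c a b h
      exact ⟨h2, h3, h1⟩
    · intro a b c h
      exact w3 c a b ⟨h.2.2, h.1, h.2.1⟩
    · intro a b h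
      exact e2 a b h
    · intro b c h
      exact e3 b c h
    · intro c a h
      exact e1 c a h

theorem final2 (hFG : StFG2) (hFT : StFT2) (hFTP : StFTP) (hFR : FRAC2) (hM : MAIX) :
    ∀ ε : ℝ, 0 < ε → ∃ n0 : ℕ, ∀ n k : ℕ, n0 ≤ n → (k : ℝ) ≤ (1 / 4 - ε) * n →
      ∀ P : Fin n → Fin n → Option (Fin n), IsProtoplex n k P → Tw (AuP P) → Completable P := by
  intro ε hε
  obtain ⟨δ, hδ0, hδ1, hδ2⟩ : ∃ δ : ℝ, 0 < δ ∧ δ ≤ 1 / 8 ∧ 2 * δ ≤ ε :=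
    ⟨min (1 / 8) (ε / 2), lt_min (by norm_num) (by linarith), min_le_left _ _, by
      have := min_le_right (1 / 8 : ℝ) (ε / 2)
      linarith⟩
  obtain ⟨n0, h0⟩ := hM δ (δ / 4) (10 / δ ^ 3 + 1) hδ0 hδ1 (by positivity)
    (by have : 0 < 10 / δ ^ 3 := by positivity
        linarith)
  refine ⟨max n0 1, ?_⟩
  intro n k hn hk P hP hT
  have hn0 : n0 ≤ n := (le_max_left _ _).trans hn
  have hn1 : 0 < n := lt_of_lt_of_le Nat.one_pos ((le_max_right _ _).trans hn)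
  have hnR : (0 : ℝ) ≤ n := Nat.cast_nonneg n
  have hk' : (k : ℝ) ≤ (1 / 4 - 2 * δ) * n :=
    hk.trans (mul_le_mul_of_nonneg_right (by linarith) hnR)
  have t1 : (∀ r r', ∃ h, AuP P h ∧ h.1 r = r') →
      ∀ r r', ∃ h, AuG (pA P) (pB P) (pC P) h ∧ h.1 r = r' := fun H r r' => by
    obtain ⟨h, h1, h2⟩ := H r r'
    exact ⟨h, hFTP n P h h1, h2⟩
  have t2 : (∀ c c', ∃ h, AuP P h ∧ h.2.1 c = c') →
      ∀ c c', ∃ h, AuG (pA P) (pB P) (pC P) h ∧ h.2.1 c = c' := fun H c c' => by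
    obtain ⟨h, h1, h2⟩ := H c c'
    exact ⟨h, hFTP n P h h1, h2⟩
  have t3 : (∀ s s', ∃ h, AuP P h ∧ h.2.2 s = s') →
      ∀ s s', ∃ h, AuG (pA P) (pB P) (pC P) h ∧ h.2.2 s = s' := fun H s s' => by
    obtain ⟨h, h1, h2⟩ := H s s'
    exact ⟨h, hFTP n P h h1, h2⟩
  have hTG : Tw (AuG (pA P) (pB P) (pC P)) := by
    rcases hT with hT | hT | hT
    · exact Or.inl ⟨t1 hT.1, t2 hT.2⟩
    · exact Or.inr (Or.inl ⟨t2 hT.1, t3 hT.2⟩)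
    · exact Or.inr (Or.inr ⟨t3 hT.1, t1 hT.2⟩)
  obtain ⟨X, hW, hA, hB, hC⟩ := fg3 hFG hFR hFT δ n k (pA P) (pB P) (pC P) hδ0 hδ1 hn1 hk'
    (degs P hP) hTG
  exact completable_of_dec P hP (h0 n k hn0 hk' (pA P) (pB P) (pC P) X (degs P hP) hW hA hB hC)

end Pool.Agent.Helper49.TP
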