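import Pool.Agent.Helper49.TP.Sym
import Pool.Agent.Helper49.TP.Fr2

/-! Project TP: the final theorem from its parts. -/

set_option autoImplicit false

namespace Pool.Agent.Helper49.TP

open Pool.Agent.Helper92.Proto (IsProtoplex Completable)

theorem fin (hF : ∀ ε : ℝ, 0 < ε → ∃ n0 : ℕ, ∀ n k : ℕ, n0 ≤ n → (k : ℝ) ≤ (1 / 4 - ε) * n →
      ∀ P : Fin n → Fin n → Option (Fin n), IsProtoplex n k P → Tw (AuP P) → Completable P)
    (hSHA : StSHA) (hSHB : StSHB) :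
    (∀ ε : ℝ, 0 < ε → ∃ n0 : ℕ, ∀ n k : ℕ, n0 ≤ n → (k : ℝ) ≤ (1 / 4 - ε) * n →
      ∀ P : Fin n → Fin n → Option (Fin n), IsProtoplex n k P →
        ((RowTransitive P ∧ ColTransitive P) ∨ (ColTransitive P ∧ SymTransitive P) ∨
          (SymTransitive P ∧ RowTransitive P)) → Completable P) ∧
    ∀ N k : ℕ, Odd N → N < 2 * k → k ≤ N →
      ∃ P : Fin (2 * N) → Fin (2 * N) → Option (Fin (2 * N)), IsProtoplex (2 * N) k P ∧
        RowTransitive P ∧ ColTransitive P ∧ SymTransitive P ∧ ¬ Completable P := by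
  refine ⟨fun ε hε => ?_, fun N k hN hk hkN => ?_⟩
  · obtain ⟨n0, h0⟩ := hF ε hε
    refine ⟨n0, fun n k hn hk P hP hT => h0 n k hn hk P hP ?_⟩
    have t1 : RowTransitive P → ∀ r r', ∃ h, AuP P h ∧ h.1 r = r' := fun H r r' => by
      obtain ⟨ρ, κ, σ, h1, h2⟩ := H r r'
      exact ⟨(ρ, κ, σ), h1, h2⟩
    have t2 : ColTransitive P → ∀ c c', ∃ h, AuP P h ∧ h.2.1 c = c' := fun H c c' => by
      obtain ⟨ρ, κ, σ, h1, h2⟩ := H c c'
      exact ⟨(ρ, κ, σ), h1, h2⟩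
    have t3 : SymTransitive P → ∀ s s', ∃ h, AuP P h ∧ h.2.2 s = s' := fun H s s' => by
      obtain ⟨ρ, κ, σ, h1, h2⟩ := H s s'
      exact ⟨(ρ, κ, σ), h1, h2⟩
    rcases hT with hT | hT | hT
    · exact Or.inl ⟨t1 hT.1, t2 hT.2⟩
    · exact Or.inr (Or.inl ⟨t2 hT.1, t3 hT.2⟩)
    · exact Or.inr (Or.inr ⟨t3 hT.1, t1 hT.2⟩)
  · obtain ⟨P, ρ, hP, hρ, hc, r1, r2, r3⟩ := hSHB N k hN hkN
    refine ⟨P, hP, r1, r2, r3, ?_⟩
    have hN0 : 0 < N := hN.pos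
    exact hSHA (2 * N) k P ρ ρ ρ hP (by omega) (by omega) hρ hρ hρ
      (fun r c s h => hc r c s h)

end Pool.Agent.Helper49.TP
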