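import Pool.Agent.Helper49.TP.StF

/-! Project TP: the fractional theorem for transitive functions, and the final assembly. -/

set_option autoImplicit false

namespace Pool.Agent.Helper49.TP

open Finset Pool.Agent.Helper93.IA
open Pool.Agent.Helper92.Proto (IsProtoplex Completable)

theorem frac3 (hFMA : StFMA) (hFMD : StFMD) (hFFK : StFFK) (hFAV : StFAV) (hFBR : StFBR)
    (hFON : StFON) (hFCT : StFCT) : FRAC3 := by
  intro n F Λ FA FB FC hn hΛ hF h1 h2 h3 l1 l2 l3 hT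
  obtain ⟨t, x, t0, t1, hx, hmax⟩ := hFMA n Λ FA FB FC hΛ
  rcases t1.lt_or_eq with ht | ht
  · exfalso
    obtain ⟨x', hx', hinv⟩ := (hFAV n Λ t FA FB FC).1 x hx
    obtain ⟨α, β, γ, hs, hd⟩ := hFFK n Λ FA FB FC x' (by linarith) hx'.1
      (fun y y1 y2 y3 y4 y5 => hFMD n Λ t FA FB FC x' y (by linarith) t0 ht hx' hmax y1 y2 y3 y4 y5)
    obtain ⟨α', β', γ', hs', hd', hinv'⟩ := (hFAV n Λ t FA FB FC).2 x' α β γ hinv hs hd
    exact hFCT hFBR hFON n F Λ t FA FB FC x' α' β' γ' hn hΛ hF h1 h2 h3 l1 l2 l3 hT t0 ht hx' hs'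
      hd' hinv'
  · exact ⟨x, ht ▸ hx⟩

theorem final (hFTG : StFTG) (hFTC : StFTC) (hFTP : StFTP) (hFR : FRAC3) (hM : MAIX) :
    ∀ ε : ℝ, 0 < ε → ∃ n0 : ℕ, ∀ n k : ℕ, n0 ≤ n → (k : ℝ) ≤ (1 / 4 - ε) * n →
      ∀ P : Fin n → Fin n → Option (Fin n), IsProtoplex n k P → Tr3 (AuP P) → Completable P := by
  intro ε hε
  obtain ⟨δ, hδ0, hδ1, hδ2⟩ : ∃ δ : ℝ, 0 < δ ∧ δ ≤ 1 / 8 ∧ 2 * δ ≤ ε :=
    ⟨min (1 / 8) (ε / 2), lt_min (by norm_num) (by linarith), min_le_left _ _, by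
      have := min_le_right (1 / 8 : ℝ) (ε / 2)
      linarith⟩
  obtain ⟨n0, h0⟩ := hM δ (3 / 4 * δ) (1 / δ + 1) hδ0 hδ1 (by positivity)
    (by have : 0 < 1 / δ := by positivity
        linarith)
  refine ⟨max n0 1, ?_⟩
  intro n k hn hk P hP hT
  have hn0 : n0 ≤ n := (le_max_left _ _).trans hn
  have hn1 : 0 < n := lt_of_lt_of_le Nat.one_pos ((le_max_right _ _).trans hn)
  have hnR : (0 : ℝ) ≤ n := Nat.cast_nonneg n
  have hk' : (k : ℝ) ≤ (1 / 4 - 2 * δ) * n :=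
    hk.trans (mul_le_mul_of_nonneg_right (by linarith) hnR)
  have hTG : Tr3 (AuG (pA P) (pB P) (pC P)) := by
    refine ⟨fun r r' => ?_, fun c c' => ?_, fun s s' => ?_⟩
    · obtain ⟨h, h1, h2⟩ := hT.1 r r'
      exact ⟨h, hFTP n P h h1, h2⟩
    · obtain ⟨h, h1, h2⟩ := hT.2.1 c c'
      exact ⟨h, hFTP n P h h1, h2⟩
    · obtain ⟨h, h1, h2⟩ := hT.2.2 s s'
      exact ⟨h, hFTP n P h h1, h2⟩
  obtain ⟨X, hW, hA, hB, hC⟩ := hFTG hFR hFTC δ n k (pA P) (pB P) (pC P) hδ0 hδ1 hn1 hk'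
    (degs P hP) hTG
  exact completable_of_dec P hP (h0 n k hn0 hk' (pA P) (pB P) (pC P) X (degs P hP) hW hA hB hC)

end Pool.Agent.Helper49.TP
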