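import Pool.Agent.Helper49.TP.StW
import Pool.Agent.Helper93.IA.Pro
import Pool.Agent.Helper88.CC.Farkas

/-!
# Project TP (MP_953b28_co), part F: fractional decompositions of transitive graphs

Three functions `FA r c`, `FB c s`, `FC s r` on `[n]^2` with all line sums `n` and values in `[0, F]`, invariant under
a group which is transitive on rows, on columns and on symbols. If `F + F^2/Λ ≤ 4/3` there is
`0 ≤ x ≤ Λ` on `[n]^3` with `∑_s x r c s = n FA r c`, `∑_r x r c s = n FB c s`, `∑_c x r c s = n FC s r`.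
-/

set_option autoImplicit false

namespace Pool.Agent.Helper49.TP

open Finset Pool.Agent.Helper93.IA

section

variable {n : ℕ}

/-- A triple of permutations (of rows, columns, symbols). -/
abbrev P3 (n : ℕ) : Type := Equiv.Perm (Fin n) × Equiv.Perm (Fin n) × Equiv.Perm (Fin n)

/-- `x` is between `0` and `Λ` and solves the problem for `1 + t (F - 1)`. -/
def Sol (Λ t : ℝ) (FA FB FC : Fin n → Fin n → ℝ) (x : Fin n → Fin n → Fin n → ℝ) : Prop :=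
  (∀ r c s, 0 ≤ x r c s ∧ x r c s ≤ Λ) ∧
  (∀ r c, ∑ s, x r c s = n * (1 + t * (FA r c - 1))) ∧
  (∀ c s, ∑ r, x r c s = n * (1 + t * (FB c s - 1))) ∧
  ∀ s r, ∑ c, x r c s = n * (1 + t * (FC s r - 1))

/-- Line sums `n`. -/
def Ls (F : Fin n → Fin n → ℝ) : Prop := (∀ i, ∑ j, F i j = n) ∧ ∀ j, ∑ i, F i j = n

/-- `h` preserves the three functions of two variables. -/
def Pr2 (FA FB FC : Fin n → Fin n → ℝ) (h : P3 n) : Prop :=
  (∀ r c, FA (h.1 r) (h.2.1 c) = FA r c) ∧ (∀ c s, FB (h.2.1 c) (h.2.2 s) = FB c s) ∧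
  ∀ s r, FC (h.2.2 s) (h.1 r) = FC s r

/-- `h` preserves the function of three variables. -/
def Pr3 (x : Fin n → Fin n → Fin n → ℝ) (h : P3 n) : Prop :=
  ∀ r c s, x (h.1 r) (h.2.1 c) (h.2.2 s) = x r c s

/-- The set of triples of permutations is transitive on the three classes. -/
def Tr3 (G : P3 n → Prop) : Prop :=
  (∀ r r', ∃ h, G h ∧ h.1 r = r') ∧ (∀ c c', ∃ h, G h ∧ h.2.1 c = c') ∧
  ∀ s s', ∃ h, G h ∧ h.2.2 s = s'

/-- The sign conditions (complementary slackness) of `w = α + β + γ` with respect to `x`. -/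
def Sgn (Λ : ℝ) (x : Fin n → Fin n → Fin n → ℝ) (α β γ : Fin n → Fin n → ℝ) : Prop :=
  ∀ r c s, (x r c s < Λ → 0 ≤ α r c + β c s + γ s r) ∧ (0 < x r c s → α r c + β c s + γ s r ≤ 0)

/-- The derivative of the problem in the direction `F - 1`. -/
noncomputable def Dv (FA FB FC α β γ : Fin n → Fin n → ℝ) : ℝ :=
  ∑ r, ∑ c, (FA r c - 1) * α r c + ∑ c, ∑ s, (FB c s - 1) * β c s +
    ∑ s, ∑ r, (FC s r - 1) * γ s r

end

/-- FMA (a largest `t`; 80 lines). PROOF. The set of the `(t, x)` with `0 ≤ t ≤ 1` and `Sol Λ t FA FB FC x` is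
compact (closed and bounded in `ℝ × (Fin n → Fin n → Fin n → ℝ)`; it is the intersection of
`Set.Icc 0 1 ×ˢ Set.pi univ (..)` with closed sets given by equations) and nonempty (`t = 0`, `x = 1`, as
`1 ≤ Λ`). `IsCompact.exists_isMaxOn` for `Prod.fst`. -/
def StFMA : Prop :=
  ∀ (n : ℕ) (Λ : ℝ) (FA FB FC : Fin n → Fin n → ℝ), 1 ≤ Λ →
    ∃ (t : ℝ) (x : Fin n → Fin n → Fin n → ℝ), 0 ≤ t ∧ t ≤ 1 ∧ Sol Λ t FA FB FC x ∧
      ∀ (t' : ℝ) (x' : Fin n → Fin n → Fin n → ℝ), t' ≤ 1 → Sol Λ t' FA FB FC x' → 0 ≤ t' →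
        t' ≤ t

/-- FMD (no direction at a maximum; 80 lines). PROOF. Suppose `y` is such a direction. For every `(r,c,s)` there is
`e > 0` with `0 ≤ x + e' y ≤ Λ` for all `0 ≤ e' ≤ e` (if `x = 0` then `y ≥ 0`; if `x = Λ` then `y ≤ 0`; `0 < Λ`).
Take the minimum of these finitely many numbers and of `1 - t` (`Finset.exists_min_image`, or induction).
Then `Sol Λ (t + e) FA FB FC (x + e y)`, contradiction to the maximality. -/
def StFMD : Prop :=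
  ∀ (n : ℕ) (Λ t : ℝ) (FA FB FC : Fin n → Fin n → ℝ) (x y : Fin n → Fin n → Fin n → ℝ), 0 < Λ →
    0 ≤ t → t < 1 → Sol Λ t FA FB FC x →
    (∀ (t' : ℝ) (x' : Fin n → Fin n → Fin n → ℝ), t' ≤ 1 → Sol Λ t' FA FB FC x' → 0 ≤ t' →
      t' ≤ t) →
    (∀ r c s, x r c s = 0 → 0 ≤ y r c s) → (∀ r c s, x r c s = Λ → y r c s ≤ 0) →
    (∀ r c, ∑ s, y r c s = n * (FA r c - 1)) → (∀ c s, ∑ r, y r c s = n * (FB c s - 1)) →
    (∀ s r, ∑ c, y r c s = n * (FC s r - 1)) → False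

/-- FFK (Farkas; 120 lines). Here `x` is any function with values in `[0, Λ]`. PROOF. By contradiction: suppose all
`(α, β, γ)` with `Sgn` have `Dv ≥ 0`. `Pool.Agent.Helper88.CC.farkas` with `E` = the space
`(Fin n → Fin n → ℝ) × (Fin n → Fin n → ℝ) × (Fin n → Fin n → ℝ)` of the triples `g = (α, β, γ)`, index type
`(Fin n × Fin n × Fin n) × Bool`, `s` = the set of the `(T, true)` with `x T < Λ` and the `(T, false)` with
`0 < x T`, `a (T, true) g = α r c + β c s + γ s r`, `a (T, false) g = -(α r c + β c s + γ s r)`, `b g = n * Dv`. It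
gives weights `w ≥ 0` with `b = ∑ w • a`. Put `y T = (if x T < Λ then w (T, true) else 0) -
(if 0 < x T then w (T, false) else 0)`. Evaluate `b = ∑ w • a` at the `g` with `α = ` the indicator of one pair
`(r,c)` and `β = γ = 0`: `∑ s, y r c s = n (FA r c - 1)`, and similarly for `β`, `γ`. If `x T = 0` then `y T ≥ 0`,
if `x T = Λ` then `y T ≤ 0`: excluded by hypothesis. -/
def StFFK : Prop :=
  ∀ (n : ℕ) (Λ : ℝ) (FA FB FC : Fin n → Fin n → ℝ) (x : Fin n → Fin n → Fin n → ℝ), 0 < Λ →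
    (∀ r c s, 0 ≤ x r c s ∧ x r c s ≤ Λ) →
    (∀ y : Fin n → Fin n → Fin n → ℝ, (∀ r c s, x r c s = 0 → 0 ≤ y r c s) →
      (∀ r c s, x r c s = Λ → y r c s ≤ 0) → (∀ r c, ∑ s, y r c s = n * (FA r c - 1)) →
      (∀ c s, ∑ r, y r c s = n * (FB c s - 1)) → (∀ s r, ∑ c, y r c s = n * (FC s r - 1)) →
      False) →
    ∃ α β γ : Fin n → Fin n → ℝ, Sgn Λ x α β γ ∧ Dv FA FB FC α β γ < 0

/-- FAV (averaging over the group; 120 lines). `G` = the finite set of all `h : P3 n` with `Pr2 FA FB FC h`; it is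
closed under products and inverses, contains `1`. PROOF. (1) `x' r c s = (1/|G|) ∑_{h ∈ G} x (h r) (h c) (h s)`.
Bounds: clear. `∑ s, x' r c s = (1/|G|) ∑_h ∑ s, x (h r) (h c) (h s) = (1/|G|) ∑_h n (1 + t (FA (h r) (h c) - 1))`
(`Equiv.sum_comp`) `= n (1 + t (FA r c - 1))`. Invariance: for `h0 ∈ G` the map `h ↦ h * h0` (componentwise product of
permutations, `(h * h0).1 r = h.1 (h0.1 r)`) is a bijection of `G`. (2) The same for `α, β, γ`: averages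
`α' r c = (1/|G|) ∑_h α (h r) (h c)` and so on. `Sgn`: `α' r c + β' c s + γ' s r = (1/|G|) ∑_h w (h r, h c, h s)` and
`x` takes the same value at all the `(h r, h c, h s)`. `Dv` of the averages is the average of
`Dv FA FB FC (α ∘ h) (β ∘ h) (γ ∘ h) = Dv FA FB FC α β γ`, by the invariance of `FA, FB, FC`. -/
def StFAV : Prop :=
  ∀ (n : ℕ) (Λ t : ℝ) (FA FB FC : Fin n → Fin n → ℝ),
    (∀ x : Fin n → Fin n → Fin n → ℝ, Sol Λ t FA FB FC x →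
      ∃ x', Sol Λ t FA FB FC x' ∧ ∀ h, Pr2 FA FB FC h → Pr3 x' h) ∧
    ∀ (x : Fin n → Fin n → Fin n → ℝ) (α β γ : Fin n → Fin n → ℝ),
      (∀ h, Pr2 FA FB FC h → Pr3 x h) → Sgn Λ x α β γ → Dv FA FB FC α β γ < 0 →
      ∃ α' β' γ' : Fin n → Fin n → ℝ, Sgn Λ x α' β' γ' ∧ Dv FA FB FC α' β' γ' < 0 ∧
        ∀ h, Pr2 FA FB FC h → Pr2 α' β' γ' h

/-- FBR (an invariant relation is biregular; 60 lines). PROOF. For `g` with `G g`, `y ↦ g.2 y` is a bijection from the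
`y` with `(x, y) ∈ Z` to the `y'` with `(g.1 x, y') ∈ Z`; so by transitivity all `x` have the same number `d` of
partners, and all `y` the same number `d'`. Counting `Z` in two ways `n d = |Z| = n d'`, so `d = d'`, and
`d > 0` as `Z` is nonempty. -/
def StFBR : Prop :=
  ∀ (n : ℕ) (G : Equiv.Perm (Fin n) × Equiv.Perm (Fin n) → Prop) (Z : Finset (Fin n × Fin n)),
    Z.Nonempty → (∀ g, G g → ∀ x y, (x, y) ∈ Z ↔ (g.1 x, g.2 y) ∈ Z) →
    (∀ x x', ∃ g, G g ∧ g.1 x = x') → (∀ y y', ∃ g, G g ∧ g.2 y = y') →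
    ∃ d : ℕ, 0 < d ∧ (∀ x, (univ.filter fun y => (x, y) ∈ Z).card = d) ∧
      ∀ y, (univ.filter fun x => (x, y) ∈ Z).card = d

/-- FON (the one-sided inequality; 110 lines). PROOF. For `(s, r) ∈ Z`:
`∑_c (a r c * FA r c + b c s * FB c s) ≥ ∑_{c ∉ bad} (a r c + b c s) * min (FA r c) (FB c s)
≥ M ∑_{c ∉ bad} min (FA r c) (FB c s) ≥ M (∑_c (FA r c + FB c s - F) - |bad| F) ≥ M n (2 - F - F^2/Λ)`
(`min ≤ F` on `bad`; `min (FA) (FB) = FA + FB - max ≥ FA + FB - F` everywhere). Sum over `Z`, `|Z| = n d`;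
`∑_{(s,r) ∈ Z} ∑_c a r c * FA r c = d ∑_r ∑_c a r c * FA r c` and the same for `b`. Divide by `d`. -/
def StFON : Prop :=
  ∀ (n : ℕ) (F Λ M : ℝ) (FA FB a b : Fin n → Fin n → ℝ) (Z : Finset (Fin n × Fin n)) (d : ℕ)
    (bad : Fin n → Fin n → Finset (Fin n)), 0 < Λ → 0 ≤ M → 0 ≤ F →
    (∀ r c, 0 ≤ FA r c ∧ FA r c ≤ F) → (∀ c s, 0 ≤ FB c s ∧ FB c s ≤ F) →
    (∀ r, ∑ c, FA r c = n) → (∀ s, ∑ c, FB c s = n) → (∀ r c, 0 ≤ a r c) →
    (∀ c s, 0 ≤ b c s) → 0 < d → (∀ s, (univ.filter fun r => (s, r) ∈ Z).card = d) →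
    (∀ r, (univ.filter fun s => (s, r) ∈ Z).card = d) →
    (∀ s r, (s, r) ∈ Z → ((bad s r).card : ℝ) ≤ n * F / Λ) →
    (∀ s r, (s, r) ∈ Z → ∀ c, c ∉ bad s r → M ≤ a r c + b c s) →
    (n : ℝ) ^ 2 * M * (2 - F - F ^ 2 / Λ) ≤
      ∑ r, ∑ c, a r c * FA r c + ∑ c, ∑ s, b c s * FB c s

/-- FCT (the contradiction; 150 lines). PROOF. `α0, β0, γ0` = the minima (`n > 0`), `a = α - α0 ≥ 0`, `b = β - β0`,
`c = γ - γ0`, `M = -(α0 + β0 + γ0)`. (1) `∑_{r,c} n (1 + t (FA - 1)) α + ∑ n (1 + t (FB - 1)) β + ∑ n (1 + t (FC - 1)) γ =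
∑_{r,c,s} x (α + β + γ) ≤ 0`, every term is `≤ 0` (`x = 0` or `w ≤ 0`). Adding `n (1 - t) Dv < 0`:
`∑ FA α + ∑ FB β + ∑ FC γ < 0` (`n > 0`), that is `e < n^2 M` with `e = ∑ FA a + ∑ FB b + ∑ FC c ≥ 0`
(`∑ FA = n^2`). So `M > 0`. (2) `Z = {(s, r) : γ s r = γ0}` is nonempty and invariant: FBR (with the pairs
`(h.2.2, h.1)`) gives `d`. `bad s r = {c : x r c s = Λ}`: `Λ |bad| ≤ ∑_c x r c s = n (1 + t (FC s r - 1)) ≤ n F`
(`F ≥ 1` because the line sums are `n`). For `(s,r) ∈ Z`, `c ∉ bad`: `x < Λ`, so `0 ≤ α r c + β c s + γ0`, i.e.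
`M ≤ a r c + b c s`. FON: `n^2 M (2 - F - F^2/Λ) ≤ ∑ a FA + ∑ b FB`. (3) The same for the other two
pairs (FON with the functions `b, c` and `Z = {(r, c) : α r c = α0}`; with `c, a` and `Z = {(c, s) : β c s = β0}`).
Sum: `2 e ≥ 3 n^2 M (2 - F - F^2/Λ) ≥ 2 n^2 M`, contradiction to `e < n^2 M`. -/
def StFCT : Prop :=
  StFBR → StFON → ∀ (n : ℕ) (F Λ t : ℝ) (FA FB FC : Fin n → Fin n → ℝ)
    (x : Fin n → Fin n → Fin n → ℝ) (α β γ : Fin n → Fin n → ℝ), 0 < n → 1 ≤ Λ →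
    F + F ^ 2 / Λ ≤ 4 / 3 → (∀ r c, 0 ≤ FA r c ∧ FA r c ≤ F) →
    (∀ c s, 0 ≤ FB c s ∧ FB c s ≤ F) → (∀ s r, 0 ≤ FC s r ∧ FC s r ≤ F) → Ls FA → Ls FB →
    Ls FC → Tr3 (Pr2 FA FB FC) → 0 ≤ t → t < 1 → Sol Λ t FA FB FC x → Sgn Λ x α β γ →
    Dv FA FB FC α β γ < 0 → (∀ h, Pr2 FA FB FC h → Pr2 α β γ h) → False

/-- The fractional theorem for transitive functions (helper49 assembles it). -/
def FRAC3 : Prop :=
  ∀ (n : ℕ) (F Λ : ℝ) (FA FB FC : Fin n → Fin n → ℝ), 0 < n → 1 ≤ Λ →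
    F + F ^ 2 / Λ ≤ 4 / 3 → (∀ r c, 0 ≤ FA r c ∧ FA r c ≤ F) →
    (∀ c s, 0 ≤ FB c s ∧ FB c s ≤ F) → (∀ s r, 0 ≤ FC s r ∧ FC s r ≤ F) → Ls FA → Ls FB →
    Ls FC → Tr3 (Pr2 FA FB FC) → ∃ x, Sol Λ 1 FA FB FC x

/-! ## Graphs -/

/-- `h` is an automorphism of the tripartite graph. -/
def AuG {n : ℕ} (A B C : Finset (Fin n × Fin n)) (h : P3 n) : Prop :=
  (∀ r c, (h.1 r, h.2.1 c) ∈ A ↔ (r, c) ∈ A) ∧ (∀ c s, (h.2.1 c, h.2.2 s) ∈ B ↔ (c, s) ∈ B) ∧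
  ∀ s r, (h.2.2 s, h.1 r) ∈ C ↔ (s, r) ∈ C

/-- The indicator of the triangles. -/
noncomputable def ind {n : ℕ} (A B C : Finset (Fin n × Fin n)) (r c s : Fin n) : ℝ :=
  if (r, c) ∈ A ∧ (c, s) ∈ B ∧ (s, r) ∈ C then 1 else 0

/-- FTC (numbers of triangles in a transitive graph; 70 lines). PROOF. `ind` is invariant under the automorphisms; so
`∑_c ∑_s ind r c s` is the same for all `r` (`Equiv.sum_comp` twice), similarly for columns and symbols. The three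
sums over all vertices are the total number `N` of triangles, so each is `N/n = τ n^2` with `τ = N/n^3`,
`0 ≤ τ ≤ 1`. -/
def StFTC : Prop :=
  ∀ (n : ℕ) (A B C : Finset (Fin n × Fin n)), 0 < n → Tr3 (AuG A B C) →
    ∃ τ : ℝ, 0 ≤ τ ∧ τ ≤ 1 ∧ (∀ r, ∑ c, ∑ s, ind A B C r c s = τ * (n : ℝ) ^ 2) ∧
      (∀ c, ∑ r, ∑ s, ind A B C r c s = τ * (n : ℝ) ^ 2) ∧
      ∀ s, ∑ r, ∑ c, ind A B C r c s = τ * (n : ℝ) ^ 2

/-- FTG (fractional decompositions of transitive graphs, bounded from above and from below on the triangles; 200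
lines). PROOF. FTC gives `τ`. Put `F1 = 4/(3 + 4δ)`, `Λ0 = 1/δ`, `q = n/(n - k)` (`n - k ≥ (3/4 + 2δ) n > 0`, so
`1 ≤ q ≤ 4/(3 + 8δ)`), `FA r c = (q * [(r,c) ∈ A] - δ (∑_s ind r c s)/n)/(1 - δ τ)` and similarly
`FB c s` (with `∑_r ind r c s`), `FC s r` (with `∑_c ind r c s`). `0 ≤ FA`: `0 ≤ ∑_s ind ≤ n` and it is `0` if
`(r,c) ∉ A`; `δ ≤ 1 ≤ q`. `FA ≤ q/(1 - δ) ≤ F1`, as `(3 + 8δ)(1 - δ) ≥ 3 + 4δ` for `δ ≤ 1/8`. `Ls FA`:
`∑_c FA r c = (q (n - k) - δ τ n)/(1 - δ τ) = n` (`d1 A r = n - k`: `m1 A univ r = k`). Transitive: an automorphism of the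
graph satisfies `Pr2 FA FB FC`. `F1 + F1^2 δ ≤ 4/3`: `F1^2 δ = 16 δ/(3+4δ)^2 ≤ 16 δ/(3 (3 + 4δ)) = 4/3 - F1`.
FRAC3 gives `x`. Put `X r c s = ((1 - δ τ) x r c s + δ ind r c s)/q`. `∑_s X = ((1 - δ τ) n FA r c + δ ∑_s ind)/q
= n [(r,c) ∈ A]`, and so on. `X ≥ 0`; if `(r,c) ∉ A` the sum over `s` is `0`, so `X r c s = 0`; similarly for `B`,
`C`: `X ≠ 0` only on triangles. On triangles `X ≥ δ/q ≥ 3/4 δ`; `X ≤ 1/δ + δ ≤ 1/δ + 1` (`q ≥ 1`). -/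
def StFTG : Prop :=
  FRAC3 → StFTC → ∀ (δ : ℝ) (n k : ℕ) (A B C : Finset (Fin n × Fin n)), 0 < δ → δ ≤ 1 / 8 →
    0 < n → (k : ℝ) ≤ (1 / 4 - 2 * δ) * n →
    (∀ i, m1 A univ i = k ∧ m2 A univ i = k ∧ m1 B univ i = k ∧ m2 B univ i = k ∧
      m1 C univ i = k ∧ m2 C univ i = k) → Tr3 (AuG A B C) →
    ∃ X : Fin n → Fin n → Fin n → ℝ, Wf (3 / 4 * δ) (1 / δ + 1) A B C X ∧
      (∀ a b, (a, b) ∈ A → ∑ c, X a b c = n) ∧ (∀ b c, (b, c) ∈ B → ∑ a, X a b c = n) ∧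
      ∀ c a, (c, a) ∈ C → ∑ b, X a b c = n

/-- `h` is an autotopism of the array `P`. -/
def AuP {n : ℕ} (P : Fin n → Fin n → Option (Fin n)) (h : P3 n) : Prop :=
  ∀ r c s, P (h.1 r) (h.2.1 c) = some (h.2.2 s) ↔ P r c = some s

/-- FTP (autotopisms; 50 lines). `pA`, `pB`, `pC` are in `Pool.Agent.Helper93.IA.Pro` (`pA P` = empty cells, `pB P` =
column-symbol pairs not used, `pC P` = symbol-row pairs not used). PROOF. `P (h r) (h c) = none ↔ P r c = none`: if one is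
`some u`, write `u = h.2.2 s`. The other two: substitute `r' = h.1 r`, `c' = h.2.1 c` in the universal
quantifier (`h.1`, `h.2.1` are surjective). -/
def StFTP : Prop :=
  ∀ (n : ℕ) (P : Fin n → Fin n → Option (Fin n)) (h : P3 n), AuP P h → AuG (pA P) (pB P) (pC P) h

end Pool.Agent.Helper49.TP
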