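import Pool.Agent.Helper49.TP.StF

/-!
# Project TP (MP_953b28_co), part G: groups which are transitive on rows and columns only

The same theorem as in part F when the group is transitive on two of the three classes (here rows and
columns); the constant `Λ` is larger. Here `max (m s) 0` is the positive part of `m s`.
-/

set_option autoImplicit false

namespace Pool.Agent.Helper49.TP

open Finset Pool.Agent.Helper93.IA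

/-- FUN (averages over a transitive group; 30 lines). PROOF. Let `S c = ∑ g, φ (π g c)`. If `c = π k c0` then
`S c = ∑ g, φ (π (g * k) c0) = S c0` (`Equiv.mulRight`, `Equiv.sum_comp`). So `n S c0 = ∑ c, S c =
∑ g, ∑ c, φ (π g c) = |Γ| ∑ c, φ c` (`Finset.sum_comm`, `Equiv.sum_comp`). -/
def StFUN : Prop :=
  ∀ (Γ : Type) [Group Γ] [Fintype Γ] (n : ℕ) (π : Γ →* Equiv.Perm (Fin n)),
    (∀ c c', ∃ g, π g c = c') → ∀ (c0 : Fin n) (φ : Fin n → ℝ),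
    (n : ℝ) * ∑ g, φ (π g c0) = Fintype.card Γ * ∑ c, φ c

/-- FSD (side inequality; 80 lines). PROOF. Let `s` with `m s ≥ 0`, `r = ρ s`:
`A + ∑_c b c s * FB c s = ∑_c (a r c * FA r c + b c s * FB c s) ≥ ∑_{c ∉ bad s} (a r c + b c s) * min (FA r c) (FB c s)
≥ m s * ∑_{c ∉ bad s} min (FA r c) (FB c s) ≥ m s * (∑_c (FA r c + FB c s - F) - |bad s| F) ≥ m s * n (2 - F - F^2/Λ)`
(`0 ≤ min ≤ F`; `min = FA + FB - max ≥ FA + FB - F`). If `m s < 0` the left side of this is `≥ 0`. Sum over `s`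
(`Finset.sum_comm` for the last double sum). -/
def StFSD : Prop :=
  ∀ (n : ℕ) (F Λ A : ℝ) (FA FB a b : Fin n → Fin n → ℝ) (m : Fin n → ℝ) (ρ : Fin n → Fin n)
    (bad : Fin n → Finset (Fin n)), 0 < Λ → 0 ≤ F → (∀ r c, 0 ≤ FA r c ∧ FA r c ≤ F) →
    (∀ c s, 0 ≤ FB c s ∧ FB c s ≤ F) → (∀ r, ∑ c, FA r c = n) → (∀ s, ∑ c, FB c s = n) →
    (∀ r c, 0 ≤ a r c) → (∀ c s, 0 ≤ b c s) → (∀ r, ∑ c, a r c * FA r c = A) →
    (∀ s, ((bad s).card : ℝ) ≤ n * F / Λ) →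
    (∀ s c, c ∉ bad s → m s ≤ a (ρ s) c + b c s) →
    n * (2 - F - F ^ 2 / Λ) * ∑ s, max (m s) 0 ≤ n * A + ∑ c, ∑ s, b c s * FB c s

/-- FLO (third inequality, symbols with small `m`; 120 lines). PROOF. Let `B s = ∑ c, b c s * FB c s`,
`C s = ∑ r, c' s r * FC s r`. By FUN (for `π2` and `φ c = b c s * FB c s`, for `π1` and `φ r = c' s r * FC s r`):
`|Γ| (B s + C s) = n ∑_g (b (π2 g c0) s * FB (π2 g c0) s + c' s (π1 g r0) * FC s (π1 g r0))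
≥ n max (m s) 0 * ∑_{g : s ∉ bad g} min (FB ..) (FC ..) ≥ n max (m s) 0 * (∑_g (FB .. + FC .. - F) - F #{g : s ∈ bad g})
= n max (m s) 0 * (|Γ| (2 - F) - F #{g : s ∈ bad g})` (FUN: `∑_g FB (π2 g c0) s = |Γ|`, as `n > 0`). Sum over `s ∈ T`,
`max (m s) 0 ≤ L`, `∑_s #{g : s ∈ bad g} = ∑_g |bad g| ≤ |Γ| n F/Λ`. Divide by `|Γ|`. -/
def StFLO : Prop :=
  StFUN → ∀ (Γ : Type) [Group Γ] [Fintype Γ] (n : ℕ) (π1 π2 : Γ →* Equiv.Perm (Fin n))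
    (F Λ L : ℝ) (FB FC b c' : Fin n → Fin n → ℝ) (m : Fin n → ℝ) (r0 c0 : Fin n)
    (bad : Γ → Finset (Fin n)) (T : Finset (Fin n)), 0 < n → (∀ r r', ∃ g, π1 g r = r') →
    (∀ c c', ∃ g, π2 g c = c') → 0 < Λ → 0 ≤ F → 0 ≤ L → (∀ c s, 0 ≤ FB c s ∧ FB c s ≤ F) →
    (∀ s r, 0 ≤ FC s r ∧ FC s r ≤ F) → (∀ s, ∑ c, FB c s = n) → (∀ s, ∑ r, FC s r = n) →
    (∀ c s, 0 ≤ b c s) → (∀ s r, 0 ≤ c' s r) → (∀ g, ((bad g).card : ℝ) ≤ n * F / Λ) →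
    (∀ g s, s ∉ bad g → m s ≤ b (π2 g c0) s + c' s (π1 g r0)) → (∀ s ∈ T, m s ≤ L) →
    n * (2 - F) * ∑ s ∈ T, max (m s) 0 - (n : ℝ) ^ 2 * F ^ 2 * L / Λ ≤
      ∑ s ∈ T, (∑ c, b c s * FB c s + ∑ r, c' s r * FC s r)

/-- FHI (third inequality, one symbol with large `m`; 100 lines). All functions for a fixed symbol. PROOF.
`n (∑_c b c * FB c + ∑_r c' r * FC r) = ∑_{r,c} FA r c * (b c * FB c + c' r * FC r)` (line sums of `FA`)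
`≥ ∑ over the (r,c) ∉ bad with a r c ≤ ν m of FA r c * (b c + c' r) * min (FB c) (FC r)`, where `b c + c' r ≥ (1 - ν) m`.
`∑_{r,c} FA * min (FB) (FC) ≥ ∑ FA (FB + FC - F) = n^2 (2 - F)`; the part over `bad` is at most `F^2 |bad| ≤ F^2 n^2/Λ`; the
part with `a r c > ν m` is at most `F ∑ FA * a/(ν m) ≤ F E/(ν m)`. -/
def StFHI : Prop :=
  ∀ (n : ℕ) (F Λ ν E m : ℝ) (FA a : Fin n → Fin n → ℝ) (FB FC b c' : Fin n → ℝ)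
    (bad : Finset (Fin n × Fin n)), 0 < Λ → 0 ≤ F → 0 < ν → ν ≤ 1 → 0 < m →
    (∀ r c, 0 ≤ FA r c ∧ FA r c ≤ F) → (∀ c, 0 ≤ FB c ∧ FB c ≤ F) →
    (∀ r, 0 ≤ FC r ∧ FC r ≤ F) → Ls FA → ∑ c, FB c = n → ∑ r, FC r = n →
    (∀ r c, 0 ≤ a r c) → (∀ c, 0 ≤ b c) → (∀ r, 0 ≤ c' r) → ((bad.card : ℝ) ≤ n ^ 2 / Λ) →
    (∀ r c, (r, c) ∉ bad → m ≤ a r c + b c + c' r) → ∑ r, ∑ c, a r c * FA r c ≤ E →
    (1 - ν) * m * ((n : ℝ) ^ 2 * (2 - F) - F ^ 2 * n ^ 2 / Λ - F * E / (ν * m)) ≤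
      n * (∑ c, b c * FB c + ∑ r, c' r * FC r)

/-- Transitive on the rows and on the columns. -/
def Tr2 {n : ℕ} (G : P3 n → Prop) : Prop :=
  (∀ r r', ∃ h, G h ∧ h.1 r = r') ∧ ∀ c c', ∃ h, G h ∧ h.2.1 c = c'

/-- FC2 (the contradiction; 250 lines). PROOF. `α0` = the minimum of `α`, attained at `(r0, c0)`;
`bm s` = the minimum of `β c s` over `c`, attained at `c = σ s`; `cm s` = the minimum of `γ s r` over `r`, attained at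
`r = ρ s`. `a = α - α0`, `b c s = β c s - bm s`, `c' s r = γ s r - cm s` (all `≥ 0`), `m s = -(α0 + bm s + cm s)`, so
`w = a + b + c' - m s`. `EA = ∑ a FA`, `EB = ∑ b FB`, `EC = ∑ c' FC`, `E = EA + EB + EC`, `M = n ∑ m s`,
`M1 = n ∑ max (m s) 0 ≥ M`. (1) As in FCT (part F): `∑ FA α + ∑ FB β + ∑ FC γ < 0`, that is `E < M`; so `0 ≤ E < M ≤ M1`.
(2) `A = ∑_c a r c * FA r c` does not depend on `r` (invariance, transitive on rows), so `n A = EA`; FSD with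
`bad s = {c : x (ρ s) c s = Λ}` (`Λ |bad s| ≤ ∑_c x = n (1 + t (FC - 1)) ≤ n F`, `F ≥ 1`):
`(2 - F - F^2/Λ) M1 ≤ EA + EB`. (3) The same with the transposed functions `FA c r`, and `FC s r` as a function of
`(r, s)`, `a`, `c'` and `σ s` (transitive on columns): `(2 - F - F^2/Λ) M1 ≤ EA + EC`. (4) `Γ` = the subgroup of
`P3 n` of the `h` with `Pr2 FA FB FC h` (a product of groups), `π1 h = h.1`, `π2 h = h.2.1`, `T = {s : m s ≤ L}`,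
`L = K M/n^2`, `bad g = {s : x (π1 g r0) (π2 g c0) s = Λ}`; `a = 0` at `(π1 g r0, π2 g c0)` by invariance, so FLO
applies: `(2 - F) n ∑_T max (m s) 0 - K F^2 M/Λ ≤ ∑_T (B s + C s)`. (5) For `s ∉ T`: `m s > K M/n^2 > 0`, FHI with
`bad = {(r,c) : x r c s = Λ}` (`Λ |bad| ≤ ∑_{r,c} x r c s = ∑_r n (1 + t (FC s r - 1)) = n^2`) and `E = M ≥ EA`:
`F M/(ν m s) ≤ F n^2/(ν K)`, so `n (B s + C s) ≥ (1 - ν) m s n^2 (2 - F - F^2/Λ - F/(ν K)) ≥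
m s n^2 (2 - F - ν - F^2/Λ - F/(ν K))` (`2 - F ≤ 1`; the bracket may be negative, distinguish the two cases, or use
`x ≤ 1`: `(1 - ν) x ≥ x - ν`). (6) Sum of (4), (5): `EB + EC ≥ (2 - F) M1 - (K F^2/Λ + ν + F^2/Λ + F/(ν K)) M1`.
With (2), (3): `2 E ≥ 3 (2 - F) M1 - ((K + 3) F^2/Λ + ν + F/(ν K)) M1 ≥ 2 M1 ≥ 2 M`, contradiction to `E < M`. -/
def StFC2 : Prop :=
  StFUN → StFSD → StFLO → StFHI → ∀ (n : ℕ) (F Λ t ν K : ℝ) (FA FB FC : Fin n → Fin n → ℝ)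
    (x : Fin n → Fin n → Fin n → ℝ) (α β γ : Fin n → Fin n → ℝ), 0 < n → 1 ≤ Λ → 0 < ν → ν ≤ 1 →
    0 < K → (K + 3) * F ^ 2 / Λ + ν + F / (ν * K) ≤ 4 - 3 * F →
    (∀ r c, 0 ≤ FA r c ∧ FA r c ≤ F) → (∀ c s, 0 ≤ FB c s ∧ FB c s ≤ F) →
    (∀ s r, 0 ≤ FC s r ∧ FC s r ≤ F) → Ls FA → Ls FB → Ls FC → Tr2 (Pr2 FA FB FC) → 0 ≤ t →
    t < 1 → Sol Λ t FA FB FC x → (∀ h, Pr2 FA FB FC h → Pr3 x h) → Sgn Λ x α β γ →
    Dv FA FB FC α β γ < 0 → (∀ h, Pr2 FA FB FC h → Pr2 α β γ h) → False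

/-- The fractional theorem for functions which are transitive on rows and columns. -/
def FRAC2 : Prop :=
  ∀ (n : ℕ) (F Λ ν K : ℝ) (FA FB FC : Fin n → Fin n → ℝ), 0 < n → 1 ≤ Λ → 0 < ν → ν ≤ 1 →
    0 < K → (K + 3) * F ^ 2 / Λ + ν + F / (ν * K) ≤ 4 - 3 * F →
    (∀ r c, 0 ≤ FA r c ∧ FA r c ≤ F) → (∀ c s, 0 ≤ FB c s ∧ FB c s ≤ F) →
    (∀ s r, 0 ≤ FC s r ∧ FC s r ≤ F) → Ls FA → Ls FB → Ls FC → Tr2 (Pr2 FA FB FC) →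
    ∃ x, Sol Λ 1 FA FB FC x

/-- FT2 (a weight on the triangles with constant vertex sums; 120 lines). PROOF. `N s = ∑_r ∑_c ind r c s` is between
`(3/8) n^2` (there are at least `3n/4` rows `r` with `(s,r) ∈ C`; for each of them at least `n/2` columns `c` with
`(r,c) ∈ A`, `(c,s) ∈ B`) and `n^2`, and invariant: `N (h.2.2 s) = N s` (`Equiv.sum_comp`). Put
`y r c s = (3/8) δ n^2/N s * ind r c s`. On triangles it is between `(3/8) δ` and `δ`. `∑_r ∑_c y r c s = (3/8) δ n^2`.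
`y` is invariant, so `∑_c ∑_s y r c s` does not depend on `r`; the sum over all `r` is the total
`∑_s (3/8) δ n^2 = (3/8) δ n^3`; the same for columns. -/
def StFT2 : Prop :=
  ∀ (δ : ℝ) (n : ℕ) (A B C : Finset (Fin n × Fin n)), 0 < n → 0 < δ →
    (∀ i, (m1 A univ i : ℝ) ≤ n / 4 ∧ (m2 A univ i : ℝ) ≤ n / 4 ∧ (m1 B univ i : ℝ) ≤ n / 4 ∧
      (m2 B univ i : ℝ) ≤ n / 4 ∧ (m1 C univ i : ℝ) ≤ n / 4 ∧ (m2 C univ i : ℝ) ≤ n / 4) →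
    Tr2 (AuG A B C) →
    ∃ y : Fin n → Fin n → Fin n → ℝ, (∀ h, AuG A B C h → Pr3 y h) ∧
      (∀ r c s, Tri A B C r c s → 3 / 8 * δ ≤ y r c s ∧ y r c s ≤ δ) ∧
      (∀ r c s, ¬ Tri A B C r c s → y r c s = 0) ∧
      (∀ r, ∑ c, ∑ s, y r c s = 3 / 8 * δ * (n : ℝ) ^ 2) ∧
      (∀ c, ∑ r, ∑ s, y r c s = 3 / 8 * δ * (n : ℝ) ^ 2) ∧
      ∀ s, ∑ r, ∑ c, y r c s = 3 / 8 * δ * (n : ℝ) ^ 2

/-- FG2 (fractional decompositions of graphs with a group transitive on rows and columns, bounded from above and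
from below on the triangles; 250 lines). PROOF. `y` from FT2 (`k ≤ n/4`). Put `F1 = 4/(3 + 4δ)`, `ν = δ`,
`K = 2/δ^2`, `Λ0 = 10/δ^3`, `q = n/(n - k)` (`1 ≤ q ≤ 4/(3 + 8δ)`), `η = (3/8) δ`,
`FA r c = (q * [(r,c) ∈ A] - (∑_s y r c s)/n)/(1 - η)` and similarly `FB c s` (with `∑_r y`), `FC s r` (with
`∑_c y`). `0 ≤ FA`: `0 ≤ ∑_s y ≤ δ n` and it is `0` if `(r,c) ∉ A`; `δ ≤ 1 ≤ q`. `FA ≤ q/(1 - η) ≤ F1` as
`(3 + 8δ)(1 - (3/8) δ) ≥ 3 + 4δ` for `δ ≤ 1/8`. `Ls FA`: `∑_c FA r c = (q (n - k) - η n)/(1 - η) = n`. An automorphism of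
the graph satisfies `Pr2 FA FB FC` (reindex the sum). The numerical hypothesis of FRAC2: `4 - 3 F1 = 16δ/(3 + 4δ) ≥
(32/7) δ` (`3 + 4δ ≤ 7/2`), `F1 ≤ 4/3`, `F1/(ν K) = F1 δ/2 ≤ (2/3) δ`, `(K + 3) F1^2/Λ0 ≤ (2/δ^2 + 3)(16/9) δ^3/10
≤ (2.05/δ^2) (16/90) δ^3 ≤ δ` : the sum is at most `δ + δ + (2/3) δ`. FRAC2 gives `x`. Put
`X r c s = ((1 - η) x r c s + y r c s)/q`. `∑_s X = ((1 - η) n FA r c + ∑_s y)/q = n [(r,c) ∈ A]`, and so on. `X ≥ 0`; if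
`(r,c) ∉ A` the sum over `s` is `0`, so `X r c s = 0`; similarly for `B`, `C`: `X ≠ 0` only on triangles. On
triangles `X ≥ (3/8) δ/q ≥ (9/32) δ ≥ δ/4`; `X ≤ 10/δ^3 + δ ≤ 10/δ^3 + 1` (`q ≥ 1`). -/
def StFG2 : Prop :=
  FRAC2 → StFT2 → ∀ (δ : ℝ) (n k : ℕ) (A B C : Finset (Fin n × Fin n)), 0 < δ → δ ≤ 1 / 8 →
    0 < n → (k : ℝ) ≤ (1 / 4 - 2 * δ) * n →
    (∀ i, m1 A univ i = k ∧ m2 A univ i = k ∧ m1 B univ i = k ∧ m2 B univ i = k ∧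
      m1 C univ i = k ∧ m2 C univ i = k) → Tr2 (AuG A B C) →
    ∃ X : Fin n → Fin n → Fin n → ℝ, Wf (δ / 4) (10 / δ ^ 3 + 1) A B C X ∧
      (∀ a b, (a, b) ∈ A → ∑ c, X a b c = n) ∧ (∀ b c, (b, c) ∈ B → ∑ a, X a b c = n) ∧
      ∀ c a, (c, a) ∈ C → ∑ b, X a b c = n

end Pool.Agent.Helper49.TP
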