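import Pool.Agent.Helper49.TP.StQ

/-!
# Project TP (MP_953b28_co), part M: the cover down machine with a reference weight

Target of the project: for every `δ > 0`, all large `n` and all `k ≤ (1/4 - δ) n`, every `k`-protoplex of order
`n` whose autotopism group is transitive on the rows, on the columns and on the symbols is
completable.

Conventions of project IA (`Pool.Agent.Helper93.IA.St0`): classes `α, β, γ`, edge sets `A ⊆ α × β`,
`B ⊆ β × γ`, `C ⊆ γ × α`. A TRIANGLE is `(a, b, c)` with `(a,b) ∈ A`, `(b,c) ∈ B`, `(c,a) ∈ C`.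
`Mis A B C t` says that every vertex misses at most `t` vertices of each of the two other classes.
-/

set_option autoImplicit false

namespace Pool.Agent.Helper49.TP

open Finset Pool.Agent.Helper93.IA Pool.Agent.Helper38.IA
open Pool.Agent.Helper17.IA (StPKU StPKB)

section

variable {α β γ : Type}

/-- `(a, b, c)` is a triangle of `(A, B, C)`. -/
def Tri (A : Finset (α × β)) (B : Finset (β × γ)) (C : Finset (γ × α)) (a : α) (b : β) (c : γ) :
    Prop := (a, b) ∈ A ∧ (b, c) ∈ B ∧ (c, a) ∈ C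

/-- A weight on the triangles, between `c0 / n` and `Λ / n`, with edge sums `1 ± ε`. -/
structure Wx [Fintype α] [Fintype β] [Fintype γ] (c0 Λ ε : ℝ) (n : ℕ) (A : Finset (α × β))
    (B : Finset (β × γ)) (C : Finset (γ × α)) (x : α → β → γ → ℝ) : Prop where
  nn : ∀ a b c, 0 ≤ x a b c
  up : ∀ a b c, x a b c ≤ Λ / n
  tr : ∀ a b c, x a b c ≠ 0 → Tri A B C a b c
  lo : ∀ a b c, Tri A B C a b c → c0 / n ≤ x a b c
  eA : ∀ a b, (a, b) ∈ A → |∑ c, x a b c - 1| ≤ ε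
  eB : ∀ b c, (b, c) ∈ B → |∑ a, x a b c - 1| ≤ ε
  eC : ∀ c a, (c, a) ∈ C → |∑ b, x a b c - 1| ≤ ε

/-- Every vertex misses at most `t` vertices of each other class. -/
def Mis [Fintype α] [Fintype β] [Fintype γ] [DecidableEq α] [DecidableEq β] [DecidableEq γ]
    (A : Finset (α × β)) (B : Finset (β × γ)) (C : Finset (γ × α)) (t : ℝ) : Prop :=
  ((∀ a, (m1 A univ a : ℝ) ≤ t) ∧ ∀ b, (m2 A univ b : ℝ) ≤ t) ∧
  ((∀ b, (m1 B univ b : ℝ) ≤ t) ∧ ∀ c, (m2 B univ c : ℝ) ≤ t) ∧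
  (∀ c, (m1 C univ c : ℝ) ≤ t) ∧ ∀ a, (m2 C univ a : ℝ) ≤ t

end

/-! ## Duality -/

/-- DUA (duality for a box; 60 lines). `E` = edges, `T` = triangles, `M` = incidence matrix. PROOF. Let `K` be
the set of all `fun e => ∑ T, y T * M T e` with `|y T| ≤ L` for all `T`: the image of the compact convex set
`Set.pi univ (fun _ => Set.Icc (-L) L)` under a linear continuous map, so compact (closed) and convex in
`E → ℝ`. If `f ∉ K`, `geometric_hahn_banach_closed_point` gives a continuous linear `φ` and `u` with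
`φ k < u` for all `k ∈ K` and `u < φ f`. Put `g e = φ (Pi.single e 1)`, so `φ h = ∑ e, h e * g e`. Take
`y T = L` if `∑ e, M T e * g e ≥ 0` and `-L` otherwise: the element `k` of `K` for this `y` has
`φ k = ∑ T, y T * ∑ e, M T e * g e = L * ∑ T, |∑ e, M T e * g e|`, so `L * ∑ |..| < u < ∑ f g`, contradiction. -/
def StDUA : Prop :=
  ∀ (E T : Type) [Fintype E] [Fintype T] [DecidableEq E] (M : T → E → ℝ) (f : E → ℝ) (L : ℝ),
    0 ≤ L → (∀ g : E → ℝ, ∑ e, f e * g e ≤ L * ∑ t, |∑ e, M t e * g e|) →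
    ∃ y : T → ℝ, (∀ t, |y t| ≤ L) ∧ ∀ e, ∑ t, y t * M t e = f e

/-! ## The `L^1` Poincare inequality -/

/-- The sum of `|F|` over the quadruples `(a, a', b, b')` with all four pairs in `A`, `F` = the alternating sum of
`g` along the four-cycle. -/
noncomputable def Q4 {α β : Type} [Fintype α] [Fintype β] [DecidableEq α] [DecidableEq β]
    (A : Finset (α × β)) (g : α → β → ℝ) : ℝ :=
  ∑ a, ∑ a', ∑ b, ∑ b', if (a, b) ∈ A ∧ (a', b) ∈ A ∧ (a, b') ∈ A ∧ (a', b') ∈ A then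
    |g a b - g a' b - g a b' + g a' b'| else 0

/-- The sum of `|w|` over the triangles. -/
noncomputable def ST {α β γ : Type} [Fintype α] [Fintype β] [Fintype γ] [DecidableEq α]
    [DecidableEq β] [DecidableEq γ] (A : Finset (α × β)) (B : Finset (β × γ))
    (C : Finset (γ × α)) (w : α → β → γ → ℝ) : ℝ :=
  ∑ a, ∑ b, ∑ c, if (a, b) ∈ A ∧ (b, c) ∈ B ∧ (c, a) ∈ C then |w a b c| else 0

/-- P1 (four-cycles; 100 lines). Every vertex misses at most `(1/4 - δ) n` vertices of each other class. PROOF. For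
a quadruple `(a, a', b, b')` with all four pairs in `A` the set `N` of the `c` with `(c,a), (c,a') ∈ C` and
`(b,c), (b',c) ∈ B` has at least `n - 4 (1/4 - δ) n = 4 δ n` elements (`N` is the complement of the union
of four sets of sizes `m2 C univ a`, `m2 C univ a'`, `m1 B univ b`, `m1 B univ b'`). For `c ∈ N`, with
`w a b c = gA a b + gB b c + gC c a`, the alternating sum of `gA` is
`w a b c - w a' b c - w a b' c + w a' b' c` (the terms `gB`, `gC` cancel), and the four triples are triangles.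
So `4 δ n |alt| ≤ ∑_{c ∈ N} (|w a b c| + |w a' b c| + |w a b' c| + |w a' b' c|)`; sum over all quadruples: each
of the four sums is at most `n^2 * ST` (for fixed triangle `(a,b,c)` at most `n * n` values of the two
other variables). So `4 δ n Q4 ≤ 4 n^2 ST`. -/
def StP1 : Prop :=
  ∀ (α β γ : Type) [Fintype α] [Fintype β] [Fintype γ] [DecidableEq α] [DecidableEq β]
    [DecidableEq γ] (n : ℕ) (δ : ℝ) (A : Finset (α × β)) (B : Finset (β × γ)) (C : Finset (γ × α))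
    (gA : α → β → ℝ) (gB : β → γ → ℝ) (gC : γ → α → ℝ), 0 < n → Fintype.card α = n →
    Fintype.card β = n → Fintype.card γ = n → 0 < δ → Mis A B C ((1 / 4 - δ) * n) →
    Q4 A gA ≤ n / δ * ST A B C (fun a b c => gA a b + gB b c + gC c a)

/-- P2a (first half of the bipartite inequality; 120 lines). PROOF. For `a, a'` let `N(a,a')` be the set of their
common neighbours `b`; it has at least `n/2 > 0` elements. Put
`D a a' = (∑ b ∈ N(a,a'), (g a b - g a' b)) / |N(a,a')|` and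
`e a a' b = |g a b - g a' b - D a a'|` for `b ∈ N(a,a')`. Then `e a a' b ≤ (1/|N|) ∑_{b' ∈ N(a,a')} |alternating
sum of (a,a',b,b')| ≤ (2/n) ∑_{b' ∈ N}`, so `(E1) ∑_{a,a'} ∑_{b ∈ N(a,a')} e a a' b ≤ (2/n) Q4`. For `a, a', z` the set
`N3` of the common neighbours of all three has at least `n/4` elements, and for `b ∈ N3`
`|D a a' + D a' z - D a z| ≤ e a a' b + e a' z b + e a z b`; summing over `b ∈ N3` and then over `a, a', z`
(each of the three sums is at most `n` times the left side of `(E1)`):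
`(n/4) ∑_{a,a',z} |D a a' + D a' z - D a z| ≤ 6 Q4`. So for some `z` (`exists_le_of_sum_le`, there are `n` values):
`∑_{a,a'} |D a a' + D a' z - D a z| ≤ (24/n^2) Q4`. Put `p a = D a z`. For `b ∈ N(a,a')`:
`|(g a b - p a) - (g a' b - p a')| ≤ e a a' b + |D a a' - D a z + D a' z|`, so the sum in the
conclusion is at most `(2/n) Q4 + n (24/n^2) Q4 = (26/n) Q4`. -/
def StP2a : Prop :=
  ∀ (α β : Type) [Fintype α] [Fintype β] [DecidableEq α] [DecidableEq β] (n : ℕ)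
    (A : Finset (α × β)) (g : α → β → ℝ), 0 < n → Fintype.card α = n → Fintype.card β = n →
    (∀ a, (m1 A univ a : ℝ) ≤ n / 4) → (∀ b, (m2 A univ b : ℝ) ≤ n / 4) →
    ∃ p : α → ℝ, ∑ a, ∑ a', ∑ b, (if (a, b) ∈ A ∧ (a', b) ∈ A then
      |(g a b - p a) - (g a' b - p a')| else 0) ≤ 26 / n * Q4 A g

/-- P2b (second half; 50 lines). PROOF. `p` from P2a. For `b` let `N(b)` be the set of its neighbours,
`|N(b)| ≥ 3n/4 > 0`, `q b = -(∑ a' ∈ N(b), (g a' b - p a')) / |N(b)|`. For `a ∈ N(b)`: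
`|g a b - (p a - q b)| ≤ (1/|N(b)|) ∑_{a' ∈ N(b)} |(g a b - p a) - (g a' b - p a')|`, with
`1/|N(b)| ≤ 4/(3n)`. Sum over `(a,b) ∈ A`: at most `(4/(3n)) (26/n) Q4 ≤ (35/n^2) Q4`. -/
def StP2b : Prop :=
  StP2a → ∀ (α β : Type) [Fintype α] [Fintype β] [DecidableEq α] [DecidableEq β] (n : ℕ)
    (A : Finset (α × β)) (g : α → β → ℝ), 0 < n → Fintype.card α = n → Fintype.card β = n →
    (∀ a, (m1 A univ a : ℝ) ≤ n / 4) → (∀ b, (m2 A univ b : ℝ) ≤ n / 4) →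
    ∃ (p : α → ℝ) (q : β → ℝ), ∑ a, ∑ b, (if (a, b) ∈ A then |g a b - (p a - q b)| else 0)
      ≤ 35 / (n : ℝ) ^ 2 * Q4 A g

/-- P3a (vertex functions are nearly constant; 80 lines). PROOF. Let `X` be the sum on the right. For `a, a'` let
`M(a,a')` be the set of the pairs `(b,c)` with `(a,b), (a',b) ∈ A`, `(c,a), (c,a') ∈ C`, `(b,c) ∈ B`. There are at
least `n/2` values `b`, and for each of them at least `n/4` values `c`: `|M| ≥ n^2/8`. For `(b,c) ∈ M`: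
`|P a - P a'| ≤ |P a + Q b + S c| + |P a' + Q b + S c|`. Sum over `M(a,a')`, then over `a, a'`:
`(n^2/8) ∑_{a,a'} |P a - P a'| ≤ 2 n X`. So for some `z` `∑_a |P a - P z| ≤ (16/n^2) X`; `P0 = P z`. -/
def StP3a : Prop :=
  ∀ (α β γ : Type) [Fintype α] [Fintype β] [Fintype γ] [DecidableEq α] [DecidableEq β]
    [DecidableEq γ] (n : ℕ) (A : Finset (α × β)) (B : Finset (β × γ)) (C : Finset (γ × α))
    (P : α → ℝ) (Q : β → ℝ) (S : γ → ℝ), 0 < n → Fintype.card α = n → Fintype.card β = n →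
    Fintype.card γ = n → Mis A B C (n / 4) →
    ∃ P0 : ℝ, ∑ a, |P a - P0| ≤ 16 / (n : ℝ) ^ 2 * ST A B C (fun a b c => P a + Q b + S c)

/-- P3b (70 lines). PROOF. P3a for the three rotations (`ST` is invariant under rotation:
`ST B C A (fun b c a => w a b c) = ST A B C w`, by `Finset.sum_comm`): `P0`, `Q0`, `S0'`. Let
`κ = P0 + Q0 + S0'`. For every triangle `|κ| ≤ |P a + Q b + S c| + |P a - P0| + |Q b - Q0| + |S c - S0'|`. The number
of triangles is at least `n * (3n/4) * (n/2) = 3 n^3/8`; sum over all the triangles, each vertex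
is in at most `n^2` of them: `(3 n^3/8) |κ| ≤ X + 3 * 16 X = 49 X`, `|κ| ≤ 131 X / n^3`. Put `S0 = S0' - κ`:
`∑_c |S c - S0| ≤ (16/n^2) X + n |κ| ≤ (147/n^2) X`. Total `(16 + 16 + 147)/n^2 ≤ 200/n^2`. -/
def StP3b : Prop :=
  StP3a → ∀ (α β γ : Type) [Fintype α] [Fintype β] [Fintype γ] [DecidableEq α] [DecidableEq β]
    [DecidableEq γ] (n : ℕ) (A : Finset (α × β)) (B : Finset (β × γ)) (C : Finset (γ × α))
    (P : α → ℝ) (Q : β → ℝ) (S : γ → ℝ), 0 < n → Fintype.card α = n → Fintype.card β = n →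
    Fintype.card γ = n → Mis A B C (n / 4) →
    ∃ P0 Q0 S0 : ℝ, P0 + Q0 + S0 = 0 ∧ ∑ a, |P a - P0| + ∑ b, |Q b - Q0| + ∑ c, |S c - S0|
      ≤ 200 / (n : ℝ) ^ 2 * ST A B C (fun a b c => P a + Q b + S c)

/-- The distance in `L^1` of `(gA, gB, gC)` from the gauge function given by `(p, q, u)`. -/
noncomputable def Gd {α β γ : Type} [Fintype α] [Fintype β] [Fintype γ] [DecidableEq α]
    [DecidableEq β] [DecidableEq γ] (A : Finset (α × β)) (B : Finset (β × γ))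
    (C : Finset (γ × α)) (gA : α → β → ℝ) (gB : β → γ → ℝ) (gC : γ → α → ℝ) (p : α → ℝ)
    (q : β → ℝ) (u : γ → ℝ) : ℝ :=
  ∑ a, ∑ b, (if (a, b) ∈ A then |gA a b - (p a - q b)| else 0) +
  ∑ b, ∑ c, (if (b, c) ∈ B then |gB b c - (q b - u c)| else 0) +
  ∑ c, ∑ a, (if (c, a) ∈ C then |gC c a - (u c - p a)| else 0)

/-- The conclusion of P4: the `L^1` Poincare inequality. -/
def POI : Prop :=
  ∀ (α β γ : Type) [Fintype α] [Fintype β] [Fintype γ] [DecidableEq α] [DecidableEq β]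
    [DecidableEq γ] (n : ℕ) (δ : ℝ) (A : Finset (α × β)) (B : Finset (β × γ)) (C : Finset (γ × α))
    (gA : α → β → ℝ) (gB : β → γ → ℝ) (gC : γ → α → ℝ), 0 < n → Fintype.card α = n →
    Fintype.card β = n → Fintype.card γ = n → 0 < δ → δ ≤ 1 / 4 → Mis A B C ((1 / 4 - δ) * n) →
    ∃ (p : α → ℝ) (q : β → ℝ) (u : γ → ℝ), Gd A B C gA gB gC p q u
      ≤ 50000 / (δ * n) * ST A B C (fun a b c => gA a b + gB b c + gC c a)

/-- P4 (120 lines). PROOF. Let `X0 = ST A B C w`, `w = gA + gB + gC`. P1 and P2b for the three rotations (`ST` is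
invariant under rotation) give `p, q`; `q', u'`; `u'', p''` with
`EA = ∑_A |gA a b - (p a - q b)| ≤ (35/n^2)(n/δ) X0 = (35/(n δ)) X0`, `EB = ∑_B |gB b c - (q' b - u' c)| ≤` the same,
`EC = ∑_C |gC c a - (u'' c - p'' a)| ≤` the same. Let `P a = p a - p'' a`, `Q b = q' b - q b`, `S c = u'' c - u' c`. On a
triangle `|P a + Q b + S c| ≤ |w| + (the three errors)`, and every edge is in at most `n` triangles, so
`X := ST A B C (P + Q + S) ≤ X0 + n (EA + EB + EC) ≤ (1 + 105/δ) X0`. P3b: `P0 + Q0 + S0 = 0`. The gauge function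
`(p, q, u)` with `u c = u' c - Q0`: `gB - (q b - u c) = [gB - (q' b - u' c)] + (Q b - Q0)`, so the `B`-part is at most
`EB + n ∑ |Q b - Q0|`; `gC - (u c - p a) = [gC - (u'' c - p'' a)] + (S c - S0) + (P a - P0)` (as `Q0 = -P0 - S0`), so
the `C`-part is at most `EC + n ∑ |S c - S0| + n ∑ |P a - P0|`. Total at most
`(105/(n δ)) X0 + n (200/n^2) (1 + 105/δ) X0 ≤ (50000/(δ n)) X0` (`δ ≤ 1/4`). -/
def StP4 : Prop := StP1 → StP2b → StP3b → POI

/-- The conclusion of COR: every balanced function on the edges is the vector of edge sums of a small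
function on the triangles. -/
def CORC (δ K : ℝ) : Prop :=
  ∀ (α β γ : Type) [Fintype α] [Fintype β] [Fintype γ] [DecidableEq α] [DecidableEq β]
    [DecidableEq γ] (n : ℕ) (A : Finset (α × β)) (B : Finset (β × γ)) (C : Finset (γ × α))
    (fA : α → β → ℝ) (fB : β → γ → ℝ) (fC : γ → α → ℝ) (t : ℝ), 0 < n → Fintype.card α = n →
    Fintype.card β = n → Fintype.card γ = n → Mis A B C ((1 / 4 - δ) * n) → 0 ≤ t →
    (∀ a b, (a, b) ∈ A → |fA a b| ≤ t) → (∀ b c, (b, c) ∈ B → |fB b c| ≤ t) →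
    (∀ c a, (c, a) ∈ C → |fC c a| ≤ t) →
    (∀ a, ∑ b, (if (a, b) ∈ A then fA a b else 0) = ∑ c, (if (c, a) ∈ C then fC c a else 0)) →
    (∀ b, ∑ c, (if (b, c) ∈ B then fB b c else 0) = ∑ a, (if (a, b) ∈ A then fA a b else 0)) →
    (∀ c, ∑ a, (if (c, a) ∈ C then fC c a else 0) = ∑ b, (if (b, c) ∈ B then fB b c else 0)) →
    ∃ y : α → β → γ → ℝ, (∀ a b c, |y a b c| ≤ K * t / n) ∧
      (∀ a b c, y a b c ≠ 0 → Tri A B C a b c) ∧ (∀ a b, (a, b) ∈ A → ∑ c, y a b c = fA a b) ∧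
      (∀ b c, (b, c) ∈ B → ∑ a, y a b c = fB b c) ∧
      ∀ c a, (c, a) ∈ C → ∑ b, y a b c = fC c a

/-- COR (120 lines), `K = 50000/δ`. PROOF. Apply DUA with `E = (α × β) ⊕ (β × γ) ⊕ (γ × α)` (or the subtypes of
`A`, `B`, `C`), `T = α × β × γ`, `M (a,b,c) (inl e) = 1` if `(a,b,c)` is a triangle and `e = (a,b)`, otherwise `0`,
and so on; `f (inl e) = fA e` if `e ∈ A`, otherwise `0`, and so on; `L = K t/n`. For `g = (gA, gB, gC)`:
`∑ e, M T e * g e = gA a b + gB b c + gC c a` if `T = (a,b,c)` is a triangle and `0` otherwise, so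
`∑_T |..| = ST A B C w`. POI gives `p, q, u` with `Gd ≤ (50000/(δ n)) ST`. As `f` is balanced,
`∑_A fA a b (p a - q b) + ∑_B fB b c (q b - u c) + ∑_C fC c a (u c - p a) = 0` (the coefficient of `p a` is the
difference of the two sides of the first balance condition, and so on). So
`∑ f g = ∑ f (g - gauge) ≤ t * Gd ≤ L * ST`. The `y` of DUA: put `y' a b c = y (a,b,c)` if it is a triangle and `0`
otherwise. -/
def StCOR : Prop := StDUA → POI → ∀ δ : ℝ, 0 < δ → δ ≤ 1 / 4 → CORC δ (50000 / δ)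

/-- The conclusion of BLY. -/
def BLYC (δ : ℝ) : Prop :=
  ∀ (α β γ : Type) [Fintype α] [Fintype β] [Fintype γ] [DecidableEq α] [DecidableEq β]
    [DecidableEq γ] (n : ℕ), 0 < n → Fintype.card α = n → Fintype.card β = n →
    Fintype.card γ = n → ∀ (A : Finset (α × β)) (B : Finset (β × γ)) (C : Finset (γ × α)) (b : ℝ),
    Mis A B C ((1 / 4 - δ) * n) → 0 ≤ b → b ≤ δ → Imb A B C (b * n) →
    ∃ (wA : α → β → ℝ) (wB : β → γ → ℝ) (wC : γ → α → ℝ),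
      (∀ a b', 0 ≤ wA a b' ∧ wA a b' ≤ b / δ) ∧ (∀ b' c, 0 ≤ wB b' c ∧ wB b' c ≤ b / δ) ∧
      (∀ c a, 0 ≤ wC c a ∧ wC c a ≤ b / δ) ∧
      (∀ a, ∑ b', (if (a, b') ∈ A then 1 - wA a b' else 0)
        = ∑ c, (if (c, a) ∈ C then 1 - wC c a else 0)) ∧
      (∀ b', ∑ c, (if (b', c) ∈ B then 1 - wB b' c else 0)
        = ∑ a, (if (a, b') ∈ A then 1 - wA a b' else 0)) ∧
      ∀ c, ∑ a, (if (c, a) ∈ C then 1 - wC c a else 0)
        = ∑ b', (if (b', c) ∈ B then 1 - wB b' c else 0)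

/-- BLY (balancing weights; a copy of module T1 of project IA, `Pool/Agent/Helper99/IA38/T1.lean`, with other
numbers; 150 lines). PROOF. `V = α ⊕ β ⊕ γ`, `W = Wt A B C`, `|V| = 3n`. Every `d1`, `d2` is at least
`(3/4 + δ) n`, so every degree is at least `(3/2 + 2δ) n` and `3n + 4 δ n ≤ 2 deg v + 2`: L2 applies with
`4 δ n` for `δ`. L1 (rigidity by L2 with `s = 0`) gives `p` with `Lap W p = (out-degree minus in-degree)`, and L2
with `s = b n` gives `4 δ n |p v| ≤ b n`, `|p v| ≤ b/(4δ)`. Put `t = b/(2δ) ≤ 1`,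
`wA a b' = t + (1 - t)(p a - p b')` and so on: `|p a - p b'| ≤ t`, so `0 ≤ w ≤ 2t = b/δ`. Balance as in T1. -/
def StBLY : Prop := StL1 → StL2 → StT0 → ∀ δ : ℝ, 0 < δ → δ ≤ 1 / 4 → BLYC δ

/-! ## Fractional decompositions of the current graph -/

/-- The conclusion of FRX. -/
def FRXC (δ c0 Λ ε : ℝ) : Prop :=
  ∀ (α β γ : Type) [Fintype α] [Fintype β] [Fintype γ] [DecidableEq α] [DecidableEq β]
    [DecidableEq γ] (n : ℕ), 0 < n → Fintype.card α = n → Fintype.card β = n →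
    Fintype.card γ = n → ∀ (A : Finset (α × β)) (B : Finset (β × γ)) (C : Finset (γ × α))
    (b : ℝ) (x0 : α → β → γ → ℝ), Mis A B C ((1 / 4 - δ) * n) → 0 ≤ b → b ≤ ε →
    Imb A B C (b * n) → Wx c0 Λ ε n A B C x0 →
    ∃ x : α → β → γ → ℝ, (∀ a b' c, 0 ≤ x a b' c) ∧ (∀ a b' c, x a b' c ≤ (Λ + c0) / n) ∧
      (∀ a b' c, x a b' c ≠ 0 → (a, b') ∈ A ∧ (b', c) ∈ B ∧ (c, a) ∈ C) ∧
      (∀ a b', (a, b') ∈ A → 1 - b / δ ≤ ∑ c, x a b' c) ∧ (∀ a b', ∑ c, x a b' c ≤ 1) ∧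
      (∀ b' c, (b', c) ∈ B → 1 - b / δ ≤ ∑ a, x a b' c) ∧ (∀ b' c, ∑ a, x a b' c ≤ 1) ∧
      (∀ c a, (c, a) ∈ C → 1 - b / δ ≤ ∑ b', x a b' c) ∧ ∀ c a, ∑ b', x a b' c ≤ 1

/-- FRX (correction of the given weight; 120 lines). PROOF. `K = 50000/δ`,
`ε = min (min (1/1000) δ) (min 1 (c0 / (K (1 + 1/δ))))`. BLY gives `w`, `0 ≤ w ≤ b/δ`. Put
`fA a b' = 1 - wA a b' - ∑ c, x0 a b' c` etc. On edges `|f| ≤ b/δ + ε ≤ (1 + 1/δ) ε =: t`. Balance of `f`: from the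
balance of `1 - w` and of the edge sums of `x0` (`∑_b' (if (a,b') ∈ A then ∑_c x0 a b' c else 0) = ∑_b' ∑_c x0 a b' c`
because `x0` is supported on triangles; the same for the other side). COR gives `y`, `|y| ≤ K t/n ≤ c0/n`,
supported on triangles, with edge sums `f`. `x = x0 + y`: on a triangle `x0 ≥ c0/n ≥ |y|`, elsewhere both are `0`;
`x ≤ Λ/n + c0/n`; edge sums `1 - w` on edges; for a pair which is not an edge all the `x` are `0`. -/
def StFRX : Prop :=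
  (∀ δ : ℝ, 0 < δ → δ ≤ 1 / 4 → CORC δ (50000 / δ)) → (∀ δ : ℝ, 0 < δ → δ ≤ 1 / 4 → BLYC δ) →
    ∀ δ c0 Λ : ℝ, 0 < δ → δ ≤ 1 / 4 → 0 < c0 → 0 < Λ → ∃ ε : ℝ, 0 < ε ∧ ε ≤ 1 / 1000 ∧ ε ≤ δ ∧
      FRXC δ c0 Λ ε

/-- The approximate decomposition of nearly regular graphs with a reference weight. -/
def APXX (δ c0 Λ ε : ℝ) : Prop :=
  ∀ g : ℝ, 0 < g → ∃ (b0 : ℝ) (n0 : ℕ), 0 < b0 ∧
    ∀ (α β γ : Type) [Fintype α] [Fintype β] [Fintype γ] [DecidableEq α] [DecidableEq β]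
    [DecidableEq γ] (n : ℕ), n0 ≤ n → Fintype.card α = n → Fintype.card β = n →
    Fintype.card γ = n → ∀ (A : Finset (α × β)) (B : Finset (β × γ)) (C : Finset (γ × α))
    (κ : ℝ) (x0 : α → β → γ → ℝ), 0 ≤ κ → κ ≤ 1 / 4 - 2 * δ →
    Near A B C univ univ univ univ univ univ ((κ - ε) * n) ((κ + ε) * n) → Imb A B C (b0 * n) →
    Wx c0 Λ ε n A B C x0 →
    ∃ P, Pack A B C P ∧ Sm (A \ P.image eA) (g * n) ∧ Sm (B \ P.image eB) (g * n) ∧
      Sm (C \ P.image eC) (g * n)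

/-- APY: FRX and NIB (40 lines, a copy of `Pool/Agent/Helper38/IA/Apx.lean`). PROOF. `ε` from FRX for `δ`, so `ε ≤ δ`
and `(κ + ε) n ≤ (1/4 - δ) n`: `Mis`. NIB for `Λ + c0` and `g` gives `δ'`, `n0`; `b0 = min ε (δ' * δ)`, so
`b0/δ ≤ δ'`. FRX with `b = b0`. -/
def StAPY : Prop :=
  StNIB → (∀ δ c0 Λ : ℝ, 0 < δ → δ ≤ 1 / 4 → 0 < c0 → 0 < Λ → ∃ ε : ℝ, 0 < ε ∧ ε ≤ 1 / 1000 ∧
      ε ≤ δ ∧ FRXC δ c0 Λ ε) →
    ∀ δ c0 Λ : ℝ, 0 < δ → δ ≤ 1 / 8 → 0 < c0 → 0 < Λ → ∃ ε : ℝ, 0 < ε ∧ ε ≤ 1 / 1000 ∧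
      APXX δ c0 Λ ε

/-- NSX (restriction of the weight to a subgraph; 80 lines). PROOF. `x' a b c = x a b c` if `(a,b,c)` is a triangle of
`(G1, G2, G3)` and `0` otherwise. `nn, up, tr, lo` are clear (`0 ≤ Λ/n`). `eA`: for `(a,b) ∈ G1`,
`∑_c x a b c - ∑_c x' a b c = ∑ x a b c` over the `c` with `(b,c) ∉ G2` or `(c,a) ∉ G3`; there `x a b c ≠ 0` only if
`(b,c) ∈ B0`, `(c,a) ∈ C0`, so only for the `c` with `(b,c) ∈ B0 \ G2` (at most `d1 (B0 \ G2) b ≤ t n` of them) or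
`(c,a) ∈ C0 \ G3` (at most `d2 (C0 \ G3) a ≤ t n`), each term at most `Λ/n`: the difference is in
`[0, 2 Λ t]`. (`d1_eq`, `d2_eq` in `Pool.Agent.Helper38.IA.Basic`.) -/
def StNSX : Prop :=
  ∀ (α β γ : Type) [Fintype α] [Fintype β] [Fintype γ] [DecidableEq α] [DecidableEq β]
    [DecidableEq γ] (c0 Λ ε t : ℝ) (n : ℕ) (A0 G1 : Finset (α × β)) (B0 G2 : Finset (β × γ))
    (C0 G3 : Finset (γ × α)) (x : α → β → γ → ℝ), 0 < n → 0 ≤ Λ → Wx c0 Λ ε n A0 B0 C0 x →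
    G1 ⊆ A0 → G2 ⊆ B0 → G3 ⊆ C0 → Sm (A0 \ G1) (t * n) → Sm (B0 \ G2) (t * n) →
    Sm (C0 \ G3) (t * n) → ∃ x' : α → β → γ → ℝ, Wx c0 Λ (ε + 2 * Λ * t) n G1 G2 G3 x'

/-- SMX (what is missing in the graph outside the reservoir; 40 lines). PROOF. `G = (A \ ins A U1 U2) \ QA`.
`A0 \ G ⊆ (A0 \ A) ∪ (edges with both ends in U) ∪ QA`. `d1`: at most `g n + |U2| + 2ρ n`; `d2`: at most
`g n + |U1| + 2ρ n` (`d1_union_le`, `d1_mono` in `Pool.Agent.Helper93.IA.DegB`; the edges `(a,b)` at `a` with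
`b ∈ U2` number at most `|U2|`). -/
def StSMX : Prop :=
  ∀ (α β : Type) [Fintype α] [Fintype β] [DecidableEq α] [DecidableEq β] (g ξ ρ t : ℝ)
    (n m : ℕ) (A0 A QA : Finset (α × β)) (U1 : Finset α) (U2 : Finset β), A ⊆ A0 →
    Sm (A0 \ A) (g * n) → U1.card = m → U2.card = m → (m : ℝ) ≤ ξ * n → Sm QA (2 * ρ * n) →
    g + ξ + 2 * ρ ≤ t → Sm (A0 \ ((A \ ins A U1 U2) \ QA)) (t * n)

/-! ## Cover down -/

/-- The cover down statement with a reference weight. -/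
def CDPX (δ c0 Λ ξ g ε : ℝ) (n0 : ℕ) : Prop :=
  ∀ (α β γ : Type) [Fintype α] [Fintype β] [Fintype γ] [DecidableEq α] [DecidableEq β]
    [DecidableEq γ] (κ : ℝ) (n m : ℕ) (A0 A : Finset (α × β)) (B0 B : Finset (β × γ))
    (C0 C : Finset (γ × α)) (U1 W1 : Finset α) (U2 W2 : Finset β) (U3 W3 : Finset γ)
    (x : α → β → γ → ℝ),
    0 ≤ κ → κ ≤ 1 / 4 - 2 * δ → n0 ≤ n → Lv κ ε g ξ n m A0 A B0 B C0 C U1 W1 U2 W2 U3 W3 →
    Wx c0 Λ ε n A0 B0 C0 x →
    ∃ P, Pack A B C P ∧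
      A \ P.image eA ⊆ ins A U1 U2 ∧ B \ P.image eB ⊆ ins B U2 U3 ∧ C \ P.image eC ⊆ ins C U3 U1 ∧
      ins (P.image eA) W1 W2 = ∅ ∧ ins (P.image eB) W2 W3 = ∅ ∧ ins (P.image eC) W3 W1 = ∅ ∧
      Sm (ins (P.image eA) U1 U2) (g * m) ∧ Sm (ins (P.image eB) U2 U3) (g * m) ∧
      Sm (ins (P.image eC) U3 U1) (g * m)

/-- CDX (assembly of the cover down step, a copy of `Pool/Agent/Helper93/IA/Cd.lean`; helper49). -/
def StCDX : Prop :=
  StBRN → StBLXq → StRSVq → StLEC → StMAT → StNSX → StSMX → ∀ δ c0 Λ : ℝ, 0 < δ → δ ≤ 1 / 8 →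
    0 < c0 → 0 < Λ → (∃ ε : ℝ, 0 < ε ∧ ε ≤ 1 / 1000 ∧ APXX δ c0 Λ ε) →
    ∃ (ξ g ε : ℝ) (n0 : ℕ), 0 < ξ ∧ ξ ≤ 1 / 1000 ∧ ξ ≤ δ ∧ 0 < g ∧ 0 < ε ∧
      CDPX δ c0 Λ ξ g ε n0

end Pool.Agent.Helper49.TP
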