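import Pool.Agent.Helper38.IA.St
import Pool.Agent.Helper57.IA.St
import Pool.Agent.Helper93.IA.StC

/-!
# Project TP (transitive protoplexes), part Q: the statements of project IA with `κ ≤ 1/4`

Copies of the statements of project IA in which `κ ≤ 20 / 97` is replaced by `κ ≤ 1 / 4`, with
adapted numerical constants.
-/

set_option autoImplicit false

namespace Pool.Agent.Helper49.TP

open Finset Pool.Agent.Helper93.IA Pool.Agent.Helper38.IA Pool.Agent.Helper57.IA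
open Pool.Agent.Helper17.IA (StPKU StPKB)

def StL3q : Prop :=
  ∀ (V : Type) [Fintype V] [DecidableEq V] (I : Finset V) (W : V → V → ℝ) (p : V → ℝ)
    (m n βo βi : ℝ), (∀ v y, 0 ≤ W v y ∧ W v y ≤ 1) → (∀ v y, W v y = W y v) →
    (∀ v ∈ I, ∀ y ∈ I, W v y = 0) → (∀ v, v ∉ I → ∀ y, y ∉ I → W v y = 0) → 0 < m → 0 < n →
    0 ≤ βo → 0 ≤ βi → (∀ v, v ∉ I → 0 < ∑ y, W v y ∧ ∑ y, W v y ≤ 2 * m) →
    (∀ v ∈ I, 0 < ∑ y, W v y ∧ ∑ y, W v y ≤ 2 * n) →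
    (∀ u ∈ I, ∀ u' ∈ I, 49 / 100 * n ≤ ∑ v, W u v * W v u') → (I.card : ℝ) = 3 * m →
    (∀ v, v ∉ I → |Lap W p v| ≤ βo * ∑ y, W v y) → (∀ v ∈ I, |Lap W p v| ≤ βi * ∑ y, W v y) →
    ∀ x y, |p x - p y| ≤ 8 * (βo + βi)

def StX1q : Prop :=
  ∀ ξ g ρ : ℝ, 0 < ξ → ξ ≤ 1 / 1000 → 0 < g → g ≤ ξ / 5000 → 0 < ρ → ρ ≤ 1 / 4 →
    ∀ (α β γ : Type) [Fintype α] [Fintype β] [Fintype γ] [DecidableEq α] [DecidableEq β]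
      [DecidableEq γ] (κ : ℝ) (n m : ℕ) (A0 A : Finset (α × β)) (B0 B : Finset (β × γ))
      (C0 C : Finset (γ × α)) (U1 W1 : Finset α) (U2 W2 : Finset β) (U3 W3 : Finset γ),
      0 ≤ κ → κ ≤ 1 / 4 → 1000 ≤ ξ * n →
      Lv κ (ρ / 10000) g ξ n m A0 A B0 B C0 C U1 W1 U2 W2 U3 W3 →
      0 < m ∧ (∀ a, a ∉ U1 →
          7 / 5 * (m : ℝ) ≤ (d1 (crs A U1 U2) a : ℝ) + d2 (crs C U3 U1) a ∧
          (d1 (crs A U1 U2) a : ℝ) + d2 (crs C U3 U1) a ≤ 2 * m) ∧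
        ∀ a ∈ U1, 7 / 5 * (n : ℝ) ≤ (d1 (crs A U1 U2) a : ℝ) + d2 (crs C U3 U1) a ∧
          (d1 (crs A U1 U2) a : ℝ) + d2 (crs C U3 U1) a ≤ 2 * n

def StX2q : Prop :=
  ∀ ξ g ρ : ℝ, 0 < ξ → ξ ≤ 1 / 1000 → 0 < g → g ≤ ξ / 5000 → 0 < ρ → ρ ≤ 1 / 4 →
    ∀ (α β γ : Type) [Fintype α] [Fintype β] [Fintype γ] [DecidableEq α] [DecidableEq β]
      [DecidableEq γ] (κ : ℝ) (n m : ℕ) (A0 A : Finset (α × β)) (B0 B : Finset (β × γ))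
      (C0 C : Finset (γ × α)) (U1 W1 : Finset α) (U2 W2 : Finset β) (U3 W3 : Finset γ),
      0 ≤ κ → κ ≤ 1 / 4 → 1000 ≤ ξ * n →
      Lv κ (ρ / 10000) g ξ n m A0 A B0 B C0 C U1 W1 U2 W2 U3 W3 →
      (∀ a ∈ U1, ∀ a' ∈ U1, 49 / 100 * (n : ℝ)
        ≤ (univ.filter fun b => (a, b) ∈ crs A U1 U2 ∧ (a', b) ∈ crs A U1 U2).card) ∧
      ∀ a ∈ U1, ∀ b ∈ U2, 49 / 100 * (n : ℝ)
        ≤ (univ.filter fun c => (c, a) ∈ crs C U3 U1 ∧ (b, c) ∈ crs B U2 U3).card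

def StX3q : Prop :=
  ∀ ξ g ρ : ℝ, 0 < ξ → ξ ≤ 1 / 1000 → 0 < g → g ≤ ξ / 5000 → 0 < ρ → ρ ≤ 1 / 4 →
    ∀ (α β γ : Type) [Fintype α] [Fintype β] [Fintype γ] [DecidableEq α] [DecidableEq β]
      [DecidableEq γ] (κ : ℝ) (n m : ℕ) (A0 A : Finset (α × β)) (B0 B : Finset (β × γ))
      (C0 C : Finset (γ × α)) (U1 W1 : Finset α) (U2 W2 : Finset β) (U3 W3 : Finset γ),
      0 ≤ κ → κ ≤ 1 / 4 → 1000 ≤ ξ * n →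
      Lv κ (ρ / 10000) g ξ n m A0 A B0 B C0 C U1 W1 U2 W2 U3 W3 →
      (∀ a, a ∉ U1 → |bv ρ A C U1 U2 U3 a|
        ≤ 1 / 1000 * ((d1 (crs A U1 U2) a : ℝ) + d2 (crs C U3 U1) a)) ∧
      ∀ a ∈ U1, |bv ρ A C U1 U2 U3 a|
        ≤ 1 / 10000 * ((d1 (crs A U1 U2) a : ℝ) + d2 (crs C U3 U1) a)

def X4Cq : Prop :=
  ∀ ξ g ρ : ℝ, 0 < ξ → ξ ≤ 1 / 1000 → 0 < g → g ≤ ξ / 5000 → 0 < ρ → ρ ≤ 1 / 4 →
    ∀ (α β γ : Type) [Fintype α] [Fintype β] [Fintype γ] [DecidableEq α] [DecidableEq β]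
      [DecidableEq γ] (κ : ℝ) (n m : ℕ) (A0 A : Finset (α × β)) (B0 B : Finset (β × γ))
      (C0 C : Finset (γ × α)) (U1 W1 : Finset α) (U2 W2 : Finset β) (U3 W3 : Finset γ),
      0 ≤ κ → κ ≤ 1 / 4 → 1000 ≤ ξ * n →
      Lv κ (ρ / 10000) g ξ n m A0 A B0 B C0 C U1 W1 U2 W2 U3 W3 →
      ∃ I : Finset (α ⊕ β ⊕ γ), (∀ a, Sum.inl a ∈ I ↔ a ∈ U1) ∧
        (∀ b, Sum.inr (Sum.inl b) ∈ I ↔ b ∈ U2) ∧ (∀ c, Sum.inr (Sum.inr c) ∈ I ↔ c ∈ U3) ∧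
        (I.card : ℝ) = 3 * m ∧
        (∀ v ∈ I, ∀ y ∈ I, Wt (crs A U1 U2) (crs B U2 U3) (crs C U3 U1) v y = 0) ∧
        (∀ v, v ∉ I → ∀ y, y ∉ I → Wt (crs A U1 U2) (crs B U2 U3) (crs C U3 U1) v y = 0) ∧
        (∀ v, v ∉ I → 0 < ∑ y, Wt (crs A U1 U2) (crs B U2 U3) (crs C U3 U1) v y ∧
          ∑ y, Wt (crs A U1 U2) (crs B U2 U3) (crs C U3 U1) v y ≤ 2 * m) ∧
        (∀ v ∈ I, 0 < ∑ y, Wt (crs A U1 U2) (crs B U2 U3) (crs C U3 U1) v y ∧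
          ∑ y, Wt (crs A U1 U2) (crs B U2 U3) (crs C U3 U1) v y ≤ 2 * n) ∧
        ∀ u ∈ I, ∀ u' ∈ I, 49 / 100 * (n : ℝ)
          ≤ ∑ v, Wt (crs A U1 U2) (crs B U2 U3) (crs C U3 U1) u v
            * Wt (crs A U1 U2) (crs B U2 U3) (crs C U3 U1) v u'

def StX4q : Prop := StT0 → StT2 → StX1q → StX2q → X4Cq

def StBLXq : Prop :=
  ∀ ξ g ρ : ℝ, 0 < ξ → ξ ≤ 1 / 1000 → 0 < g → g ≤ ξ / 5000 → 0 < ρ → ρ ≤ 1 / 4 →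
    ∃ (ε : ℝ) (n0 : ℕ), 0 < ε ∧
    ∀ (α β γ : Type) [Fintype α] [Fintype β] [Fintype γ] [DecidableEq α] [DecidableEq β]
      [DecidableEq γ] (κ : ℝ) (n m : ℕ) (A0 A : Finset (α × β)) (B0 B : Finset (β × γ))
      (C0 C : Finset (γ × α)) (U1 W1 : Finset α) (U2 W2 : Finset β) (U3 W3 : Finset γ),
      0 ≤ κ → κ ≤ 1 / 4 → n0 ≤ n → Lv κ ε g ξ n m A0 A B0 B C0 C U1 W1 U2 W2 U3 W3 →
      ∃ (rA : α → β → ℝ) (rB : β → γ → ℝ) (rC : γ → α → ℝ),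
        (∀ a b, 99 / 100 ≤ rA a b ∧ rA a b ≤ 101 / 100) ∧
        (∀ b c, 99 / 100 ≤ rB b c ∧ rB b c ≤ 101 / 100) ∧
        (∀ c a, 99 / 100 ≤ rC c a ∧ rC c a ≤ 101 / 100) ∧
        (∀ a, (d1 (ins A U1 U2) a : ℝ) + ρ * ∑ b, (if (a, b) ∈ crs A U1 U2 then rA a b else 0)
          = d2 (ins C U3 U1) a + ρ * ∑ c, (if (c, a) ∈ crs C U3 U1 then rC c a else 0)) ∧
        (∀ b, (d1 (ins B U2 U3) b : ℝ) + ρ * ∑ c, (if (b, c) ∈ crs B U2 U3 then rB b c else 0)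
          = d2 (ins A U1 U2) b + ρ * ∑ a, (if (a, b) ∈ crs A U1 U2 then rA a b else 0)) ∧
        ∀ c, (d1 (ins C U3 U1) c : ℝ) + ρ * ∑ a, (if (c, a) ∈ crs C U3 U1 then rC c a else 0)
          = d2 (ins B U2 U3) c + ρ * ∑ b, (if (b, c) ∈ crs B U2 U3 then rB b c else 0)

structure Sitq {α β γ : Type} [Fintype α] [Fintype β] [Fintype γ] [DecidableEq α] [DecidableEq β]
    [DecidableEq γ] (κ ε g ξ ρ η : ℝ) (n m : ℕ) (A0 A : Finset (α × β)) (B0 B : Finset (β × γ))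
    (C0 C : Finset (γ × α)) (U1 W1 : Finset α) (U2 W2 : Finset β) (U3 W3 : Finset γ)
    (rA : α → β → ℝ) (rB : β → γ → ℝ) (rC : γ → α → ℝ) (QA : Finset (α × β))
    (QB : Finset (β × γ)) (QC : Finset (γ × α)) : Prop where
  lv : Lv κ ε g ξ n m A0 A B0 B C0 C U1 W1 U2 W2 U3 W3
  κ0 : 0 ≤ κ
  κ1 : κ ≤ 1 / 4
  ξ0 : 0 < ξ
  ξ1 : ξ ≤ 1 / 1000
  g0 : 0 < g
  g1 : g ≤ ξ / 5000
  ρ0 : 0 < ρ
  ρ1 : ρ ≤ 1 / 4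
  η0 : 0 < η
  η1 : η ≤ ρ ^ 2 * ξ / 100
  ε0 : 0 < ε
  ε1 : ε ≤ 1 / 1000
  ε2 : ε ≤ η / 2
  big : 1000 ≤ ξ * n
  hrA : ∀ a b, 99 / 100 ≤ rA a b ∧ rA a b ≤ 101 / 100
  hrB : ∀ b c, 99 / 100 ≤ rB b c ∧ rB b c ≤ 101 / 100
  hrC : ∀ c a, 99 / 100 ≤ rC c a ∧ rC c a ≤ 101 / 100
  bal : ∀ a, (d1 (ins A U1 U2) a : ℝ) + ρ * ∑ b, (if (a, b) ∈ crs A U1 U2 then rA a b else 0)
    = d2 (ins C U3 U1) a + ρ * ∑ c, (if (c, a) ∈ crs C U3 U1 then rC c a else 0)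
  qA : QA ⊆ crs A U1 U2
  qB : QB ⊆ crs B U2 U3
  qC : QC ⊆ crs C U3 U1
  dev : Dev (η / 2 * n) B QA QB QC (pc ρ (crs A U1 U2) rA) (pc ρ (crs B U2 U3) rB)
    (pc ρ (crs C U3 U1) rC) U2 W2 U3 W3

def StSZq : Prop :=
  ∀ (α β γ : Type) [Fintype α] [Fintype β] [Fintype γ] [DecidableEq α] [DecidableEq β]
    [DecidableEq γ] (κ ε g ξ ρ η : ℝ) (n m : ℕ) (A0 A : Finset (α × β)) (B0 B : Finset (β × γ))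
    (C0 C : Finset (γ × α)) (U1 W1 : Finset α) (U2 W2 : Finset β) (U3 W3 : Finset γ)
    (rA : α → β → ℝ) (rB : β → γ → ℝ) (rC : γ → α → ℝ) (QA : Finset (α × β))
    (QB : Finset (β × γ)) (QC : Finset (γ × α)),
    Sitq κ ε g ξ ρ η n m A0 A B0 B C0 C U1 W1 U2 W2 U3 W3 rA rB rC QA QB QC →
    (∀ a, a ∉ U1 → 49 / 50 * ρ * (1 - κ) * m - η * n ≤ d1 QA a ∧
      (d1 QA a : ℝ) ≤ 51 / 50 * ρ * (1 - κ) * m + η * n) ∧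
    (∀ a, a ∉ U1 → 49 / 50 * ρ * (1 - κ) * m - η * n ≤ d2 QC a ∧
      (d2 QC a : ℝ) ≤ 51 / 50 * ρ * (1 - κ) * m + η * n) ∧
    (∀ a ∈ U1, (d1 QA a : ℝ) ≤ 3 / 2 * ρ * n) ∧
    ∀ a ∈ U1, (d2 QC a : ℝ) ≤ 3 / 2 * ρ * n

def StNBq : Prop :=
  ∀ (α β γ : Type) [Fintype α] [Fintype β] [Fintype γ] [DecidableEq α] [DecidableEq β]
    [DecidableEq γ] (κ ε g ξ ρ η : ℝ) (n m : ℕ) (A0 A : Finset (α × β)) (B0 B : Finset (β × γ))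
    (C0 C : Finset (γ × α)) (U1 W1 : Finset α) (U2 W2 : Finset β) (U3 W3 : Finset γ)
    (rA : α → β → ℝ) (rB : β → γ → ℝ) (rC : γ → α → ℝ) (QA : Finset (α × β))
    (QB : Finset (β × γ)) (QC : Finset (γ × α)),
    Sitq κ ε g ξ ρ η n m A0 A B0 B C0 C U1 W1 U2 W2 U3 W3 rA rB rC QA QB QC →
    (∀ a, a ∉ U1 → ∀ b ∈ U2, ((U3.filter fun c => (c, a) ∈ QC ∧ (b, c) ∉ B).card : ℝ)
      ≤ 51 / 50 * ρ * κ * m + η * n) ∧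
    (∀ a, a ∉ U1 → ∀ c ∈ U3, ((U2.filter fun b => (a, b) ∈ QA ∧ (b, c) ∉ B).card : ℝ)
      ≤ 51 / 50 * ρ * κ * m + η * n) ∧
    (∀ a, a ∉ U1 → ((W2.filter fun b => (a, b) ∈ QA).card : ℝ) ≤ 2 * ρ * W2.card + η * n) ∧
    ∀ a, a ∉ U1 → ((W3.filter fun c => (c, a) ∈ QC).card : ℝ) ≤ 2 * ρ * W3.card + η * n

def StCD3q : Prop :=
  ∀ (α β γ : Type) [Fintype α] [Fintype β] [Fintype γ] [DecidableEq α] [DecidableEq β]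
    [DecidableEq γ] (κ ε g ξ ρ η : ℝ) (n m : ℕ) (A0 A : Finset (α × β)) (B0 B : Finset (β × γ))
    (C0 C : Finset (γ × α)) (U1 W1 : Finset α) (U2 W2 : Finset β) (U3 W3 : Finset γ)
    (rA : α → β → ℝ) (rB : β → γ → ℝ) (rC : γ → α → ℝ) (QA : Finset (α × β))
    (QB : Finset (β × γ)) (QC : Finset (γ × α)),
    Sitq κ ε g ξ ρ η n m A0 A B0 B C0 C U1 W1 U2 W2 U3 W3 rA rB rC QA QB QC →
    (∀ a a', a ∉ U1 → a' ∉ U1 → a ≠ a' →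
      ((univ.filter fun b => (a, b) ∈ QA ∧ (a', b) ∈ QA).card : ℝ) ≤ 2 * ρ ^ 2 * m + η * n) ∧
    (∀ a a', a ∉ U1 → a' ∉ U1 → a ≠ a' →
      ((univ.filter fun c => (c, a) ∈ QC ∧ (c, a') ∈ QC).card : ℝ) ≤ 2 * ρ ^ 2 * m + η * n) ∧
    ∀ a, a ∉ U1 → ∀ b, b ∉ U2 →
      ρ ^ 2 * m / 4 ≤ (univ.filter fun c => (b, c) ∈ QB ∧ (c, a) ∈ QC).card

def StIMq : Prop :=
  ∀ (α β γ : Type) [Fintype α] [Fintype β] [Fintype γ] [DecidableEq α] [DecidableEq β]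
    [DecidableEq γ] (κ ε g ξ ρ η : ℝ) (n m : ℕ) (A0 A : Finset (α × β)) (B0 B : Finset (β × γ))
    (C0 C : Finset (γ × α)) (U1 W1 : Finset α) (U2 W2 : Finset β) (U3 W3 : Finset γ)
    (rA : α → β → ℝ) (rB : β → γ → ℝ) (rC : γ → α → ℝ) (QA : Finset (α × β))
    (QB : Finset (β × γ)) (QC : Finset (γ × α)),
    Sitq κ ε g ξ ρ η n m A0 A B0 B C0 C U1 W1 U2 W2 U3 W3 rA rB rC QA QB QC →
    ∀ a, |(d1 ((A \ ins A U1 U2) \ QA) a : ℝ) - d2 ((C \ ins C U3 U1) \ QC) a| ≤ η * n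

def StRSVq : Prop :=
  StBRN → StBLXq →
  ∀ ξ g ρ η : ℝ, 0 < ξ → ξ ≤ 1 / 1000 → 0 < g → g ≤ ξ / 5000 → 0 < ρ → ρ ≤ 1 / 4 → 0 < η →
    η ≤ ρ ^ 2 * ξ / 100 → ∃ (ε : ℝ) (n0 : ℕ), 0 < ε ∧
    ∀ (α β γ : Type) [Fintype α] [Fintype β] [Fintype γ] [DecidableEq α] [DecidableEq β]
      [DecidableEq γ] (κ : ℝ) (n m : ℕ) (A0 A : Finset (α × β)) (B0 B : Finset (β × γ))
      (C0 C : Finset (γ × α)) (U1 W1 : Finset α) (U2 W2 : Finset β) (U3 W3 : Finset γ),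
      0 ≤ κ → κ ≤ 1 / 4 → n0 ≤ n → Lv κ ε g ξ n m A0 A B0 B C0 C U1 W1 U2 W2 U3 W3 →
      ∃ (QA : Finset (α × β)) (QB : Finset (β × γ)) (QC : Finset (γ × α)),
        Rsv1 κ ρ η n m A B C QA QB QC U1 U2 W2 U3 W3 ∧
        Rsv1 κ ρ η n m B C A QB QC QA U2 U3 W3 U1 W1 ∧
        Rsv1 κ ρ η n m C A B QC QA QB U3 U1 W1 U2 W2

def StRSVAq : Prop :=
  StBRN → StBLXq → StCNT → StDEV → StRN → StRS2 → StSZq → StNBq → StCD3q → StIMq → StRSVq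

def StNUMq : Prop :=
  StNM2 → ∀ ξ ρ η g' : ℝ, 0 < ξ → ξ ≤ 1 / 1000 → 0 < ρ → ρ ≤ ξ / 100000 → 0 < η →
    η ≤ ρ ^ 2 * ξ / 1000 → 0 < g' → g' ≤ ρ ^ 2 * ξ / 1000 → ∃ n0 : ℕ, ∀ (n m : ℕ) (κ : ℝ),
    n0 ≤ n → m = ⌊ξ * n⌋₊ → 0 ≤ κ → κ ≤ 1 / 4 →
    ξ * n / 2 ≤ m ∧ 2 * (g' * n) ≤ ρ ^ 2 * m / 4 ∧
    ∃ t b R D μ : ℕ, 1 ≤ R ∧ 51 / 50 * ρ * κ * m + 2 * ρ * (ξ * m) + 2 * η * n + g' * n ≤ t ∧
      (2 * (t + b + R) : ℝ) ≤ 49 / 50 * ρ * (1 - κ) * m - η * n - g' * n ∧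
      2 * ρ ^ 2 * m + η * n + 2 * (g' * n) ≤ μ ∧ 3 / 2 * ρ * n + g' * n ≤ D ∧
      (D : ℝ) ≤ 2 * ρ * n ∧ (n : ℝ) * (2 * n) * (1 + (μ : ℝ) / R) ^ D < 2 ^ b

def StSTPq : Prop :=
  StMAT → StMTA → StCN1 → StCN2 → StNM2 → StNUMq → ∀ ξ ρ η g' : ℝ, 0 < ξ →
    ξ ≤ 1 / 1000 → 0 < ρ → ρ ≤ ξ / 100000 → 0 < η → η ≤ ρ ^ 2 * ξ / 1000 → 0 < g' →
    g' ≤ ρ ^ 2 * ξ / 1000 → ∃ n0 : ℕ,
    ∀ (α β γ : Type) [Fintype α] [Fintype β] [Fintype γ] [DecidableEq α] [DecidableEq β]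
      [DecidableEq γ] (κ : ℝ) (n m : ℕ) (A QA LA S : Finset (α × β)) (B QB : Finset (β × γ))
      (C QC LC K : Finset (γ × α)) (U1 W1 : Finset α) (U2 W2 : Finset β) (U3 W3 : Finset γ),
      0 ≤ κ → κ ≤ 1 / 4 → n0 ≤ n → m = ⌊ξ * n⌋₊ → Fintype.card α = n → Fintype.card β = n →
      Fintype.card γ = n → (W2.card : ℝ) ≤ ξ * m → (W3.card : ℝ) ≤ ξ * m →
      Rsv1 κ ρ η n m A B C QA QB QC U1 U2 W2 U3 W3 →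
      Rsv1 κ ρ η n m B C A QB QC QA U2 U3 W3 U1 W1 →
      Rsv1 κ ρ η n m C A B QC QA QB U3 U1 W1 U2 W2 →
      Rem (g' * n) QA LA S QC LC K U1 U2 U3 → (∀ a, a ∉ U1 → d1 S a = d2 K a) →
      (∀ a, a ∉ U1 → (d1 QA a : ℝ) - g' * n ≤ d1 S a) →
      ∃ P, Pack S (hb B U2 W2 U3 W3) K P ∧ P.image eA = S ∧ P.image eC = K ∧
        Sm (P.image eB) (2 * ρ * n)

def StMT3q : Prop :=
  StPKB → StROT → StUN3 → StBLA → StMAT → StMTA → StCN1 → StCN2 → StNM2 → StNUMq →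
    StSTPq → ∀ ξ ρ η g' : ℝ, 0 < ξ →
    ξ ≤ 1 / 1000 → 0 < ρ → ρ ≤ ξ / 100000 → 0 < η → η ≤ ρ ^ 2 * ξ / 1000 → 0 < g' →
    g' ≤ ρ ^ 2 * ξ / 1000 → ∃ n0 : ℕ,
    ∀ (α β γ : Type) [Fintype α] [Fintype β] [Fintype γ] [DecidableEq α] [DecidableEq β]
      [DecidableEq γ] (κ : ℝ) (n m : ℕ) (A QA LA : Finset (α × β)) (B QB LB : Finset (β × γ))
      (C QC LC : Finset (γ × α)) (U1 W1 : Finset α) (U2 W2 : Finset β) (U3 W3 : Finset γ)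
      (P : Finset (α × β × γ)),
      0 ≤ κ → κ ≤ 1 / 4 → n0 ≤ n → m = ⌊ξ * n⌋₊ → Fintype.card α = n → Fintype.card β = n →
      Fintype.card γ = n → (W1.card : ℝ) ≤ ξ * m → (W2.card : ℝ) ≤ ξ * m →
      (W3.card : ℝ) ≤ ξ * m → Bal A B C →
      Rsv1 κ ρ η n m A B C QA QB QC U1 U2 W2 U3 W3 →
      Rsv1 κ ρ η n m B C A QB QC QA U2 U3 W3 U1 W1 →
      Rsv1 κ ρ η n m C A B QC QA QB U3 U1 W1 U2 W2 →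
      Pack A B C P → Sm LA (g' * n) → Sm LB (g' * n) → Sm LC (g' * n) →
      PhA (g' * n) A QA LA (P.image eA) U1 U2 → PhA (g' * n) B QB LB (P.image eB) U2 U3 →
      PhA (g' * n) C QC LC (P.image eC) U3 U1 →
      ∃ (P' : Finset (α × β × γ)) (JA : Finset (α × β)) (JB : Finset (β × γ))
        (JC : Finset (γ × α)),
        Pack (A \ P.image eA) (B \ P.image eB) (C \ P.image eC) P' ∧
        JA ⊆ hb A U1 W1 U2 W2 ∧ JB ⊆ hb B U2 W2 U3 W3 ∧ JC ⊆ hb C U3 W3 U1 W1 ∧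
        Sm JA (2 * ρ * n) ∧ Sm JB (2 * ρ * n) ∧ Sm JC (2 * ρ * n) ∧
        P'.image eA = oi (A \ P.image eA) U1 U2 ∪ io (A \ P.image eA) U1 U2 ∪ JA ∧
        P'.image eB = oi (B \ P.image eB) U2 U3 ∪ io (B \ P.image eB) U2 U3 ∪ JB ∧
        P'.image eC = oi (C \ P.image eC) U3 U1 ∪ io (C \ P.image eC) U3 U1 ∪ JC

end Pool.Agent.Helper49.TP
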