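import Pool.Agent.Helper49.TP.StM

/-!
# Project TP (MP_953b28_co), part W: vortex, iteration and final assembly with a reference weight

In `Fin N` the reference weight is written `X` with `c0 ≤ X ≤ Λ` on triangles (it is `n` times the weight
`x` of part M), and its edge sums inside a level `S` of size `s` are close to `s`.
-/

set_option autoImplicit false

namespace Pool.Agent.Helper49.TP

open Finset Pool.Agent.Helper93.IA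
open Pool.Agent.Helper57.IA (Pr wB)
open Pool.Agent.Helper17.IA (StPKU StPKB NearE CDC StI StABF StFRM StFDC StFLL StVAN)

/-! ## Random subsets with weights -/

/-- NWA (numbers; copy of `Pool/Agent/Helper28/IA57/SB1.lean`, 110 lines). PROOF. `m = ⌊ξ n⌋`, `t = m^(2/3)/4`,
`l = t/(4n)`. For `n ≥ 16/ξ`: `ξ n/2 ≤ m ≤ n`, `m ≥ 8`, so `m^(2/3) ≥ 4`, `2t + 2 ≤ m^(2/3)`, `t ≤ n/4`, `l ≤ 1`. The
exponent is `-x`, `x = t^2/(8n)`. `t^3 = m^2/64`, so `x^3 = t^6/(512 n^3) = m^4/(2^21 n^3) ≥ ξ^4 n/2^25`. With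
`exp x ≥ x^9/9!` : `exp (-x) ≤ 9! 2^75/(ξ^12 n^3)` and `2 (4n^2 + 1) exp (-x) ≤ 10 n^2 * 9! * 2^75/(ξ^12 n^3) < 1` for
`n > 10 * 9! * 2^75/ξ^12`. -/
def StNWA : Prop :=
  ∀ ξ : ℝ, 0 < ξ → ξ ≤ 1 / 2 → ∃ n0 : ℕ, ∀ n : ℕ, n0 ≤ n → ∃ l t : ℝ, 0 < n ∧ 0 ≤ l ∧ l ≤ 1 ∧
    0 ≤ t ∧ 2 * t + 2 ≤ (⌊ξ * n⌋₊ : ℝ) ^ ((2 : ℝ) / 3) ∧
    (4 * (n : ℝ) ^ 2 + 1) * (2 * Real.exp (-l * t + 2 * l ^ 2 * n)) < 1

/-- CNW (concentration of a weighted sum; 100 lines, like `Pool/Agent/Helper39/IA57/CNT.lean` but simpler). PROOF. Let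
`f σ = ∑ v, (if σ v = true then F v else 0)`. `Ex (wB p) f = ξ ∑ v, F v` (`ex_sum`, `ex_mul`, `ex_bit` of
`Pool.Agent.Helper57.IA`, `F v * (if σ v = true then 1 else 0)`). If the coordinate `i` is changed only the summand
`v = i` changes, by at most `F i ≤ 1`: oscillation `≤ 1`; variance hypothesis with `m = f (update σ i false)`, `v i = 1`.
BRN for `f` and for `-f` (`ex_neg`) with `c = 1`: each probability is at most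
`exp (-l t + l^2 |V|) ≤ exp (-l t + 2 l^2 |V|)`; `pr_mono`, `pr_or`. -/
def StCNW : Prop :=
  StBRN → ∀ (V : Type) [Fintype V] [DecidableEq V] (ξ : ℝ) (F : V → ℝ) (l t : ℝ), 0 ≤ ξ → ξ ≤ 1 →
    (∀ v, 0 ≤ F v ∧ F v ≤ 1) → 0 ≤ l → l ≤ 1 →
    Pr (wB (fun _ : V => ξ))
      (fun σ => t < |∑ v, (if σ v = true then F v else 0) - ξ * ∑ v, F v|)
      ≤ 2 * Real.exp (-l * t + 2 * l ^ 2 * Fintype.card V)

/-- The conclusion of SUW: a random subset for weighted sums. -/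
def SUWC : Prop :=
  ∀ ξ : ℝ, 0 < ξ → ξ ≤ 1 / 2 → ∃ n0 : ℕ, ∀ (V ι : Type) [Fintype V] [DecidableEq V] [Fintype ι]
    (n : ℕ), n0 ≤ n → Fintype.card V = n → Fintype.card ι ≤ 4 * n ^ 2 → ∀ F : ι → V → ℝ,
    (∀ j v, 0 ≤ F j v ∧ F j v ≤ 1) →
    ∃ U : Finset V, U.card = ⌊ξ * n⌋₊ ∧
      ∀ j, |∑ v ∈ U, F j v - (∑ v, F j v) * U.card / n| ≤ (U.card : ℝ) ^ ((2 : ℝ) / 3)

/-- SUW (130 lines, like `Pool/Agent/Helper78/IA57/SB2.lean`). PROOF. `n0`, `l`, `t` from NWA. `J = Option ι`,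
`F' none = 1`, `F' (some j) = F j`. By CNW and `pr_exists_le` the probability that for some `j : J` the event of
CNW holds is at most `(4 n^2 + 1) * 2 exp (..) < 1`, so by `exists_not` there is `σ` with all deviations `≤ t`. Let
`U0 = univ.filter (σ v = true)`: `| |U0| - ξ n | ≤ t` and `|∑_{U0} F j - ξ ∑ F j| ≤ t`. Let `m = ⌊ξ n⌋ ≤ n`. Choose `U`
with `|U| = m` and `U ⊆ U0` or `U0 ⊆ U` (`Finset.exists_subset_card_eq`, `Finset.exists_superset_card_eq`); as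
`0 ≤ F ≤ 1`, `|∑_U F j - ∑_{U0} F j| ≤ | |U0| - m | ≤ t + 1`. Finally
`|ξ ∑ F j - (∑ F j) m/n| ≤ |ξ n - m| ≤ 1`. Total `2t + 2 ≤ m^(2/3)`. -/
def StSUW : Prop := StBRN → StCNW → StNWA → SUWC

/-! ## The vortex -/

/-- Every edge inside `S` has edge sum within `e` of `s`, the third vertex ranging over `S`. -/
def EsE {n : ℕ} (A B C : Finset (Fin n × Fin n)) (X : Fin n → Fin n → Fin n → ℝ)
    (S : Fin 3 → Finset (Fin n)) (s e : ℝ) : Prop :=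
  (∀ a ∈ S 0, ∀ b ∈ S 1, (a, b) ∈ A → |∑ c ∈ S 2, X a b c - s| ≤ e) ∧
  (∀ b ∈ S 1, ∀ c ∈ S 2, (b, c) ∈ B → |∑ a ∈ S 0, X a b c - s| ≤ e) ∧
  (∀ c ∈ S 2, ∀ a ∈ S 0, (c, a) ∈ C → |∑ b ∈ S 1, X a b c - s| ≤ e)

/-- The conclusion of VSW: a random subset `U` of one class. -/
def VSWC : Prop :=
  ∀ ξ : ℝ, 0 < ξ → ξ ≤ 1 / 2 → ∃ n0 : ℕ, ∀ (n s : ℕ) (G H : Finset (Fin n × Fin n))
    (Y : Fin n → Fin n → Fin n → ℝ) (Λ : ℝ) (S T1 T2 : Finset (Fin n)), n0 ≤ s → S.card = s →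
    T1.card = s → T2.card = s → 1 ≤ Λ → (∀ t1 t2 v, 0 ≤ Y t1 t2 v ∧ Y t1 t2 v ≤ Λ) →
    ∃ U : Finset (Fin n), U ⊆ S ∧ U.card = ⌊ξ * s⌋₊ ∧
      (∀ t ∈ T1, |(m2 G U t : ℝ) - m2 G S t * U.card / s| ≤ (U.card : ℝ) ^ ((2 : ℝ) / 3)) ∧
      (∀ t ∈ T2, |(m1 H U t : ℝ) - m1 H S t * U.card / s| ≤ (U.card : ℝ) ^ ((2 : ℝ) / 3)) ∧
      ∀ t1 ∈ T1, ∀ t2 ∈ T2, |∑ v ∈ U, Y t1 t2 v - (∑ v ∈ S, Y t1 t2 v) * U.card / s|
        ≤ Λ * (U.card : ℝ) ^ ((2 : ℝ) / 3)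

/-- VSW (100 lines, like `Pool/Agent/Helper12/IA/M_VSF.lean`). PROOF. SUW for `ξ` gives `n0`; take `max n0 1`. Apply it
to `V = ↥S`, `ι = ↥T1 ⊕ ↥T2 ⊕ (↥T1 × ↥T2)` (`card = 2 s + s^2 ≤ 4 s^2` as `s ≥ 1`) and the functions: for `inl t` the
indicator of `(x, t) ∉ G`, for `inr (inl t)` the indicator of `(t, x) ∉ H`, for `inr (inr (t1, t2))` the function
`Y t1 t2 x / Λ` (in `[0,1]`). `U = U'.map (Function.Embedding.subtype _)`; sums over `↥S` are sums over `S`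
(`Finset.sum_coe_sort` / `Finset.sum_map`), `m2 G U t = ∑_{x ∈ U} indicator`. Multiply the third inequality by
`Λ`. -/
def StVSW : Prop := SUWC → VSWC

/-- The conclusion of VTW: one step of the vortex. -/
def VTWC : Prop :=
  ∀ ξ : ℝ, 0 < ξ → ξ ≤ 1 / 1000 → ∃ n0 : ℕ, 1 ≤ n0 ∧ ∀ (n s : ℕ) (κ Λ : ℝ)
    (A B C : Finset (Fin n × Fin n)) (X : Fin n → Fin n → Fin n → ℝ)
    (S : Fin 3 → Finset (Fin n)), n0 ≤ s → (∀ j, (S j).card = s) → 1 ≤ Λ →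
    (∀ a b c, 0 ≤ X a b c ∧ X a b c ≤ Λ) →
    NearE A B C S S (κ * s) (2 * (s : ℝ) ^ ((2 : ℝ) / 3)) →
    EsE A B C X S s (2 * Λ * (s : ℝ) ^ ((2 : ℝ) / 3)) →
    ∃ U : Fin 3 → Finset (Fin n), (∀ j, U j ⊆ S j) ∧ (∀ j, (U j).card = ⌊ξ * s⌋₊) ∧
      NearE A B C S U (κ * (⌊ξ * s⌋₊ : ℕ)) (2 * ((⌊ξ * s⌋₊ : ℕ) : ℝ) ^ ((2 : ℝ) / 3)) ∧
      EsE A B C X U (⌊ξ * s⌋₊ : ℕ) (2 * Λ * ((⌊ξ * s⌋₊ : ℕ) : ℝ) ^ ((2 : ℝ) / 3))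

/-- VTW (100 lines, like `Pool/Agent/Helper99/IA/M_VST.lean`). PROOF. `n0 = max 1` of the number of VSW. Apply VSW three
times: for the class `0` with `G = A`, `H = C`, `S = S 0`, `T1 = S 1`, `T2 = S 2`, `Y b c a = X a b c`; for the class
`1` with `G = B`, `H = A`, `S = S 1`, `T1 = S 2`, `T2 = S 0`, `Y c a b = X a b c`; for the class `2` with `G = C`,
`H = B`, `S = S 2`, `T1 = S 0`, `T2 = S 1`, `Y a b c = X a b c`; `U = ![U0, U1, U2]`. `NearE` as in `M_VST`. `EsE`: for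
`a ∈ U 0 ⊆ S 0`, `b ∈ U 1 ⊆ S 1`, `(a,b) ∈ A`, with `f = ∑_{c ∈ S 2} X a b c`, `f' = ∑_{c ∈ U 2} X a b c`,
`m = ⌊ξ s⌋₊`: `|f' - m| ≤ |f' - f m/s| + |f - s| m/s ≤ Λ m^(2/3) + 2 Λ s^(2/3) m/s ≤ 2 Λ m^(2/3)` by VAN. The same for
the other two. -/
def StVTW : Prop := VSWC → StVAN → VTWC

/-- A vortex of `ℓ + 1` levels which starts with the three sets `S`, with the edge sums of `X`. -/
structure ChX {n : ℕ} (A B C : Finset (Fin n × Fin n)) (X : Fin n → Fin n → Fin n → ℝ)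
    (S : Fin 3 → Finset (Fin n)) (κ ε ξ : ℝ) (n0 ℓ : ℕ) (V : ℕ → Fin 3 → Finset (Fin n)) :
    Prop where
  zero : ∀ j, V 0 j = S j
  sub : ∀ i < ℓ, ∀ j, V (i + 1) j ⊆ V i j
  card : ∀ i < ℓ, ∀ j, (V (i + 1) j).card = ⌊ξ * (V i 0).card⌋₊
  big : ∀ i ≤ ℓ, ∀ j, n0 ≤ (V i j).card
  near : ∀ i ≤ ℓ, Near A B C (V i 0) (V i 1) (V i 2) (V i 0) (V i 1) (V i 2)
    ((κ - ε) * (V i 0).card) ((κ + ε) * (V i 0).card)
  next : ∀ i < ℓ, Near A B C (V i 0) (V i 1) (V i 2) (V (i + 1) 0) (V (i + 1) 1) (V (i + 1) 2)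
    ((κ - ε) * (V (i + 1) 0).card) ((κ + ε) * (V (i + 1) 0).card)
  es : ∀ i ≤ ℓ, EsE A B C X (V i) (V i 0).card (ε * (V i 0).card)

/-- The conclusion of VCW. -/
def VCWC : Prop :=
  ∀ ξ ε Λ : ℝ, 0 < ξ → ξ ≤ 1 / 1000 → 0 < ε → 1 ≤ Λ → ∃ N0 : ℕ, 1 ≤ N0 ∧ ∀ n0 : ℕ, N0 ≤ n0 →
    ∃ M : ℕ, ∀ (n s : ℕ) (κ : ℝ) (A B C : Finset (Fin n × Fin n))
      (X : Fin n → Fin n → Fin n → ℝ) (S : Fin 3 → Finset (Fin n)), n0 ≤ s →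
      (∀ j, (S j).card = s) → (∀ a b c, 0 ≤ X a b c ∧ X a b c ≤ Λ) →
      NearE A B C S S (κ * s) (2 * (s : ℝ) ^ ((2 : ℝ) / 3)) →
      EsE A B C X S s (2 * Λ * (s : ℝ) ^ ((2 : ℝ) / 3)) →
      ∃ (ℓ : ℕ) (V : ℕ → Fin 3 → Finset (Fin n)), ChX A B C X S κ ε ξ n0 ℓ V ∧
        ∀ j, (V ℓ j).card ≤ M

/-- VCW (the chain; 150 lines, like `Pool/Agent/Helper15/IA/M_VCH.lean`). PROOF. `n1` from VTW for `ξ`. `N0 ≥ n1`,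
`N0 ≥ (2 Λ/ε)^3`, so that `2 Λ s^(2/3) ≤ ε s` for `s ≥ N0`. `M = ⌈n0/ξ⌉₊`. Strong induction on `s` (for all `S`) as
in `M_VCH`; the new field `es`: at the level `0` from the hypothesis `EsE .. s (2 Λ s^(2/3))` (monotone in the
error), at the levels `i + 1` from the induction hypothesis, which is applied to `U` with the `EsE` of VTW. -/
def StVCW : Prop := VTWC → VCWC

/-- The vortex in a regular graph with a reference weight (helper49 proves it from VCW). -/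
def VORX : Prop :=
  ∀ ξ ε Λ : ℝ, 0 < ξ → ξ ≤ 1 / 1000 → 0 < ε → 1 ≤ Λ → ∃ N0 : ℕ, ∀ n0 : ℕ, N0 ≤ n0 → ∃ M : ℕ,
    ∀ (n k : ℕ) (A B C : Finset (Fin n × Fin n)) (X : Fin n → Fin n → Fin n → ℝ), n0 ≤ n →
      (∀ i, m1 A univ i = k ∧ m2 A univ i = k ∧ m1 B univ i = k ∧ m2 B univ i = k ∧
        m1 C univ i = k ∧ m2 C univ i = k) → (∀ a b c, 0 ≤ X a b c ∧ X a b c ≤ Λ) →
      (∀ a b, (a, b) ∈ A → ∑ c, X a b c = n) → (∀ b c, (b, c) ∈ B → ∑ a, X a b c = n) →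
      (∀ c a, (c, a) ∈ C → ∑ b, X a b c = n) →
      ∃ (ℓ : ℕ) (V : ℕ → Fin 3 → Finset (Fin n)),
        ChX A B C X (fun _ => univ) ((k : ℝ) / n) ε ξ n0 ℓ V ∧ ∀ j, (V ℓ j).card ≤ M

/-! ## Iteration -/

/-- `X` is between `c0` and `Λ` on the triangles and `0` elsewhere. -/
def Wf {n : ℕ} (c0 Λ : ℝ) (A B C : Finset (Fin n × Fin n)) (X : Fin n → Fin n → Fin n → ℝ) :
    Prop :=
  (∀ a b c, 0 ≤ X a b c ∧ X a b c ≤ Λ) ∧ (∀ a b c, X a b c ≠ 0 → Tri A B C a b c) ∧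
    ∀ a b c, Tri A B C a b c → c0 ≤ X a b c

/-- CFX (cover down for graphs on `Fin N`, all edges inside the classes `S 0, S 1, S 2`; like
`Pool/Agent/Helper28/IA/M_CDF.lean`, 350 lines there, most of it can be cited or copied). PROOF. As in `M_CDF`:
transport by the inclusions of `↥(S 0)`, `↥(S 1)`, `↥(S 2)`. The new hypothesis of `CDPX`:
`Wx c0 Λ ε n A0' B0' C0' x` for `x a b c = X a b c / n` (coercions): `nn`, `up` (`X ≤ Λ`), `lo` clear; `tr`: if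
`x a b c ≠ 0` then `Tri A0 B0 C0 a b c` by `Wf`; `eA`: `∑ c : ↥(S 2), X a b c / n = (∑ c ∈ S 2, X a b c)/n`
(`Finset.sum_coe_sort`) and `|∑ - n| ≤ ε n` (`n > 0`: if `n = 0` the types are empty; or `n0 ≥ 1`). -/
def StCFX : Prop :=
  ∀ (δ c0 Λ ξ g ε : ℝ) (n0 : ℕ), 0 < g → 1 ≤ n0 → CDPX δ c0 Λ ξ g ε n0 →
    ∀ (N n m : ℕ) (κ : ℝ) (A0 B0 C0 A B C : Finset (Fin N × Fin N))
    (X : Fin N → Fin N → Fin N → ℝ) (S U W : Fin 3 → Finset (Fin N)), 0 ≤ κ →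
    κ ≤ 1 / 4 - 2 * δ → n0 ≤ n → m = ⌊ξ * n⌋₊ → (∀ j, (S j).card = n) → (∀ j, (U j).card = m) →
    (∀ j, U j ⊆ S j) → (∀ j, W j ⊆ U j) → (∀ j, ((W j).card : ℝ) ≤ ξ * m) →
    (∀ e ∈ A0, e.1 ∈ S 0 ∧ e.2 ∈ S 1) → (∀ e ∈ B0, e.1 ∈ S 1 ∧ e.2 ∈ S 2) →
    (∀ e ∈ C0, e.1 ∈ S 2 ∧ e.2 ∈ S 0) → A ⊆ A0 → B ⊆ B0 → C ⊆ C0 →
    Near A0 B0 C0 (S 0) (S 1) (S 2) (S 0) (S 1) (S 2) ((κ - ε) * n) ((κ + ε) * n) →
    Near A0 B0 C0 (S 0) (S 1) (S 2) (U 0) (U 1) (U 2) ((κ - ε) * m) ((κ + ε) * m) →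
    Sm (A0 \ A) (g * n) → Sm (B0 \ B) (g * n) → Sm (C0 \ C) (g * n) →
    ins A (U 0) (U 1) = ins A0 (U 0) (U 1) → ins B (U 1) (U 2) = ins B0 (U 1) (U 2) →
    ins C (U 2) (U 0) = ins C0 (U 2) (U 0) → Bal A B C → Wf c0 Λ A0 B0 C0 X →
    EsE A0 B0 C0 X S n (ε * n) → CDC g m A B C U W

/-- ISX (one step of the iteration; like `Pool/Agent/Helper18/IA/M_ITS.lean`, 200 lines). PROOF. As in `M_ITS` with CFX
instead of CDF, where `A0 = ins A (V i 0) (V i 1)` etc. and the weight `X'` = `X` restricted to the triangles of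
`(A0, B0, C0)` (`X' a b c = X a b c` if `a ∈ V i 0`, `b ∈ V i 1`, `c ∈ V i 2`, otherwise `0`): `Wf` is clear, and for
`a ∈ V i 0`, `b ∈ V i 1` the sum `∑_{c ∈ V i 2} X' a b c = ∑_{c ∈ V i 2} X a b c`, so `EsE` is the field `es i`. -/
def StISX : Prop :=
  StPKB → StPKU → StCFX → ∀ (δ c0 Λ ξ g ε : ℝ) (n0 : ℕ), 0 < ξ → 0 < g → 1 ≤ n0 →
    CDPX δ c0 Λ ξ g ε n0 →
    ∀ (N ℓ i : ℕ) (κ : ℝ) (A B C A' B' C' A'' B'' C'' : Finset (Fin N × Fin N))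
      (X : Fin N → Fin N → Fin N → ℝ) (V : ℕ → Fin 3 → Finset (Fin N)), i < ℓ → 0 ≤ κ →
      κ ≤ 1 / 4 - 2 * δ → ChX A B C X (fun _ => univ) κ ε ξ n0 ℓ V → Wf c0 Λ A B C X →
      A' ⊆ A → B' ⊆ B → C' ⊆ C → StI g ℓ i A B C A' B' C' A'' B'' C'' V →
      ∃ A3 B3 C3, StI g ℓ (i + 1) A B C A' B' C' A3 B3 C3 V

/-- The conclusion of IFX. -/
def ITRX : Prop :=
  ∀ (δ c0 Λ ξ g ε : ℝ) (n0 : ℕ), 0 < ξ → ξ ≤ 1 / 1000 → 0 < g → 0 < ε → 1 ≤ n0 →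
    CDPX δ c0 Λ ξ g ε n0 →
    ∀ (n ℓ : ℕ) (κ : ℝ) (A B C A' B' C' : Finset (Fin n × Fin n))
      (X : Fin n → Fin n → Fin n → ℝ) (V : ℕ → Fin 3 → Finset (Fin n)), 1 ≤ ℓ → 0 ≤ κ →
      κ ≤ 1 / 4 - 2 * δ → ChX A B C X (fun _ => univ) κ ε ξ n0 ℓ V → Wf c0 Λ A B C X →
      A' ⊆ A → B' ⊆ B → C' ⊆ C → Bal A' B' C' → Sm (A \ A') (g * n) → Sm (B \ B') (g * n) →
      Sm (C \ C') (g * n) → ins A' (V 1 0) (V 1 1) = ins A (V 1 0) (V 1 1) →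
      ins B' (V 1 1) (V 1 2) = ins B (V 1 1) (V 1 2) →
      ins C' (V 1 2) (V 1 0) = ins C (V 1 2) (V 1 0) →
      ∃ P, Pack A' B' C' P ∧ A' \ P.image eA ⊆ ins A' (V ℓ 0) (V ℓ 1) ∧
        B' \ P.image eB ⊆ ins B' (V ℓ 1) (V ℓ 2) ∧ C' \ P.image eC ⊆ ins C' (V ℓ 2) (V ℓ 0)

/-- IFX (copy of `Pool/Agent/Helper82/IA/M_ITF.lean` with ISX, 80 lines). -/
def StIFX : Prop := StPKB → StPKU → StCFX → StISX → ITRX

/-! ## Final assembly -/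

/-- The main theorem of the machine: a regular tripartite graph with `k ≤ (1/4 - 2δ) n` and a fractional
triangle decomposition with weights between `c0/n` and `Λ/n` has a triangle decomposition. -/
def MAIX : Prop :=
  ∀ δ c0 Λ : ℝ, 0 < δ → δ ≤ 1 / 8 → 0 < c0 → 1 ≤ Λ → ∃ n0 : ℕ, ∀ n k : ℕ, n0 ≤ n →
    (k : ℝ) ≤ (1 / 4 - 2 * δ) * n → ∀ (A B C : Finset (Fin n × Fin n))
    (X : Fin n → Fin n → Fin n → ℝ),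
    (∀ i, m1 A univ i = k ∧ m2 A univ i = k ∧ m1 B univ i = k ∧ m2 B univ i = k ∧
      m1 C univ i = k ∧ m2 C univ i = k) → Wf c0 Λ A B C X →
    (∀ a b, (a, b) ∈ A → ∑ c, X a b c = n) → (∀ b c, (b, c) ∈ B → ∑ a, X a b c = n) →
    (∀ c a, (c, a) ∈ C → ∑ b, X a b c = n) → Dec A B C

/-- FFX (like `Pool/Agent/Helper32/IA/M_FFN.lean`, 200 lines). PROOF. Fix `δ, c0, Λ`; `ξ g ε n1` from the first
hypothesis (`ξ ≤ δ`), with `CDPX δ c0 Λ ξ g ε n1`; VORX for `ξ, ε, Λ` gives `N0`; `n0 = max (max n1 N0) 1`;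
`CDPX` is monotone in `n0`; VORX gives `M`. `e = M * M`, `q = 2 ^ (3 * (M * M))`. Take `n ≥ n0`, `n > M`,
`q * (36 * e) ≤ g n`, `q * (11 * e + 1) + 12 * e + 2 ≤ 4 δ n`. Then as in `M_FFN`: VORX gives `ℓ`, `V`; `ℓ ≥ 1`;
`F0 = V 1 0 ∪ V 1 1 ∪ V 1 2`, `F0.card ≤ 3 ξ n ≤ 3 δ n`, `4k ≤ n - 8 δ n`, so the hypothesis of ABF holds:
`4k + 3 δ n + 4 δ n ≤ n`. FLL, ABF, FRM (`t = g n`), ITRX for `κ = k/n ≤ 1/4 - 2δ` (`ChX .. (fun _ => univ) ..` gives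
the structure; if the proof of `M_FFN` uses `Chain`, its fields are fields of `ChX`), FDC. -/
def StFFX : Prop :=
  StPKB → StPKU → StABF → StFRM → StFDC → StFLL → StABS →
    (∀ δ c0 Λ : ℝ, 0 < δ → δ ≤ 1 / 8 → 0 < c0 → 0 < Λ →
      ∃ (ξ g ε : ℝ) (n0 : ℕ), 0 < ξ ∧ ξ ≤ 1 / 1000 ∧ ξ ≤ δ ∧ 0 < g ∧ 0 < ε ∧
        CDPX δ c0 Λ ξ g ε n0) →
    VORX → ITRX → MAIX

end Pool.Agent.Helper49.TP
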