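import Pool.Agent.Helper92.Proto.Defs

/-!
# Project TP (MP_953b28_co): autotopisms of partial arrays, and the sharpness of the constant `1/4`
-/

set_option autoImplicit false

namespace Pool.Agent.Helper49.TP

open Finset
open Pool.Agent.Helper92.Proto (IsProtoplex Completable)

/-- The permutations `ρ` of the rows, `κ` of the columns and `σ` of the symbols form an autotopism of `P`. -/
def IsAutotopism {n : ℕ} (P : Fin n → Fin n → Option (Fin n)) (ρ κ σ : Equiv.Perm (Fin n)) :
    Prop :=
  ∀ r c s, P (ρ r) (κ c) = some (σ s) ↔ P r c = some s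

/-- Every row can be mapped to every row by an autotopism. -/
def RowTransitive {n : ℕ} (P : Fin n → Fin n → Option (Fin n)) : Prop :=
  ∀ r r', ∃ ρ κ σ, IsAutotopism P ρ κ σ ∧ ρ r = r'

/-- Every column can be mapped to every column by an autotopism. -/
def ColTransitive {n : ℕ} (P : Fin n → Fin n → Option (Fin n)) : Prop :=
  ∀ c c', ∃ ρ κ σ, IsAutotopism P ρ κ σ ∧ κ c = c'

/-- Every symbol can be mapped to every symbol by an autotopism. -/
def SymTransitive {n : ℕ} (P : Fin n → Fin n → Option (Fin n)) : Prop :=
  ∀ s s', ∃ ρ κ σ, IsAutotopism P ρ κ σ ∧ σ s = s'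

/-- SHA (a protoplex which splits into two halves is not completable when `4k > n`; 100 lines). PROOF. Let `L` be a
latin square which extends `P`. For a cell `(r, c)` with `s = L r c` let `D r c` be the number of the three pairs
`(ρ r, κ c)`, `(κ c, σ s)`, `(σ s, ρ r)` with different entries; `D ≤ 2` always, and `D = 0` at the `n k` filled cells of
`P` (`∑_r` number of filled cells of the row `r` `= n k`, field `row`). So `∑ D ≤ 2 (n^2 - n k)`. On the other hand
`4 * #{(r,c) : ρ r ≠ κ c} = 2 n^2` (each `r` has exactly `n/2` columns of the other colour: `2 * # = n`), and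
`#{(r,c) : κ c ≠ σ (L r c)}` is the number of the `(c, s)` with `κ c ≠ σ s` (for fixed `c` the map `r ↦ L r c` is
bijective), `#{(r,c) : σ (L r c) ≠ ρ r}` is the number of the `(s, r)` with `σ s ≠ ρ r`: so `2 ∑ D = 3 n^2`.
Hence `3 n^2 ≤ 4 n^2 - 4 n k`, i.e. `4 k ≤ n` (`n > 0` since `n < 4k` and `k ≤ n`). -/
def StSHA : Prop :=
  ∀ (n k : ℕ) (P : Fin n → Fin n → Option (Fin n)) (ρ κ σ : Fin n → Bool), IsProtoplex n k P →
    0 < n → n < 4 * k →
    (2 * (univ.filter fun r => ρ r = true).card = n) →
    (2 * (univ.filter fun c => κ c = true).card = n) →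
    (2 * (univ.filter fun s => σ s = true).card = n) →
    (∀ r c s, P r c = some s → ρ r = κ c ∧ κ c = σ s) → ¬ Completable P

/-- SHB (a cyclic example; 120 lines). PROOF. Rows, columns and symbols are the elements of `Fin (2 N)` (a cyclic group, `N > 0` as
`N` is odd). `P i j = some (i + 4 d)` if `j = i + 2 d` for some natural `d < k` (`d` is unique as `d < N`, since
`2 d` is determined modulo `2 N`), `none` otherwise; for instance, with `x = ((j - i : Fin (2 N)) : ℕ)`:
`P i j = if x % 2 = 0 ∧ x / 2 < k then some (i + (j - i) + (j - i)) else none`, i.e. the symbol is `j + (j - i)`.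
Row `i`: the symbols `i + 4 d`, `d < k ≤ N`, are different (`4 (d - d')` divisible by `2 N`, `N` odd: `N` divides `d - d'`);
column `j`: the symbols `j + 2 d` are different. Every row, column has `k` filled cells; the symbol `s` occurs
exactly in the cells `(s - 4 d, s - 2 d)`, `d < k`, which are different. The translations
`i ↦ i + t` (in the three places, `Equiv.addRight t`) are autotopisms. `ρ = κ = σ` = parity of the natural number:
`i`, `i + 2 d`, `i + 4 d` (modulo `2 N`) have the same parity, and exactly `N` of the `2 N` elements are odd. -/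
def StSHB : Prop :=
  ∀ N k : ℕ, Odd N → k ≤ N → ∃ (P : Fin (2 * N) → Fin (2 * N) → Option (Fin (2 * N)))
    (ρ : Fin (2 * N) → Bool), IsProtoplex (2 * N) k P ∧
      2 * (univ.filter fun r => ρ r = true).card = 2 * N ∧
      (∀ r c s, P r c = some s → ρ r = ρ c ∧ ρ c = ρ s) ∧ RowTransitive P ∧ ColTransitive P ∧
      SymTransitive P

end Pool.Agent.Helper49.TP
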